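import Pool.Agent.H64R2.VF.Defs

/-!
# Algebra: monomials, Frobenius powers and coded sequences

Let `K` be a field of characteristic `p` and `t` a nonzero element such that
`1 ∉ G := {d^p - d + ∑_{0<j<p} t^j c_j^p}`. Then `G` contains `t^m y^(p^N)` whenever `p^N ∤ m`.
-/

namespace Pool.Agent.H64R2.VF

section
variable {K : Type} [Field K] (p : ℕ) (t : K)

/-- sums `t c₁^p + t² c₂^p + … + t^j c_j^p` -/
def ZS : ℕ → K → Prop
  | 0, x => x = 0
  | j + 1, x => ∃ c r, x = t * (c ^ p + r) ∧ ZS j r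

/-- the elements `d^p - d + ∑_{0<j<p} t^j c_j^p` -/
def GG (x : K) : Prop := ∃ d, ZS p t (p - 1) (x - (d ^ p - d))

/-- the hypothesis on `t` -/
def Good : Prop := t ≠ 0 ∧ ¬ GG p t 1

/-- `c = t^n` and `a = t^n b^(p^N)` for some `n < p^N` -/
def EE (N : ℕ) (a b c : K) : Prop := ∃ n < p ^ N, c = t ^ n ∧ a = t ^ n * b ^ (p ^ N)

/-- one step -/
def Step (u v u₁ v₁ : K) : Prop := ∃ i < p, u = t ^ i * u₁ ^ p ∧ v = t ^ i * v₁ ^ p

/-- `u` is the entry of index `j` (where `s = t^j`) of the sequence coded by `A` -/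
def Dec (N : ℕ) (A s u : K) : Prop :=
  ∀ w w' u', EE p t N w' w 1 → EE p t N u' u 1 → GG p t ((s * A - u') * w')

/-- the relation `EE` at level `p^N`, in terms of the relation at level `N` -/
def Tow (N : ℕ) (a b c : K) : Prop :=
  ∃ A C, Dec p t N A 1 a ∧ Dec p t N C 1 c ∧ ∀ s, EE p t N s 1 s →
    (EE p t N (t * s) 1 (t * s) → ∃ u v u₁ v₁, Dec p t N A s u ∧ Dec p t N C s v ∧
      Dec p t N A (t * s) u₁ ∧ Dec p t N C (t * s) v₁ ∧ Step p t u v u₁ v₁) ∧
    (¬ EE p t N (t * s) 1 (t * s) → ∃ u v, Dec p t N A s u ∧ Dec p t N C s v ∧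
      Step p t u v b 1)

/-- bit of index `(i, j)` of the array coded by `x` (where `s = t^i`, `r = t^j`) -/
def Bit (N : ℕ) (x s r : K) : Prop := ∃ r', EE p t N r' r 1 ∧ GG p t (x * s * r' - 1)

end

section
variable {K : Type} [Field K] {p : ℕ} {t : K}

theorem EE_zero (a b c : K) : EE p t 0 a b c ↔ c = 1 ∧ a = b := by
  simp [EE]

variable [hp : Fact p.Prime]

theorem EE_succ (N : ℕ) (a b c : K) :
    EE p t (N + 1) a b c ↔ ∃ a' c', Step p t a c a' c' ∧ EE p t N a' b c' := by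
  have hp0 : 0 < p := hp.out.pos
  constructor
  · rintro ⟨n, hn, hc, ha⟩
    have h1 : n / p < p ^ N := Nat.div_lt_of_lt_mul (by rwa [← pow_succ'])
    have h2 : n % p + n / p * p = n := Nat.mod_add_div' n p
    refine ⟨t ^ (n / p) * b ^ (p ^ N), t ^ (n / p), ⟨n % p, Nat.mod_lt _ hp0, ?_, ?_⟩,
      n / p, h1, rfl, rfl⟩
    · rw [ha, mul_pow, ← pow_mul, ← pow_mul, ← mul_assoc, ← pow_add, h2, pow_succ]
    · rw [hc, ← pow_mul, ← pow_add, h2]
  · rintro ⟨a', c', ⟨i, hi, ha, hc⟩, n, hn, hc', ha'⟩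
    refine ⟨i + n * p, ?_, ?_, ?_⟩
    · have h3 : (n + 1) * p ≤ p ^ N * p := Nat.mul_le_mul_right p hn
      rw [pow_succ]
      nlinarith
    · rw [hc, hc', pow_add, pow_mul]
    · rw [ha, ha', mul_pow, pow_add, pow_mul, pow_succ, pow_mul, mul_assoc]

variable [CharP K p]

omit [CharP K p] in
theorem ZS_zero (j : ℕ) : ZS p t j (0 : K) := by
  induction j with
  | zero => rfl
  | succ j ih => exact ⟨0, 0, by simp [hp.out.ne_zero], ih⟩

theorem ZS_sub (j : ℕ) : ∀ x y : K, ZS p t j x → ZS p t j y → ZS p t j (x - y) := by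
  induction j with
  | zero => intro x y hx hy; simp only [ZS] at *; simp [hx, hy]
  | succ j ih =>
    rintro x y ⟨c, r, rfl, hr⟩ ⟨c', r', rfl, hr'⟩
    refine ⟨c - c', r - r', ?_, ih _ _ hr hr'⟩
    rw [sub_pow_char]
    ring

theorem ZS_mono (j : ℕ) : ∀ (i : ℕ) (y : K), 0 < i → i ≤ j → ZS p t j (t ^ i * y ^ p) := by
  induction j with
  | zero => intro i y h1 h2; omega
  | succ j ih =>
    intro i y h1 h2
    obtain ⟨i, rfl⟩ := Nat.exists_eq_succ_of_ne_zero h1.ne'
    rcases Nat.eq_zero_or_pos i with rfl | hi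
    · exact ⟨y, 0, by simp, ZS_zero j⟩
    · refine ⟨0, t ^ i * y ^ p, ?_, ih i y hi (by omega)⟩
      rw [zero_pow hp.out.ne_zero, pow_succ']
      ring

theorem GG_sub {x y : K} (hx : GG p t x) (hy : GG p t y) : GG p t (x - y) := by
  obtain ⟨d, hd⟩ := hx
  obtain ⟨d', hd'⟩ := hy
  refine ⟨d - d', ?_⟩
  have h := ZS_sub _ _ _ hd hd'
  rw [sub_pow_char]
  convert h using 1
  ring

theorem GG_zero : GG p t (0 : K) := ⟨0, by simpa [hp.out.ne_zero] using ZS_zero (K := K) (p - 1)⟩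

theorem GG_neg {x : K} (hx : GG p t x) : GG p t (-x) := by
  have := GG_sub (GG_zero (K := K) (p := p) (t := t)) hx
  simpa using this

theorem GG_add {x y : K} (hx : GG p t x) (hy : GG p t y) : GG p t (x + y) := by
  have := GG_sub hx (GG_neg hy)
  simpa using this

theorem GG_frob (y : K) : GG p t (y ^ p - y) := ⟨y, by simpa using ZS_zero (K := K) (p - 1)⟩

theorem GG_mono {i : ℕ} (h0 : 0 < i) (hi : i < p) (y : K) : GG p t (t ^ i * y ^ p) :=
  ⟨0, by simpa [hp.out.ne_zero] using ZS_mono (p - 1) i y h0 (by omega)⟩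

theorem GG_pow {z : K} (hz : GG p t z) : GG p t (z ^ p) := by
  have := GG_add (GG_frob (p := p) (t := t) z) hz
  simpa using this

theorem GG_sum {ι : Type*} (s : Finset ι) (f : ι → K) (h : ∀ i ∈ s, GG p t (f i)) :
    GG p t (∑ i ∈ s, f i) := by
  classical
  induction s using Finset.induction_on with
  | empty => simpa using GG_zero
  | insert a s ha ih =>
    rw [Finset.sum_insert ha]
    exact GG_add (h a (Finset.mem_insert_self a s))
      (ih fun i hi => h i (Finset.mem_insert_of_mem hi))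

theorem GG_key (ht : t ≠ 0) (N : ℕ) : ∀ (m : ℤ) (y : K), ¬ ((p ^ N : ℕ) : ℤ) ∣ m →
    GG p t (t ^ m * y ^ (p ^ N)) := by
  have hp0 : (0 : ℤ) < p := by exact_mod_cast hp.out.pos
  induction N with
  | zero => intro m y h; simp at h
  | succ N ih =>
    intro m y h
    by_cases hpm : (p : ℤ) ∣ m
    · obtain ⟨m', rfl⟩ := hpm
      have h1 : ¬ ((p ^ N : ℕ) : ℤ) ∣ m' := by
        intro h2
        apply h
        rw [pow_succ', Nat.cast_mul]
        exact mul_dvd_mul_left _ h2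
      have h3 := GG_pow (ih m' y h1)
      convert h3 using 1
      rw [mul_pow, ← pow_mul, ← pow_succ, ← zpow_natCast (t ^ m') p, ← zpow_mul,
        mul_comm (p : ℤ) m']
    · have h1 : m % p + p * (m / p) = m := Int.emod_add_mul_ediv m p
      have h2 : 0 ≤ m % p := Int.emod_nonneg _ hp0.ne'
      have h3 : m % p < p := Int.emod_lt_of_pos _ hp0
      have h4 : m % p ≠ 0 := fun h5 => hpm (Int.dvd_of_emod_eq_zero h5)
      obtain ⟨r, hr⟩ := Int.eq_ofNat_of_zero_le h2
      have h6 := GG_mono (p := p) (t := t) (i := r) (by omega) (by omega)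
        (t ^ (m / p) * y ^ (p ^ N))
      convert h6 using 1
      rw [mul_pow, ← pow_mul, ← pow_succ, ← mul_assoc]
      congr 1
      rw [← zpow_natCast (t ^ (m / p)) p, ← zpow_mul, ← zpow_natCast t r, ← zpow_add₀ ht]
      congr 1
      rw [← hr]
      linarith [h1, mul_comm (p : ℤ) (m / p)]

theorem GG_zpow (ht : t ≠ 0) {m : ℤ} (hm : m ≠ 0) : GG p t (t ^ m) := by
  have h := GG_key (p := p) ht m.natAbs m (1 : K) ?_
  · simpa using h
  · intro h
    have h1 : ((p ^ m.natAbs : ℕ) : ℤ).natAbs ≤ m.natAbs := Int.natAbs_le_of_dvd_ne_zero h hm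
    have h2 := Nat.lt_pow_self (n := m.natAbs) hp.out.one_lt
    omega

variable (ht : Good p t)
include ht

theorem Good.zpow_ne {m : ℤ} (hm : m ≠ 0) : t ^ m ≠ 1 := fun h =>
  ht.2 (h ▸ GG_zpow ht.1 hm)

theorem Good.pow_inj {m n : ℕ} (h : t ^ m = t ^ n) : m = n := by
  by_contra hne
  refine ht.zpow_ne (m := (m : ℤ) - n) (by omega) ?_
  rw [zpow_sub₀ ht.1, zpow_natCast, zpow_natCast, h]
  exact div_self (pow_ne_zero _ ht.1)

theorem Good.EE_one {N : ℕ} {a b : K} : EE p t N a b 1 ↔ a = b ^ (p ^ N) := by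
  constructor
  · rintro ⟨n, _, h1, rfl⟩
    have : n = 0 := ht.pow_inj (n := 0) (by rw [pow_zero]; exact h1.symm)
    subst this
    simp
  · rintro rfl
    exact ⟨0, Nat.pow_pos hp.out.pos, by simp, by simp⟩

omit ht hp [CharP K p] in
theorem EE_self {N : ℕ} {s : K} : EE p t N s 1 s ↔ ∃ n < p ^ N, s = t ^ n := by
  simp [EE]

theorem Good.EE_self_pow {N n : ℕ} : EE p t N (t ^ n) 1 (t ^ n) ↔ n < p ^ N := by
  rw [EE_self]
  constructor
  · rintro ⟨m, hm, h⟩
    rwa [ht.pow_inj h]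
  · intro h
    exact ⟨n, h, rfl⟩

theorem Good.dec_iff {N : ℕ} {A s u : K} :
    Dec p t N A s u ↔ ∀ w, GG p t ((s * A - u ^ (p ^ N)) * w ^ (p ^ N)) := by
  unfold Dec
  constructor
  · intro h w
    exact h w _ _ (ht.EE_one.2 rfl) (ht.EE_one.2 rfl)
  · intro h w w' u' h1 h2
    rw [ht.EE_one.1 h1, ht.EE_one.1 h2]
    exact h w

theorem Good.dec_unique {N : ℕ} {A s u u' : K} (h : Dec p t N A s u) (h' : Dec p t N A s u') :
    u = u' := by
  rw [ht.dec_iff] at h h'
  by_contra hne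
  have h0 : u - u' ≠ 0 := sub_ne_zero.2 hne
  have h1 := GG_sub (h' ((u - u')⁻¹)) (h ((u - u')⁻¹))
  apply ht.2
  convert h1 using 1
  rw [← sub_mul]
  have h2 : s * A - u' ^ p ^ N - (s * A - u ^ p ^ N) = (u - u') ^ p ^ N := by
    rw [sub_pow_char_pow]
    ring
  rw [h2, ← mul_pow, mul_inv_cancel₀ h0, one_pow]

/-- the code of a sequence -/
theorem Good.exists_code (N : ℕ) (f : ℕ → K) :
    ∃ A, ∀ j < p ^ N, Dec p t N A (t ^ j) (f j) := by
  refine ⟨∑ i ∈ Finset.range (p ^ N), t ^ (-(i : ℤ)) * f i ^ (p ^ N), fun j hj => ?_⟩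
  rw [ht.dec_iff]
  intro w
  have h1 : (t ^ j * ∑ i ∈ Finset.range (p ^ N), t ^ (-(i : ℤ)) * f i ^ (p ^ N) - f j ^ p ^ N) *
      w ^ p ^ N = ∑ i ∈ (Finset.range (p ^ N)).erase j,
        t ^ ((j : ℤ) - i) * (f i * w) ^ (p ^ N) := by
    rw [← Finset.add_sum_erase _ _ (Finset.mem_range.2 hj), mul_add, ← mul_assoc,
      ← zpow_natCast t j, ← zpow_add₀ ht.1, add_neg_cancel, zpow_zero, one_mul, add_sub_cancel_left,
      Finset.mul_sum, Finset.sum_mul]
    refine Finset.sum_congr rfl fun i _ => ?_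
    rw [mul_pow, sub_eq_add_neg, zpow_add₀ ht.1]
    ring
  rw [h1]
  refine GG_sum _ _ fun i hi => GG_key ht.1 N _ _ ?_
  rw [Finset.mem_erase, Finset.mem_range] at hi
  intro h
  have h2 : ((p ^ N : ℕ) : ℤ).natAbs ≤ ((j : ℤ) - i).natAbs :=
    Int.natAbs_le_of_dvd_ne_zero h (by omega)
  omega

theorem Good.EE_tow (N : ℕ) (a b c : K) : EE p t (p ^ N) a b c ↔ Tow p t N a b c := by
  set L := p ^ N with hL
  have hL0 : 0 < L := Nat.pow_pos hp.out.pos
  constructor
  · rintro ⟨n, hn, hc, ha⟩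
    obtain ⟨A, hA⟩ := ht.exists_code N (fun j => t ^ (n / p ^ j) * b ^ (p ^ (L - j)))
    obtain ⟨C, hC⟩ := ht.exists_code N (fun j => t ^ (n / p ^ j))
    have key : ∀ j, j < L → ∀ b' : K, Step p t (t ^ (n / p ^ j) * b' ^ (p ^ (L - j)))
        (t ^ (n / p ^ j)) (t ^ (n / p ^ (j + 1)) * b' ^ (p ^ (L - (j + 1))))
        (t ^ (n / p ^ (j + 1))) := by
      intro j hj b'
      have h2 : n / p ^ j % p + n / p ^ (j + 1) * p = n / p ^ j := by
        rw [pow_succ, ← Nat.div_div_eq_div_mul]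
        exact Nat.mod_add_div' _ p
      refine ⟨n / p ^ j % p, Nat.mod_lt _ hp.out.pos, ?_, ?_⟩
      · rw [mul_pow, ← pow_mul, ← pow_mul, ← mul_assoc, ← pow_add, h2, ← pow_succ]
        congr 2
        congr 1
        omega
      · rw [← pow_mul, ← pow_add, h2]
    refine ⟨A, C, ?_, ?_, ?_⟩
    · have := hA 0 hL0
      simpa [ha] using this
    · have := hC 0 hL0
      simpa [hc] using this
    · intro s hs
      obtain ⟨j, hj, rfl⟩ := EE_self.1 hs
      refine ⟨fun h => ?_, fun h => ?_⟩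
      · rw [← pow_succ', ht.EE_self_pow] at h
        refine ⟨_, _, _, _, hA j hj, hC j hj, ?_, ?_, key j hj b⟩
        · rw [← pow_succ']
          exact hA (j + 1) h
        · rw [← pow_succ']
          exact hC (j + 1) h
      · rw [← pow_succ', ht.EE_self_pow] at h
        have hjL : j + 1 = L := by omega
        refine ⟨_, _, hA j hj, hC j hj, ?_⟩
        have h1 := key j hj b
        rw [hjL] at h1
        have h2 : n / p ^ L = 0 := Nat.div_eq_of_lt hn
        simpa [h2] using h1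
  · rintro ⟨A, C, hA0, hC0, hs⟩
    have key : ∀ d j, j + d + 1 = L → ∀ u v, Dec p t N A (t ^ j) u → Dec p t N C (t ^ j) v →
        EE p t (d + 1) u b v := by
      intro d
      induction d with
      | zero =>
        intro j hj u v hu hv
        obtain ⟨h1, h2⟩ := hs (t ^ j) (ht.EE_self_pow.2 (by omega))
        obtain ⟨u', v', hu', hv', hst⟩ := h2 (by rw [← pow_succ', ht.EE_self_pow]; omega)
        rw [ht.dec_unique hu hu', ht.dec_unique hv hv', EE_succ]
        exact ⟨b, 1, hst, by simp [EE_zero]⟩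
      | succ d ih =>
        intro j hj u v hu hv
        obtain ⟨h1, h2⟩ := hs (t ^ j) (ht.EE_self_pow.2 (by omega))
        obtain ⟨u', v', u₁, v₁, hu', hv', hu₁, hv₁, hst⟩ :=
          h1 (by rw [← pow_succ', ht.EE_self_pow]; omega)
        rw [ht.dec_unique hu hu', ht.dec_unique hv hv', EE_succ]
        rw [← pow_succ'] at hu₁ hv₁
        exact ⟨u₁, v₁, hst, ih (j + 1) (by omega) _ _ hu₁ hv₁⟩
    have h := key (L - 1) 0 (by omega) a c (by simpa using hA0) (by simpa using hC0)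
    rwa [Nat.sub_add_cancel hL0] at h

/-! ### two-dimensional arrays of bits -/

theorem Good.bit_iff {N : ℕ} {x s r : K} :
    Bit p t N x s r ↔ GG p t (x * s * r ^ (p ^ N) - 1) := by
  unfold Bit
  constructor
  · rintro ⟨r', h1, h2⟩
    rwa [ht.EE_one.1 h1] at h2
  · intro h
    exact ⟨_, ht.EE_one.2 rfl, h⟩

theorem Good.exists_array (N : ℕ) (B : ℕ → ℕ → Prop) :
    ∃ x : K, ∀ i < p ^ N, ∀ j < p ^ N, (Bit p t N x (t ^ i) (t ^ j) ↔ B i j) := by
  classical
  set L := p ^ N with hL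
  set S : Finset (ℕ × ℕ) := (Finset.range L ×ˢ Finset.range L).filter (fun q => B q.1 q.2)
  refine ⟨∑ q ∈ S, t ^ (-((q.1 : ℤ) + L * q.2)), fun i hi j hj => ?_⟩
  rw [ht.bit_iff]
  have h1 : (∑ q ∈ S, t ^ (-((q.1 : ℤ) + L * q.2))) * t ^ i * (t ^ j) ^ (p ^ N) =
      ∑ q ∈ S, t ^ (((i : ℤ) + L * j) - ((q.1 : ℤ) + L * q.2)) := by
    rw [Finset.sum_mul, Finset.sum_mul]
    refine Finset.sum_congr rfl fun q _ => ?_
    rw [← pow_mul, ← zpow_natCast t i, ← zpow_natCast t (j * p ^ N), ← zpow_add₀ ht.1,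
      ← zpow_add₀ ht.1]
    congr 1
    rw [← hL]
    push_cast
    ring
  rw [h1]
  have h2 : ∀ q ∈ S, q ≠ (i, j) →
      GG p t (t ^ (((i : ℤ) + L * j) - ((q.1 : ℤ) + L * q.2))) := by
    intro q hq hne
    apply GG_zpow ht.1
    intro h0
    simp only [S, Finset.mem_filter, Finset.mem_product, Finset.mem_range] at hq
    have h3 : i + L * j = q.1 + L * q.2 := by
      have : (i : ℤ) + L * j = q.1 + L * q.2 := by linarith
      exact_mod_cast this
    have h4 : j = q.2 := by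
      have e1 : (i + L * j) / L = j := by
        rw [Nat.add_mul_div_left _ _ (by omega), Nat.div_eq_of_lt hi, zero_add]
      have e2 : (q.1 + L * q.2) / L = q.2 := by
        rw [Nat.add_mul_div_left _ _ (by omega), Nat.div_eq_of_lt hq.1.1, zero_add]
      rw [← e1, ← e2, h3]
    have h5 : i = q.1 := by
      subst h4
      omega
    exact hne (Prod.ext h5.symm h4.symm)
  by_cases hB : B i j
  · have hmem : (i, j) ∈ S := by
      simp only [S, Finset.mem_filter, Finset.mem_product, Finset.mem_range]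
      exact ⟨⟨hi, hj⟩, hB⟩
    rw [← Finset.add_sum_erase _ _ hmem]
    simp only [sub_self, zpow_zero, add_sub_cancel_left, hB, iff_true]
    exact GG_sum _ _ fun q hq => h2 q (Finset.mem_of_mem_erase hq) (Finset.ne_of_mem_erase hq)
  · simp only [hB, iff_false]
    intro h3
    have h4 : GG p t (∑ q ∈ S, t ^ (((i : ℤ) + L * j) - ((q.1 : ℤ) + L * q.2))) := by
      refine GG_sum _ _ fun q hq => h2 q hq ?_
      rintro rfl
      simp only [S, Finset.mem_filter] at hq
      exact hB hq.2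
    apply ht.2
    have := GG_sub h4 h3
    simpa using this

end

end Pool.Agent.H64R2.VF
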