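import Pool.Agent.H64R2.VF.MainF

/-!
# The main sentence has no free variables
-/

namespace Pool.Agent.H64R2.VF

open Pool.Agent.NPC Pool.Agent.NPC.CL Turing

/-- the variables of the term satisfy `S` -/
def Tm.Clo (S : ℕ → Prop) (s : Tm) : Prop := ∀ v ∈ s.vars, S v

/-- the free variables of the formula satisfy `S` -/
def Fm.Clo (S : ℕ → Prop) (φ : Fm) : Prop := ∀ v ∈ φ.free, S v

section
variable {S S' : ℕ → Prop}

theorem Tm.Clo.mono {s : Tm} (h : s.Clo S) (hS : ∀ v, S v → S' v) : s.Clo S' :=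
  fun v hv => hS v (h v hv)

theorem Fm.Clo.mono {φ : Fm} (h : φ.Clo S) (hS : ∀ v, S v → S' v) : φ.Clo S' :=
  fun v hv => hS v (h v hv)

theorem clo_var {i : ℕ} (h : S i) : (Tm.var i).Clo S := by
  intro v hv
  simp only [Tm.vars, Finset.mem_singleton] at hv
  exact hv ▸ h

theorem clo_one : Tm.one.Clo S := by intro v hv; simp [Tm.vars] at hv

theorem clo_zero : Tm.zero.Clo S := by intro v hv; simp [Tm.vars] at hv

theorem clo_addT {s t : Tm} (hs : s.Clo S) (ht : t.Clo S) : (Tm.add s t).Clo S := by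
  intro v hv
  simp only [Tm.vars, Finset.mem_union] at hv
  exact hv.elim (hs v) (ht v)

theorem clo_mulT {s t : Tm} (hs : s.Clo S) (ht : t.Clo S) : (Tm.mul s t).Clo S := by
  intro v hv
  simp only [Tm.vars, Finset.mem_union] at hv
  exact hv.elim (hs v) (ht v)

theorem clo_negT {s : Tm} (hs : s.Clo S) : (Tm.neg s).Clo S := hs

theorem clo_subT {s t : Tm} (hs : s.Clo S) (ht : t.Clo S) : (s.sub t).Clo S :=
  clo_addT hs (clo_negT ht)

theorem clo_powT {s : Tm} (hs : s.Clo S) (n : ℕ) : (s.pow n).Clo S := by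
  induction n with
  | zero => exact clo_one
  | succ n ih => exact clo_mulT ih hs

theorem clo_eqF {s t : Tm} (hs : s.Clo S) (ht : t.Clo S) : (Fm.eq s t).Clo S := by
  intro v hv
  simp only [Fm.free, Finset.mem_union] at hv
  exact hv.elim (hs v) (ht v)

theorem clo_notF {φ : Fm} (h : φ.Clo S) : (Fm.not φ).Clo S := h

theorem clo_andF {φ ψ : Fm} (h : φ.Clo S) (h' : ψ.Clo S) : (Fm.and φ ψ).Clo S := by
  intro v hv
  simp only [Fm.free, Finset.mem_union] at hv
  exact hv.elim (h v) (h' v)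

theorem clo_orF {φ ψ : Fm} (h : φ.Clo S) (h' : ψ.Clo S) : (Fm.or φ ψ).Clo S := by
  intro v hv
  simp only [Fm.free, Finset.mem_union] at hv
  exact hv.elim (h v) (h' v)

theorem clo_impF {φ ψ : Fm} (h : φ.Clo S) (h' : ψ.Clo S) : (Fm.imp φ ψ).Clo S :=
  clo_orF (clo_notF h) h'

theorem clo_exF {i : ℕ} {φ : Fm} (h : φ.Clo (fun v => S v ∨ v = i)) : (Fm.ex i φ).Clo S := by
  intro v hv
  simp only [Fm.free, Finset.mem_erase] at hv
  rcases h v hv.2 with h1 | h1
  · exact h1
  · exact absurd h1 hv.1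

theorem clo_allF {i : ℕ} {φ : Fm} (h : φ.Clo (fun v => S v ∨ v = i)) : (Fm.all i φ).Clo S :=
  clo_exF h

theorem clo_andL {l : List Fm} (h : ∀ φ ∈ l, φ.Clo S) : (andL l).Clo S := by
  induction l with
  | nil => exact clo_eqF clo_zero clo_zero
  | cons φ l ih =>
    exact clo_andF (h φ List.mem_cons_self) (ih fun ψ hψ => h ψ (List.mem_cons_of_mem _ hψ))

theorem clo_orN {n : ℕ} {φ : ℕ → Fm} (h : ∀ i, (φ i).Clo S) : (orN n φ).Clo S := by
  induction n with
  | zero => exact clo_eqF clo_zero clo_one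
  | succ n ih => exact clo_orF ih (h n)

end

section
variable (p : ℕ)

theorem clo_zsF (j : ℕ) : ∀ {S : ℕ → Prop} {s : Tm} {f : ℕ}, S 0 → s.Clo S →
    (zsF p j s f).Clo S := by
  induction j with
  | zero => intro S s f h0 hs; exact clo_eqF hs clo_zero
  | succ j ih =>
    intro S s f h0 hs
    refine clo_exF (clo_exF (clo_andF (clo_eqF (hs.mono fun v hv => Or.inl (Or.inl hv))
      (clo_mulT (clo_var (Or.inl (Or.inl h0))) (clo_addT (clo_powT (clo_var (Or.inl (Or.inr rfl)))
        _) (clo_var (Or.inr rfl))))) (ih (Or.inl (Or.inl h0)) (clo_var (Or.inr rfl)))))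

theorem clo_ggF {S : ℕ → Prop} {s : Tm} {f : ℕ} (h0 : S 0) (hs : s.Clo S) : (ggF p s f).Clo S :=
  clo_exF (clo_zsF p _ (Or.inl h0) (clo_subT (hs.mono fun _ hv => Or.inl hv)
    (clo_subT (clo_powT (clo_var (Or.inr rfl)) _) (clo_var (Or.inr rfl)))))

theorem clo_stepF {S : ℕ → Prop} {u v u₁ v₁ : Tm} (h0 : S 0) (hu : u.Clo S) (hv : v.Clo S)
    (hu₁ : u₁.Clo S) (hv₁ : v₁.Clo S) : (stepF p u v u₁ v₁).Clo S :=
  clo_orN fun _ => clo_andF (clo_eqF hu (clo_mulT (clo_powT (clo_var h0) _) (clo_powT hu₁ _)))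
    (clo_eqF hv (clo_mulT (clo_powT (clo_var h0) _) (clo_powT hv₁ _)))

theorem clo_euV (m : ℕ) : ∀ {S : ℕ → Prop} {g : ℕ} {b : Tm}, S 0 → S g → S (g + 1) → b.Clo S →
    (euV p m g b).Clo S := by
  induction m with
  | zero =>
    intro S g b h0 hg hg1 hb
    exact clo_andF (clo_eqF (clo_var hg1) clo_one) (clo_eqF (clo_var hg) hb)
  | succ m ih =>
    intro S g b h0 hg hg1 hb
    refine clo_exF (clo_exF (clo_andF (clo_stepF p (Or.inl (Or.inl h0))
      (clo_var (Or.inl (Or.inl hg))) (clo_var (Or.inl (Or.inl hg1)))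
      (clo_var (Or.inl (Or.inr rfl))) (clo_var (Or.inr rfl)))
      (ih (Or.inl (Or.inl h0)) (Or.inl (Or.inr rfl)) (Or.inr rfl)
        (hb.mono fun _ hv => Or.inl (Or.inl hv)))))

/-- closed constructions -/
def CloE (E : Gen) : Prop := ∀ (S : ℕ → Prop) (a b c : Tm) (f : ℕ), S 0 → a.Clo S → b.Clo S →
  c.Clo S → (E a b c f).Clo S

theorem cloE_euF (m : ℕ) : CloE (euF p m) := by
  intro S a b c f h0 ha hb hc
  have w : ∀ {s : Tm}, s.Clo S → s.Clo (fun v => (S v ∨ v = f) ∨ v = f + 1) :=
    fun h => h.mono fun _ hv => Or.inl (Or.inl hv)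
  exact clo_exF (clo_exF (clo_andF (clo_eqF (clo_var (Or.inl (Or.inr rfl))) (w ha))
    (clo_andF (clo_eqF (clo_var (Or.inr rfl)) (w hc))
      (clo_euV p m (Or.inl (Or.inl h0)) (Or.inl (Or.inr rfl)) (Or.inr rfl) (w hb)))))

variable {E : Gen} (hE : CloE E)

include hE in
theorem clo_decF {S : ℕ → Prop} {A s u : Tm} {f : ℕ} (h0 : S 0) (hA : A.Clo S) (hs : s.Clo S)
    (hu : u.Clo S) : (decF p E A s u f).Clo S := by
  have w : ∀ {s : Tm}, s.Clo S → s.Clo (fun v => ((S v ∨ v = f) ∨ v = f + 1) ∨ v = f + 2) :=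
    fun h => h.mono fun _ hv => Or.inl (Or.inl (Or.inl hv))
  have w0 : (fun v => ((S v ∨ v = f) ∨ v = f + 1) ∨ v = f + 2) 0 := Or.inl (Or.inl (Or.inl h0))
  exact clo_allF (clo_allF (clo_allF (clo_impF
    (hE _ _ _ _ _ w0 (clo_var (Or.inl (Or.inr rfl))) (clo_var (Or.inl (Or.inl (Or.inr rfl))))
      clo_one)
    (clo_impF (hE _ _ _ _ _ w0 (clo_var (Or.inr rfl)) (w hu) clo_one)
      (clo_ggF p w0 (clo_mulT (clo_subT (clo_mulT (w hs) (w hA)) (clo_var (Or.inr rfl)))
        (clo_var (Or.inl (Or.inr rfl)))))))))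

include hE in
theorem clo_bitF {S : ℕ → Prop} {X s r : Tm} {f : ℕ} (h0 : S 0) (hX : X.Clo S) (hs : s.Clo S)
    (hr : r.Clo S) : (bitF p E X s r f).Clo S := by
  have w : ∀ {s : Tm}, s.Clo S → s.Clo (fun v => S v ∨ v = f) :=
    fun h => h.mono fun _ hv => Or.inl hv
  exact clo_exF (clo_andF (hE _ _ _ _ _ (Or.inl h0) (clo_var (Or.inr rfl)) (w hr) clo_one)
    (clo_ggF p (Or.inl h0) (clo_subT (clo_mulT (clo_mulT (w hX) (w hs)) (clo_var (Or.inr rfl)))
      clo_one)))

include hE in
theorem cloE_towF : CloE (towF p E) := by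
  intro S a b c f h0 ha hb hc
  unfold towF
  refine clo_exF (clo_exF (clo_andF ?_ (clo_andF ?_ (clo_allF (clo_impF ?_ (clo_andF
    (clo_impF ?_ (clo_exF (clo_exF (clo_exF (clo_exF (clo_andF ?_ (clo_andF ?_ (clo_andF ?_
      (clo_andF ?_ ?_)))))))))
    (clo_impF ?_ (clo_exF (clo_exF (clo_andF ?_ (clo_andF ?_ ?_)))))))))))
  · exact clo_decF p hE (by simp [h0]) (clo_var (by simp)) clo_one (ha.mono fun v hv => by simp [hv])
  · exact clo_decF p hE (by simp [h0]) (clo_var (by simp)) clo_one (hc.mono fun v hv => by simp [hv])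
  · exact hE _ _ _ _ _ (by simp [h0]) (clo_var (by simp)) clo_one (clo_var (by simp))
  · have h1 : ((Tm.var 0).mul (Tm.var (f + 2))).Clo (fun v => ((S v ∨ v = f) ∨ v = f + 1) ∨
        v = f + 2) := clo_mulT (clo_var (by simp [h0])) (clo_var (by simp))
    exact hE _ _ _ _ _ (by simp [h0]) h1 clo_one h1
  · exact clo_decF p hE (by simp [h0]) (clo_var (by simp)) (clo_var (by simp)) (clo_var (by simp))
  · exact clo_decF p hE (by simp [h0]) (clo_var (by simp)) (clo_var (by simp)) (clo_var (by simp))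
  · exact clo_decF p hE (by simp [h0]) (clo_var (by simp))
      (clo_mulT (clo_var (by simp [h0])) (clo_var (by simp))) (clo_var (by simp))
  · exact clo_decF p hE (by simp [h0]) (clo_var (by simp))
      (clo_mulT (clo_var (by simp [h0])) (clo_var (by simp))) (clo_var (by simp))
  · exact clo_stepF p (by simp [h0]) (clo_var (by simp)) (clo_var (by simp)) (clo_var (by simp))
      (clo_var (by simp))
  · have h1 : ((Tm.var 0).mul (Tm.var (f + 2))).Clo (fun v => ((S v ∨ v = f) ∨ v = f + 1) ∨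
        v = f + 2) := clo_mulT (clo_var (by simp [h0])) (clo_var (by simp))
    exact clo_notF (hE _ _ _ _ _ (by simp [h0]) h1 clo_one h1)
  · exact clo_decF p hE (by simp [h0]) (clo_var (by simp)) (clo_var (by simp)) (clo_var (by simp))
  · exact clo_decF p hE (by simp [h0]) (clo_var (by simp)) (clo_var (by simp)) (clo_var (by simp))
  · exact clo_stepF p (by simp [h0]) (clo_var (by simp)) (clo_var (by simp))
      (hb.mono fun v hv => by simp [hv]) clo_one

theorem cloE_eF (q k : ℕ) : CloE (eF p q k) := by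
  induction k with
  | zero => exact cloE_euF p q
  | succ k ih => exact cloE_towF p ih

theorem clo_goodF : (goodF p).Clo (fun v => v = 0) :=
  clo_andF (clo_notF (clo_eqF (clo_var rfl) clo_zero)) (clo_notF (clo_ggF p rfl clo_one))

theorem clo_exs (n : ℕ) : ∀ {S : ℕ → Prop} {i : ℕ} {φ : Fm},
    φ.Clo (fun v => S v ∨ (i ≤ v ∧ v < i + n)) → (exs i n φ).Clo S := by
  induction n with
  | zero =>
    intro S i φ h
    exact Fm.Clo.mono h fun v hv => hv.elim id fun h => by omega
  | succ n ih =>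
    intro S i φ h
    refine clo_exF (ih (h.mono fun v hv => ?_))
    rcases hv with hv | hv
    · exact Or.inl (Or.inl hv)
    · by_cases hi : v = i
      · exact Or.inl (Or.inr hi)
      · exact Or.inr ⟨by omega, by omega⟩

variable {Q K A : Type} [DecidableEq K] (D : Tab Q K A) (vi : Fam Q K A → ℕ) (C : ℕ)

include hE in
theorem clo_allS {m : Tm} {v : ℕ} {φ : Fm} (hv : 0 < v) (hm : m.Clo (fun w => w < v + 1))
    (hφ : φ.Clo (fun w => w < v + 1)) : (allS E m v φ).Clo (fun w => w < v) := by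
  have h1 : (Tm.var v).Clo (fun w => w < v + 1) := clo_var (by omega)
  have h2 : (allS E m v φ).Clo (fun w => w < v) := by
    refine clo_allF (Fm.Clo.mono (S := fun w => w < v + 1) ?_ fun w hw => ?_)
    · exact clo_impF (hE _ _ _ _ _ (by omega) h1 clo_one h1)
        (clo_impF (hE _ _ _ _ _ (by omega) (clo_mulT hm h1) clo_one (clo_mulT hm h1)) hφ)
    · have : w < v + 1 := hw
      omega
  exact h2

variable {vi C} (hvi : ∀ z, vi z < C)

omit [DecidableEq K] in
include hE hvi in
theorem clo_bF {z : Fam Q K A} {s r : Tm} {f : ℕ} {g : ℕ} (hg : 1 + C ≤ g)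
    (hs : s.Clo (fun w => w < g)) (hr : r.Clo (fun w => w < g)) :
    (bF vi p E z s r f).Clo (fun w => w < g) := by
  have := hvi z
  exact clo_bitF p hE (by omega) (clo_var (by omega)) hs hr

omit [DecidableEq K] in
include hE hvi in
theorem clo_concF {q : Q} {o : Option A} {s h nh : Tm} {f g : ℕ} (hg : 1 + C ≤ g)
    (hs : s.Clo (fun w => w < g)) (hh : h.Clo (fun w => w < g)) (hnh : nh.Clo (fun w => w < g)) :
    (concF D vi p E q o s h nh f).Clo (fun w => w < g) := by
  unfold concF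
  refine clo_andF (clo_bF p hE hvi hg hs clo_one) (clo_andF (clo_bF p hE hvi hg hs hnh) ?_)
  cases (D.M.δ q o).2 with
  | keep => exact clo_eqF clo_zero clo_zero
  | pop => exact clo_eqF clo_zero clo_zero
  | push a => exact clo_bF p hE hvi hg hs hh

theorem clo_T0 {g : ℕ} (hg : 0 < g) : T0.Clo (fun w => w < g) := clo_var hg

theorem clo_vv {g i : ℕ} (hg : i < g) : (Tm.var i).Clo (fun w => w < g) := clo_var hg

include hE hvi in
theorem clo_initF (y : List Bool) : (initF D vi C p E y).Clo (fun w => w < 2 + C) := by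
  unfold initF
  refine clo_andF (clo_bF p hE hvi (by omega) clo_one clo_one) (clo_andF
    (clo_andL ?_) (clo_andL ?_))
  · intro φ hφ
    simp only [List.mem_map] at hφ
    obtain ⟨k, _, rfl⟩ := hφ
    refine clo_bF p hE hvi (by omega) clo_one ?_
    split_ifs
    · exact clo_powT (clo_T0 (by omega)) _
    · exact clo_one
  · intro φ hφ
    simp only [List.mem_map] at hφ
    obtain ⟨k, _, rfl⟩ := hφ
    exact clo_bF p hE hvi (by omega) clo_one (clo_powT (clo_T0 (by omega)) _)

include hE hvi in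
theorem clo_transF : (transF D vi C p E).Clo (fun w => w < 2 + C) := by
  unfold transF
  refine clo_allS hE (by omega) (clo_T0 (by omega)) (Fm.Clo.mono (S := fun w => w < 3 + C) ?_
    fun w hw => by omega)
  refine clo_andF (clo_andL ?_) (clo_andF (clo_allS hE (by omega) (clo_mulT (clo_T0 (by omega))
    (clo_T0 (by omega))) (Fm.Clo.mono (S := fun w => w < 4 + C) (clo_andL ?_)
    fun w hw => by omega)) (clo_andF (clo_allS hE (by omega) (clo_T0 (by omega))
    (Fm.Clo.mono (S := fun w => w < 4 + C) (clo_andL ?_) fun w hw => by omega))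
    (clo_allS hE (by omega) clo_one (Fm.Clo.mono (S := fun w => w < 4 + C)
      (clo_allS hE (by omega) (clo_vv (by omega)) (Fm.Clo.mono (S := fun w => w < 5 + C)
        (clo_impF (clo_notF (clo_eqF (clo_vv (by omega)) clo_one)) (clo_andL ?_))
        fun w hw => by omega)) fun w hw => by omega))))
  · intro φ hφ
    simp only [List.mem_map] at hφ
    obtain ⟨q, _, rfl⟩ := hφ
    have hT := clo_T0 (g := 3 + C) (by omega)
    have hv : (Tm.var (2 + C)).Clo (fun w => w < 3 + C) := clo_vv (by omega)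
    refine clo_impF (clo_bF p hE hvi (by omega) hv clo_one) (clo_impF
      (clo_bF p hE hvi (by omega) hv clo_one)
      (clo_concF p hE D hvi (by omega) (clo_mulT hT hv) clo_one ?_))
    unfold nh0
    cases (D.M.δ q none).2 with
    | keep => exact clo_one
    | pop => exact clo_one
    | push a => exact hT
  · intro φ hφ
    simp only [List.mem_flatMap, List.mem_map] at hφ
    obtain ⟨q, _, o, _, rfl⟩ := hφ
    have hT := clo_T0 (g := 4 + C) (by omega)
    have hv : (Tm.var (2 + C)).Clo (fun w => w < 4 + C) := clo_vv (by omega)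
    have hw : (Tm.var (3 + C)).Clo (fun w => w < 4 + C) := clo_vv (by omega)
    refine clo_impF (clo_bF p hE hvi (by omega) hv clo_one) (clo_impF
      (clo_bF p hE hvi (by omega) hv (clo_mulT hT hw)) (clo_impF
      (clo_bF p hE hvi (by omega) hv hw)
      (clo_concF p hE D hvi (by omega) (clo_mulT hT hv) (clo_mulT hT hw) ?_)))
    unfold nh1
    cases (D.M.δ q o).2 with
    | keep => exact clo_mulT hT hw
    | pop =>
      cases o with
      | none => exact clo_mulT hT hw
      | some _ => exact hw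
    | push a => exact clo_mulT hT (clo_mulT hT hw)
  · intro φ hφ
    simp only [List.mem_flatMap, List.mem_map] at hφ
    obtain ⟨q, _, o, _, rfl⟩ := hφ
    have hT := clo_T0 (g := 4 + C) (by omega)
    have hv : (Tm.var (2 + C)).Clo (fun w => w < 4 + C) := clo_vv (by omega)
    have hw : (Tm.var (3 + C)).Clo (fun w => w < 4 + C) := clo_vv (by omega)
    exact clo_impF (clo_bF p hE hvi (by omega) hv clo_one) (clo_impF
      (clo_bF p hE hvi (by omega) hv hw) (clo_bF p hE hvi (by omega) (clo_mulT hT hv) hw))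
  · intro φ hφ
    simp only [List.mem_flatMap, List.mem_map] at hφ
    obtain ⟨q, _, o, _, rfl⟩ := hφ
    have hT := clo_T0 (g := 5 + C) (by omega)
    have hv : (Tm.var (2 + C)).Clo (fun w => w < 5 + C) := clo_vv (by omega)
    have hw : (Tm.var (3 + C)).Clo (fun w => w < 5 + C) := clo_vv (by omega)
    have hw' : (Tm.var (4 + C)).Clo (fun w => w < 5 + C) := clo_vv (by omega)
    exact clo_impF (clo_bF p hE hvi (by omega) hv (clo_mulT hw' hw)) (clo_impF
      (clo_bF p hE hvi (by omega) hv hw) (clo_bF p hE hvi (by omega) (clo_mulT hT hv) hw))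

include hE hvi in
theorem clo_finF : (finF D vi C p E).Clo (fun w => w < 2 + C) := by
  unfold finF
  have hT := clo_T0 (g := 3 + C) (by omega)
  have hu : (Tm.var (1 + C)).Clo (fun w => w < 3 + C) := clo_vv (by omega)
  have hu' : (Tm.var (1 + C)).Clo (fun w => w < 2 + C) := clo_vv (by omega)
  have hv : (Tm.var (2 + C)).Clo (fun w => w < 3 + C) := clo_vv (by omega)
  refine clo_andF (clo_andL ?_) (clo_andF (clo_notF (clo_bF p hE hvi (by omega) hu' clo_one))
    (clo_andF (clo_allS hE (by omega) (clo_T0 (by omega)) (Fm.Clo.mono (S := fun w => w < 3 + C)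
      (clo_andL ?_) fun w hw => by omega)) (clo_allS hE (by omega) (clo_mulT (clo_T0 (by omega))
      (clo_T0 (by omega))) (Fm.Clo.mono (S := fun w => w < 3 + C) (clo_andL ?_)
      fun w hw => by omega))))
  · intro φ hφ
    simp only [List.mem_map] at hφ
    obtain ⟨q, _, rfl⟩ := hφ
    exact clo_notF (clo_bF p hE hvi (by omega) hu' clo_one)
  · intro φ hφ
    simp only [List.mem_map] at hφ
    obtain ⟨q, _, rfl⟩ := hφ
    exact clo_notF (clo_andF (clo_bF p hE hvi (by omega) hu (clo_mulT hT hv))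
      (clo_bF p hE hvi (by omega) hu hv))
  · intro φ hφ
    simp only [List.mem_map] at hφ
    obtain ⟨q, _, rfl⟩ := hφ
    exact clo_notF (clo_andF (clo_bF p hE hvi (by omega) hu (clo_mulT hT (clo_mulT hT hv)))
      (clo_bF p hE hvi (by omega) hu hv))

include hE hvi in
theorem clo_mainF (y : List Bool) : (mainF D vi C p E y).Clo (fun _ => False) := by
  refine clo_exF (clo_andF ((clo_goodF p).mono fun v hv => Or.inr hv) (clo_exs _ (clo_exF
    (Fm.Clo.mono (S := fun w => w < 2 + C) ?_ fun w hw => ?_))))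
  · unfold bodyF
    have h1 : (Tm.var (1 + C)).Clo (fun w => w < 2 + C) := clo_vv (by omega)
    have h2 := clo_mulT (clo_powT (clo_T0 (g := 2 + C) (by omega)) (y.length + 3)) h1
    exact clo_andF (hE _ _ _ _ _ (by omega) h1 clo_one h1)
      (clo_andF (hE _ _ _ _ _ (by omega) h2 clo_one h2)
      (clo_andF (clo_initF p hE D hvi y) (clo_andF (clo_transF p hE D hvi)
        (clo_finF p hE D hvi))))
  · have hw' : w < 2 + C := hw
    by_cases h0 : w = 0
    · exact Or.inl (Or.inl (Or.inr h0))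
    · by_cases h1 : w = 1 + C
      · exact Or.inr h1
      · exact Or.inl (Or.inr ⟨by omega, by omega⟩)

include hvi in
theorem free_mainF (q k : ℕ) (y : List Bool) : (mainF D vi C p (eF p q k) y).free = ∅ := by
  rw [Finset.eq_empty_iff_forall_notMem]
  exact clo_mainF p (cloE_eF p q k) D hvi y

end

end Pool.Agent.H64R2.VF
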