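import Pool.Agent.NPC.Defs

/-!
# The theory of the valued field `𝔽_p((t))`: definitions

* `Tm`, `Fm`: terms and first-order formulas of the language of valued fields (the language of
  rings with a unary predicate for the valuation ring).
* `Fm.Holds`: Tarski's definition of truth.
* `Tp p`: the theory of `𝔽_p((t))` with its `t`-adic valuation ring.
* `expTow`, `InElem`: iterated exponentials; languages decidable in elementary time.
-/

namespace Pool.Agent.H64R2.VF

open Pool.Agent.NPC Turing

/-! ### syntax -/

/-- Terms of the language of rings, in the variables `x₀, x₁, …`. -/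
inductive Tm : Type
  | var (i : ℕ) : Tm
  | zero : Tm
  | one : Tm
  | add (s t : Tm) : Tm
  | neg (s : Tm) : Tm
  | mul (s t : Tm) : Tm
  deriving DecidableEq, Inhabited

/-- First-order formulas of the language of valued fields: `val s` says that `s` lies in the
valuation ring. -/
inductive Fm : Type
  | eq (s t : Tm) : Fm
  | val (s : Tm) : Fm
  | not (φ : Fm) : Fm
  | and (φ ψ : Fm) : Fm
  | or (φ ψ : Fm) : Fm
  | all (i : ℕ) (φ : Fm) : Fm
  | ex (i : ℕ) (φ : Fm) : Fm
  deriving DecidableEq, Inhabited

/-- Variables of a term. -/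
def Tm.vars : Tm → Finset ℕ
  | var i => {i}
  | zero => ∅
  | one => ∅
  | add s t => s.vars ∪ t.vars
  | neg s => s.vars
  | mul s t => s.vars ∪ t.vars

/-- Free variables of a formula. -/
def Fm.free : Fm → Finset ℕ
  | eq s t => s.vars ∪ t.vars
  | val s => s.vars
  | not φ => φ.free
  | and φ ψ => φ.free ∪ ψ.free
  | or φ ψ => φ.free ∪ ψ.free
  | all i φ => φ.free.erase i
  | ex i φ => φ.free.erase i

/-! ### semantics -/

section
variable {K : Type} [Field K]

/-- Value of a term. -/
def Tm.eval (x : ℕ → K) : Tm → K
  | var i => x i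
  | zero => 0
  | one => 1
  | add s t => s.eval x + t.eval x
  | neg s => - s.eval x
  | mul s t => s.eval x * t.eval x

/-- Truth of a formula in the field `K` with the subset `O`, under the assignment `x`. -/
def Fm.Holds (O : Set K) : (ℕ → K) → Fm → Prop
  | x, eq s t => s.eval x = t.eval x
  | x, val s => s.eval x ∈ O
  | x, not φ => ¬ φ.Holds O x
  | x, and φ ψ => φ.Holds O x ∧ ψ.Holds O x
  | x, or φ ψ => φ.Holds O x ∨ ψ.Holds O x
  | x, all i φ => ∀ a : K, φ.Holds O (Function.update x i a)
  | x, ex i φ => ∃ a : K, φ.Holds O (Function.update x i a)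

end

/-- The valuation ring `𝔽_p[[t]]` of the `t`-adic valuation of `𝔽_p((t))`. -/
def valRing (p : ℕ) [Fact p.Prime] : Set (LaurentSeries (ZMod p)) :=
  {f | ∀ n : ℤ, n < 0 → f.coeff n = 0}

/-- The theory `T_p` of the valued field `𝔽_p((t))`: the sentences (formulas without free
variables) which are true in it. -/
def Tp (p : ℕ) [Fact p.Prime] (φ : Fm) : Prop :=
  φ.free = ∅ ∧ φ.Holds (valRing p) (fun _ => 0)

/-! ### formulas as bit strings -/

/-- The binary tree coding a term. -/
def Tm.toTree : Tm → T
  | var i => T.node (toT (0 : ℕ)) (toT i)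
  | zero => T.node (toT (1 : ℕ)) T.nil
  | one => T.node (toT (2 : ℕ)) T.nil
  | add s t => T.node (toT (3 : ℕ)) (T.node s.toTree t.toTree)
  | neg s => T.node (toT (4 : ℕ)) s.toTree
  | mul s t => T.node (toT (5 : ℕ)) (T.node s.toTree t.toTree)

/-- The binary tree coding a formula. -/
def Fm.toTree : Fm → T
  | eq s t => T.node (toT (0 : ℕ)) (T.node s.toTree t.toTree)
  | val s => T.node (toT (1 : ℕ)) s.toTree
  | not φ => T.node (toT (2 : ℕ)) φ.toTree
  | and φ ψ => T.node (toT (3 : ℕ)) (T.node φ.toTree ψ.toTree)
  | or φ ψ => T.node (toT (4 : ℕ)) (T.node φ.toTree ψ.toTree)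
  | all i φ => T.node (toT (5 : ℕ)) (T.node (toT i) φ.toTree)
  | ex i φ => T.node (toT (6 : ℕ)) (T.node (toT i) φ.toTree)

theorem Tm.toTree_injective : Function.Injective Tm.toTree := by
  intro a
  induction a with
  | var i =>
    intro b h
    cases b <;> simp only [Tm.toTree, T.node.injEq] at h <;>
      first
      | exact absurd (TEnc.inj h.1) (by decide)
      | exact congrArg Tm.var (TEnc.inj h.2)
  | zero =>
    intro b h
    cases b <;> simp only [Tm.toTree, T.node.injEq] at h <;>
      first
      | exact absurd (TEnc.inj h.1) (by decide)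
      | rfl
  | one =>
    intro b h
    cases b <;> simp only [Tm.toTree, T.node.injEq] at h <;>
      first
      | exact absurd (TEnc.inj h.1) (by decide)
      | rfl
  | add s t ihs iht =>
    intro b h
    cases b <;> simp only [Tm.toTree, T.node.injEq] at h <;>
      first
      | exact absurd (TEnc.inj h.1) (by decide)
      | rw [ihs h.2.1, iht h.2.2]
  | neg s ih =>
    intro b h
    cases b <;> simp only [Tm.toTree, T.node.injEq] at h <;>
      first
      | exact absurd (TEnc.inj h.1) (by decide)
      | rw [ih h.2]
  | mul s t ihs iht =>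
    intro b h
    cases b <;> simp only [Tm.toTree, T.node.injEq] at h <;>
      first
      | exact absurd (TEnc.inj h.1) (by decide)
      | rw [ihs h.2.1, iht h.2.2]

instance : TEnc Tm := ⟨Tm.toTree, Tm.toTree_injective⟩

theorem Fm.toTree_injective : Function.Injective Fm.toTree := by
  intro a
  induction a with
  | eq s t =>
    intro b h
    cases b <;> simp only [Fm.toTree, T.node.injEq] at h <;>
      first
      | exact absurd (TEnc.inj h.1) (by decide)
      | rw [Tm.toTree_injective h.2.1, Tm.toTree_injective h.2.2]
  | val s =>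
    intro b h
    cases b <;> simp only [Fm.toTree, T.node.injEq] at h <;>
      first
      | exact absurd (TEnc.inj h.1) (by decide)
      | rw [Tm.toTree_injective h.2]
  | not φ ih =>
    intro b h
    cases b <;> simp only [Fm.toTree, T.node.injEq] at h <;>
      first
      | exact absurd (TEnc.inj h.1) (by decide)
      | rw [ih h.2]
  | and φ ψ ih1 ih2 =>
    intro b h
    cases b <;> simp only [Fm.toTree, T.node.injEq] at h <;>
      first
      | exact absurd (TEnc.inj h.1) (by decide)
      | rw [ih1 h.2.1, ih2 h.2.2]
  | or φ ψ ih1 ih2 =>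
    intro b h
    cases b <;> simp only [Fm.toTree, T.node.injEq] at h <;>
      first
      | exact absurd (TEnc.inj h.1) (by decide)
      | rw [ih1 h.2.1, ih2 h.2.2]
  | all i φ ih =>
    intro b h
    cases b <;> simp only [Fm.toTree, T.node.injEq] at h <;>
      first
      | exact absurd (TEnc.inj h.1) (by decide)
      | rw [TEnc.inj h.2.1, ih h.2.2]
  | ex i φ ih =>
    intro b h
    cases b <;> simp only [Fm.toTree, T.node.injEq] at h <;>
      first
      | exact absurd (TEnc.inj h.1) (by decide)
      | rw [TEnc.inj h.2.1, ih h.2.2]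

/-- Formulas are coded by binary trees; `bits φ` is the corresponding bit string (the variable
indices are written in binary). -/
instance : TEnc Fm := ⟨Fm.toTree, Fm.toTree_injective⟩

/-! ### elementary time -/

/-- Iterated exponentials: `expTow k n = 2 ^ 2 ^ … ^ 2 ^ n` (`k` times). -/
def expTow : ℕ → ℕ → ℕ
  | 0, n => n
  | k + 1, n => 2 ^ expTow k n

/-- `L` is decidable in elementary time: some Turing machine (in the sense of Mathlib) decides it
in time bounded by an iterated exponential of the length of the input. -/
def InElem (L : Set (List Bool)) : Prop :=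
  ∃ (f : List Bool → List Bool)
    (M : TM2ComputableInTime (id : List Bool → List Bool) (id : List Bool → List Bool) f) (k : ℕ),
    (∀ n, M.time n ≤ expTow k n) ∧ ∀ x, x ∈ L ↔ f x = [true]

end Pool.Agent.H64R2.VF
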