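import Pool.Agent.H64R2.VF.Alg

/-!
# Formulas for the relations of `Alg.lean`

`x₀` is interpreted as `t`. The last argument of the constructions is a number `f` such that the
variables `x_f, x_{f+1}, …` do not occur in the terms given as arguments.
-/

namespace Pool.Agent.H64R2.VF

open Function (update)

/-! ### terms -/

/-- a strict bound for the variables -/
def Tm.bd : Tm → ℕ
  | var i => i + 1
  | zero => 0
  | one => 0
  | add s t => max s.bd t.bd
  | neg s => s.bd
  | mul s t => max s.bd t.bd

/-- powers -/
def Tm.pow (s : Tm) : ℕ → Tm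
  | 0 => .one
  | n + 1 => .mul (Tm.pow s n) s

/-- differences -/
def Tm.sub (s t : Tm) : Tm := .add s (.neg t)

/-- implication -/
def Fm.imp (φ ψ : Fm) : Fm := .or (.not φ) ψ

/-- disjunction of `n` formulas -/
def orN : ℕ → (ℕ → Fm) → Fm
  | 0, _ => .eq .zero .one
  | n + 1, φ => .or (orN n φ) (φ n)

/-- conjunction of a list of formulas -/
def andL : List Fm → Fm
  | [] => .eq .zero .zero
  | φ :: l => .and φ (andL l)

/-- `n` existential quantifiers -/
def exs : ℕ → ℕ → Fm → Fm
  | _, 0, φ => φ
  | i, n + 1, φ => .ex i (exs (i + 1) n φ)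

section
variable {F : Type} [Field F] (O : Set F)

@[simp] theorem eval_var (x : ℕ → F) (i : ℕ) : (Tm.var i).eval x = x i := rfl
@[simp] theorem eval_zero (x : ℕ → F) : Tm.zero.eval x = 0 := rfl
@[simp] theorem eval_one (x : ℕ → F) : Tm.one.eval x = 1 := rfl
@[simp] theorem eval_add (x : ℕ → F) (s t : Tm) : (Tm.add s t).eval x = s.eval x + t.eval x := rfl
@[simp] theorem eval_neg (x : ℕ → F) (s : Tm) : (Tm.neg s).eval x = - s.eval x := rfl
@[simp] theorem eval_mul (x : ℕ → F) (s t : Tm) : (Tm.mul s t).eval x = s.eval x * t.eval x := rfl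

@[simp] theorem eval_pow (x : ℕ → F) (s : Tm) (n : ℕ) : (s.pow n).eval x = s.eval x ^ n := by
  induction n with
  | zero => simp [Tm.pow]
  | succ n ih => simp [Tm.pow, ih, pow_succ]

@[simp] theorem eval_sub (x : ℕ → F) (s t : Tm) : (s.sub t).eval x = s.eval x - t.eval x := by
  simp [Tm.sub, sub_eq_add_neg]

theorem eval_update {s : Tm} {i : ℕ} (h : s.bd ≤ i) (x : ℕ → F) (a : F) :
    s.eval (update x i a) = s.eval x := by
  induction s with
  | var j =>
    simp only [Tm.bd] at h
    simp only [eval_var]
    exact Function.update_of_ne (by omega) _ _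
  | zero => rfl
  | one => rfl
  | add s t ihs iht =>
    simp only [Tm.bd, max_le_iff] at h
    simp [ihs h.1, iht h.2]
  | neg s ih => simp only [Tm.bd] at h; simp [ih h]
  | mul s t ihs iht =>
    simp only [Tm.bd, max_le_iff] at h
    simp [ihs h.1, iht h.2]

@[simp] theorem holds_eq (x : ℕ → F) (s t : Tm) : (Fm.eq s t).Holds O x ↔ s.eval x = t.eval x := Iff.rfl
@[simp] theorem holds_not (x : ℕ → F) (φ : Fm) : (Fm.not φ).Holds O x ↔ ¬ φ.Holds O x := Iff.rfl
@[simp] theorem holds_and (x : ℕ → F) (φ ψ : Fm) :
    (Fm.and φ ψ).Holds O x ↔ φ.Holds O x ∧ ψ.Holds O x := Iff.rfl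
@[simp] theorem holds_or (x : ℕ → F) (φ ψ : Fm) :
    (Fm.or φ ψ).Holds O x ↔ φ.Holds O x ∨ ψ.Holds O x := Iff.rfl
@[simp] theorem holds_all (x : ℕ → F) (i : ℕ) (φ : Fm) :
    (Fm.all i φ).Holds O x ↔ ∀ a, φ.Holds O (update x i a) := Iff.rfl
@[simp] theorem holds_ex (x : ℕ → F) (i : ℕ) (φ : Fm) :
    (Fm.ex i φ).Holds O x ↔ ∃ a, φ.Holds O (update x i a) := Iff.rfl

@[simp] theorem holds_imp (x : ℕ → F) (φ ψ : Fm) :
    (Fm.imp φ ψ).Holds O x ↔ (φ.Holds O x → ψ.Holds O x) := by
  simp only [Fm.imp, holds_or, holds_not]
  tauto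

theorem holds_orN (x : ℕ → F) (n : ℕ) (φ : ℕ → Fm) :
    (orN n φ).Holds O x ↔ ∃ i < n, (φ i).Holds O x := by
  induction n with
  | zero => simp [orN]
  | succ n ih =>
    simp only [orN, holds_or, ih]
    constructor
    · rintro (⟨i, hi, h⟩ | h)
      · exact ⟨i, by omega, h⟩
      · exact ⟨n, by omega, h⟩
    · rintro ⟨i, hi, h⟩
      rcases Nat.lt_succ_iff_lt_or_eq.1 hi with h1 | rfl
      · exact Or.inl ⟨i, h1, h⟩
      · exact Or.inr h

theorem holds_andL (x : ℕ → F) (l : List Fm) : (andL l).Holds O x ↔ ∀ φ ∈ l, φ.Holds O x := by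
  induction l with
  | nil => simp [andL]
  | cons φ l ih => simp [andL, ih]

theorem holds_exs (φ : Fm) (n : ℕ) : ∀ (i : ℕ) (x : ℕ → F), (exs i n φ).Holds O x ↔
    ∃ g : ℕ → F, φ.Holds O (fun v => if i ≤ v ∧ v < i + n then g v else x v) := by
  induction n with
  | zero =>
    intro i x
    simp only [exs, add_zero]
    have : ∀ g : ℕ → F, (fun v => if i ≤ v ∧ v < i then g v else x v) = x := by
      intro g
      funext v
      rw [if_neg (by omega)]
    simp [this]
  | succ n ih =>
    intro i x
    simp only [exs, holds_ex, ih]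
    constructor
    · rintro ⟨a, g, h⟩
      refine ⟨update g i a, ?_⟩
      convert h using 1
      funext v
      by_cases hv : v = i
      · subst hv
        simp
      · simp only [Function.update_of_ne hv]
        congr 1
        apply propext
        omega
    · rintro ⟨g, h⟩
      refine ⟨g i, g, ?_⟩
      convert h using 1
      funext v
      by_cases hv : v = i
      · subst hv
        simp
      · simp only [Function.update_of_ne hv]
        congr 1
        apply propext
        omega

end

/-! ### the relations -/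

section
variable (p : ℕ)

/-- `ZS` -/
def zsF : ℕ → Tm → ℕ → Fm
  | 0, s, _ => .eq s .zero
  | j + 1, s, f => .ex f (.ex (f + 1) (.and
      (.eq s (.mul (.var 0) (.add ((Tm.var f).pow p) (.var (f + 1)))))
      (zsF j (.var (f + 1)) (f + 2))))

/-- `GG` -/
def ggF (s : Tm) (f : ℕ) : Fm :=
  .ex f (zsF p (p - 1) (s.sub (((Tm.var f).pow p).sub (.var f))) (f + 1))

/-- `Good` -/
def goodF : Fm := .and (.not (.eq (.var 0) .zero)) (.not (ggF p .one 1))

/-- `Step` -/
def stepF (u v u₁ v₁ : Tm) : Fm :=
  orN p (fun i => .and (.eq u (.mul ((Tm.var 0).pow i) (u₁.pow p)))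
    (.eq v (.mul ((Tm.var 0).pow i) (v₁.pow p))))

/-- `EE p t m x_g b x_{g+1}` -/
def euV : ℕ → ℕ → Tm → Fm
  | 0, g, b => .and (.eq (.var (g + 1)) .one) (.eq (.var g) b)
  | m + 1, g, b => .ex (g + 2) (.ex (g + 3) (.and
      (stepF p (.var g) (.var (g + 1)) (.var (g + 2)) (.var (g + 3))) (euV m (g + 2) b)))

/-- `EE p t m a b c` -/
def euF (m : ℕ) (a b c : Tm) (f : ℕ) : Fm :=
  .ex f (.ex (f + 1) (.and (.eq (.var f) a) (.and (.eq (.var (f + 1)) c) (euV p m f b))))

/-- constructions of formulas with three terms -/
abbrev Gen := Tm → Tm → Tm → ℕ → Fm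

/-- `Dec` -/
def decF (E : Gen) (A s u : Tm) (f : ℕ) : Fm :=
  .all f (.all (f + 1) (.all (f + 2) (.imp (E (.var (f + 1)) (.var f) .one (f + 3))
    (.imp (E (.var (f + 2)) u .one (f + 3))
      (ggF p (.mul ((Tm.mul s A).sub (.var (f + 2))) (.var (f + 1))) (f + 3))))))

/-- `Tow` -/
def towF (E : Gen) (a b c : Tm) (f : ℕ) : Fm :=
  .ex f (.ex (f + 1) (.and (decF p E (.var f) .one a (f + 2))
    (.and (decF p E (.var (f + 1)) .one c (f + 2))
      (.all (f + 2) (.imp (E (.var (f + 2)) .one (.var (f + 2)) (f + 3))
        (.and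
          (.imp (E (.mul (.var 0) (.var (f + 2))) .one (.mul (.var 0) (.var (f + 2))) (f + 3))
            (.ex (f + 3) (.ex (f + 4) (.ex (f + 5) (.ex (f + 6)
              (.and (decF p E (.var f) (.var (f + 2)) (.var (f + 3)) (f + 7))
                (.and (decF p E (.var (f + 1)) (.var (f + 2)) (.var (f + 4)) (f + 7))
                  (.and (decF p E (.var f) (.mul (.var 0) (.var (f + 2))) (.var (f + 5)) (f + 7))
                    (.and (decF p E (.var (f + 1)) (.mul (.var 0) (.var (f + 2))) (.var (f + 6))
                        (f + 7))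
                      (stepF p (.var (f + 3)) (.var (f + 4)) (.var (f + 5))
                        (.var (f + 6))))))))))))
          (.imp (.not (E (.mul (.var 0) (.var (f + 2))) .one (.mul (.var 0) (.var (f + 2)))
              (f + 3)))
            (.ex (f + 3) (.ex (f + 4)
              (.and (decF p E (.var f) (.var (f + 2)) (.var (f + 3)) (f + 7))
                (.and (decF p E (.var (f + 1)) (.var (f + 2)) (.var (f + 4)) (f + 7))
                  (stepF p (.var (f + 3)) (.var (f + 4)) b .one))))))))))))

/-- `EE` at the level `lev p q k` -/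
def eF (q : ℕ) : ℕ → Gen
  | 0 => euF p q
  | k + 1 => towF p (eF q k)

/-- the levels: `q`, `p^q`, `p^(p^q)`, … -/
def lev (q : ℕ) : ℕ → ℕ
  | 0 => q
  | k + 1 => p ^ lev q k

/-- `Bit` -/
def bitF (E : Gen) (X s r : Tm) (f : ℕ) : Fm :=
  .ex f (.and (E (.var f) r .one (f + 1))
    (ggF p ((Tm.mul (.mul X s) (.var f)).sub .one) (f + 1)))

end

/-! ### semantics -/

section
variable {F : Type} [Field F] (O : Set F) {p : ℕ}

theorem holds_zsF (j : ℕ) : ∀ (s : Tm) (f : ℕ) (x : ℕ → F), s.bd ≤ f → 0 < f →
    ((zsF p j s f).Holds O x ↔ ZS p (x 0) j (s.eval x)) := by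
  induction j with
  | zero => intro s f x h h0; rfl
  | succ j ih =>
    intro s f x h h0
    simp only [zsF, holds_ex, holds_and, holds_eq, ZS]
    refine exists_congr fun c => exists_congr fun r => ?_
    rw [ih _ _ _ (by simp [Tm.bd]) (by omega)]
    rw [eval_update (by omega), eval_update h]
    simp only [eval_mul, eval_add, eval_pow, eval_var]
    rw [Function.update_of_ne (by omega), Function.update_of_ne (by omega),
      Function.update_of_ne (by omega), Function.update_self, Function.update_self]

theorem bd_pow (s : Tm) (n : ℕ) : (s.pow n).bd ≤ s.bd := by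
  induction n with
  | zero => simp [Tm.pow, Tm.bd]
  | succ n ih => simp [Tm.pow, Tm.bd, ih]

@[simp] theorem bd_var (i : ℕ) : (Tm.var i).bd = i + 1 := rfl
@[simp] theorem bd_one : Tm.one.bd = 0 := rfl
@[simp] theorem bd_zero : Tm.zero.bd = 0 := rfl
@[simp] theorem bd_mul (s t : Tm) : (Tm.mul s t).bd = max s.bd t.bd := rfl
@[simp] theorem bd_add (s t : Tm) : (Tm.add s t).bd = max s.bd t.bd := rfl
@[simp] theorem bd_neg (s : Tm) : (Tm.neg s).bd = s.bd := rfl
@[simp] theorem bd_sub (s t : Tm) : (s.sub t).bd = max s.bd t.bd := rfl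

theorem holds_ggF (s : Tm) (f : ℕ) (x : ℕ → F) (h : s.bd ≤ f) (h0 : 0 < f) :
    (ggF p s f).Holds O x ↔ GG p (x 0) (s.eval x) := by
  simp only [ggF, holds_ex, GG]
  refine exists_congr fun d => ?_
  have h1 := bd_pow (.var f) p
  rw [bd_var] at h1
  rw [holds_zsF _ _ _ _ _ (by simp only [bd_sub, bd_var]; omega) (by omega)]
  simp only [eval_sub, eval_pow, eval_var]
  rw [eval_update h, Function.update_of_ne (by omega), Function.update_self]

theorem holds_goodF (x : ℕ → F) : (goodF p).Holds O x ↔ Good p (x 0) := by
  simp only [goodF, holds_and, holds_not, holds_eq, eval_var, eval_zero, Good]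
  rw [holds_ggF _ _ _ _ (by simp) (by omega)]
  rfl

theorem holds_stepF (u v u₁ v₁ : Tm) (x : ℕ → F) : (stepF p u v u₁ v₁).Holds O x ↔
    Step p (x 0) (u.eval x) (v.eval x) (u₁.eval x) (v₁.eval x) := by
  simp only [stepF, holds_orN, holds_and, holds_eq, eval_mul, eval_pow, eval_var, Step]

theorem holds_euV [Fact p.Prime] (m : ℕ) : ∀ (g : ℕ) (b : Tm) (x : ℕ → F), b.bd ≤ g → 0 < g →
    ((euV p m g b).Holds O x ↔ EE p (x 0) m (x g) (b.eval x) (x (g + 1))) := by
  induction m with
  | zero => intro g b x h h0; simp [euV, EE_zero]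
  | succ m ih =>
    intro g b x h h0
    simp only [euV, holds_ex, holds_and, EE_succ, holds_stepF]
    refine exists_congr fun a' => exists_congr fun c' => ?_
    rw [ih _ _ _ (by omega) (by omega)]
    simp only [eval_var]
    have e7 : b.eval (update (update x (g + 2) a') (g + 3) c') = b.eval x := by
      rw [eval_update (by omega), eval_update (by omega)]
    have e1 : update (update x (g + 2) a') (g + 3) c' 0 = x 0 := by
      rw [Function.update_of_ne (by omega), Function.update_of_ne (by omega)]
    have e2 : update (update x (g + 2) a') (g + 3) c' g = x g := by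
      rw [Function.update_of_ne (by omega), Function.update_of_ne (by omega)]
    have e3 : update (update x (g + 2) a') (g + 3) c' (g + 1) = x (g + 1) := by
      rw [Function.update_of_ne (by omega), Function.update_of_ne (by omega)]
    have e4 : update (update x (g + 2) a') (g + 3) c' (g + 2) = a' := by
      rw [Function.update_of_ne (by omega), Function.update_self]
    have e5 : update (update x (g + 2) a') (g + 3) c' (g + 3) = c' := by
      rw [Function.update_self]
    rw [e1, e2, e3, e4, e5, e7]

variable (p) in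
/-- `E` constructs formulas for the relation `EE` at level `N` -/
def IsE (N : ℕ) (E : Gen) : Prop :=
  ∀ (x : ℕ → F) (a b c : Tm) (f : ℕ), a.bd ≤ f → b.bd ≤ f → c.bd ≤ f → 0 < f → Good p (x 0) →
    ((E a b c f).Holds O x ↔ EE p (x 0) N (a.eval x) (b.eval x) (c.eval x))

theorem isE_euF [Fact p.Prime] (m : ℕ) : IsE O p m (euF p m) := by
  intro x a b c f ha hb hc h0 _
  simp only [euF, holds_ex, holds_and, holds_eq, eval_var]
  have e2 : ∀ u v : F, update (update x f u) (f + 1) v f = u := by
    intro u v
    rw [Function.update_of_ne (by omega), Function.update_self]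
  have e3 : ∀ u v : F, update (update x f u) (f + 1) v (f + 1) = v := by
    intro u v
    rw [Function.update_self]
  have e1 : ∀ u v : F, update (update x f u) (f + 1) v 0 = x 0 := by
    intro u v
    rw [Function.update_of_ne (by omega), Function.update_of_ne (by omega)]
  have e4 : ∀ (s : Tm) (u v : F), s.bd ≤ f →
      s.eval (update (update x f u) (f + 1) v) = s.eval x := by
    intro s u v h
    rw [eval_update (by omega), eval_update (by omega)]
  constructor
  · rintro ⟨u, v, h1, h2, h3⟩
    rw [holds_euV _ _ _ _ _ hb h0] at h3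
    rw [e2, e4 _ _ _ ha] at h1
    rw [e3, e4 _ _ _ hc] at h2
    rw [e1, e2, e3, e4 _ _ _ hb, h1, h2] at h3
    exact h3
  · intro h
    refine ⟨a.eval x, c.eval x, ?_, ?_, ?_⟩
    · rw [e2, e4 _ _ _ ha]
    · rw [e3, e4 _ _ _ hc]
    · rw [holds_euV _ _ _ _ _ hb h0, e1, e2, e3, e4 _ _ _ hb]
      exact h

theorem holds_decF {N : ℕ} {E : Gen} (hE : IsE O p N E) (A s u : Tm) (f : ℕ) (x : ℕ → F)
    (hA : A.bd ≤ f) (hs : s.bd ≤ f) (hu : u.bd ≤ f) (h0 : 0 < f) (hx : Good p (x 0)) :
    (decF p E A s u f).Holds O x ↔ Dec p (x 0) N (A.eval x) (s.eval x) (u.eval x) := by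
  simp only [decF, holds_all, holds_imp, Dec]
  refine forall_congr' fun w => forall_congr' fun w' => forall_congr' fun u' => ?_
  have e1 : update (update (update x f w) (f + 1) w') (f + 2) u' 0 = x 0 := by
    rw [Function.update_of_ne (by omega), Function.update_of_ne (by omega),
      Function.update_of_ne (by omega)]
  have e2 : update (update (update x f w) (f + 1) w') (f + 2) u' f = w := by
    rw [Function.update_of_ne (by omega), Function.update_of_ne (by omega), Function.update_self]
  have e3 : update (update (update x f w) (f + 1) w') (f + 2) u' (f + 1) = w' := by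
    rw [Function.update_of_ne (by omega), Function.update_self]
  have e4 : update (update (update x f w) (f + 1) w') (f + 2) u' (f + 2) = u' := by
    rw [Function.update_self]
  have e5 : ∀ (s : Tm), s.bd ≤ f →
      s.eval (update (update (update x f w) (f + 1) w') (f + 2) u') = s.eval x := by
    intro s h
    rw [eval_update (by omega), eval_update (by omega), eval_update (by omega)]
  rw [hE _ _ _ _ _ (by simp) (by simp) (by simp) (by omega) (by rw [e1]; exact hx),
    hE _ _ _ _ _ (by simp) (by omega) (by simp) (by omega) (by rw [e1]; exact hx),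
    holds_ggF _ _ _ _ (by simp only [bd_mul, bd_sub, bd_var]; omega) (by omega)]
  simp only [eval_var, eval_one, eval_mul, eval_sub]
  rw [e1, e2, e3, e4, e5 _ hu, e5 _ hs, e5 _ hA]

theorem isE_towF [Fact p.Prime] [CharP F p] {N : ℕ} {E : Gen} (hE : IsE O p N E) :
    IsE O p (p ^ N) (towF p E) := by
  intro x a b c f ha hb hc h0 hx
  rw [hx.EE_tow, Tow]
  simp only [towF, holds_ex, holds_and, holds_all, holds_imp, holds_not]
  refine exists_congr fun A => exists_congr fun C => ?_
  set x1 := update (update x f A) (f + 1) C with hx1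
  have g0 : x1 0 = x 0 := by
    rw [hx1, Function.update_of_ne (by omega), Function.update_of_ne (by omega)]
  have g1 : x1 f = A := by rw [hx1, Function.update_of_ne (by omega), Function.update_self]
  have g2 : x1 (f + 1) = C := by rw [hx1, Function.update_self]
  have g3 : ∀ (s : Tm), s.bd ≤ f → s.eval x1 = s.eval x := by
    intro s h
    rw [hx1, eval_update (by omega), eval_update (by omega)]
  have hgood1 : Good p (x1 0) := by rw [g0]; exact hx
  rw [holds_decF O hE _ _ _ _ _ (by simp) (by simp) (by omega) (by omega) hgood1,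
    holds_decF O hE _ _ _ _ _ (by simp) (by simp) (by omega) (by omega) hgood1]
  simp only [eval_var, eval_one]
  rw [g0, g1, g2, g3 _ ha, g3 _ hc]
  refine and_congr_right fun _ => and_congr_right fun _ => forall_congr' fun s => ?_
  have hgood2 : Good p (update x1 (f + 2) s 0) := by
    rw [Function.update_of_ne (by omega)]; exact hgood1
  have k0 : update x1 (f + 2) s 0 = x 0 := by
    rw [Function.update_of_ne (by omega)]; exact g0
  have k2 : update x1 (f + 2) s (f + 2) = s := by rw [Function.update_self]
  rw [hE _ _ _ _ _ (by simp) (by simp) (by simp) (by omega) hgood2,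
    hE _ _ _ _ _ (by simp) (by simp) (by simp) (by omega) hgood2]
  simp only [eval_var, eval_one, eval_mul]
  rw [k0, k2]
  refine imp_congr_right fun _ => and_congr (imp_congr_right fun _ => ?_)
    (imp_congr_right fun _ => ?_)
  · refine exists_congr fun u => exists_congr fun v => exists_congr fun u₁ =>
      exists_congr fun v₁ => ?_
    set x3 := update (update (update (update (update x1 (f + 2) s) (f + 3) u) (f + 4) v)
      (f + 5) u₁) (f + 6) v₁ with hx3
    have m : ∀ i, i ≤ f + 2 → x3 i = update x1 (f + 2) s i := by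
      intro i hi
      rw [hx3, Function.update_of_ne (by omega), Function.update_of_ne (by omega),
        Function.update_of_ne (by omega), Function.update_of_ne (by omega)]
    have m0 : x3 0 = x 0 := by rw [m 0 (by omega), k0]
    have m1 : x3 f = A := by rw [m f (by omega), Function.update_of_ne (by omega), g1]
    have m2 : x3 (f + 1) = C := by rw [m _ (by omega), Function.update_of_ne (by omega), g2]
    have m3 : x3 (f + 2) = s := by rw [m _ (by omega), k2]
    have m4 : x3 (f + 3) = u := by
      rw [hx3, Function.update_of_ne (by omega), Function.update_of_ne (by omega),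
        Function.update_of_ne (by omega), Function.update_self]
    have m5 : x3 (f + 4) = v := by
      rw [hx3, Function.update_of_ne (by omega), Function.update_of_ne (by omega),
        Function.update_self]
    have m6 : x3 (f + 5) = u₁ := by
      rw [hx3, Function.update_of_ne (by omega), Function.update_self]
    have m7 : x3 (f + 6) = v₁ := by rw [hx3, Function.update_self]
    have hgood3 : Good p (x3 0) := by rw [m0]; exact hx
    rw [holds_decF O hE _ _ _ _ _ (by simp) (by simp) (by simp) (by omega) hgood3,
      holds_decF O hE _ _ _ _ _ (by simp) (by simp) (by simp) (by omega) hgood3,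
      holds_decF O hE _ _ _ _ _ (by simp) (by simp) (by simp) (by omega) hgood3,
      holds_decF O hE _ _ _ _ _ (by simp) (by simp) (by simp) (by omega) hgood3, holds_stepF]
    simp only [eval_var, eval_mul]
    rw [m0, m1, m2, m3, m4, m5, m6, m7]
  · refine exists_congr fun u => exists_congr fun v => ?_
    set x3 := update (update (update x1 (f + 2) s) (f + 3) u) (f + 4) v with hx3
    have m : ∀ i, i ≤ f + 2 → x3 i = update x1 (f + 2) s i := by
      intro i hi
      rw [hx3, Function.update_of_ne (by omega), Function.update_of_ne (by omega)]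
    have m0 : x3 0 = x 0 := by rw [m 0 (by omega), k0]
    have m1 : x3 f = A := by rw [m f (by omega), Function.update_of_ne (by omega), g1]
    have m2 : x3 (f + 1) = C := by rw [m _ (by omega), Function.update_of_ne (by omega), g2]
    have m3 : x3 (f + 2) = s := by rw [m _ (by omega), k2]
    have m4 : x3 (f + 3) = u := by
      rw [hx3, Function.update_of_ne (by omega), Function.update_self]
    have m5 : x3 (f + 4) = v := by rw [hx3, Function.update_self]
    have m8 : b.eval x3 = b.eval x := by
      rw [hx3, eval_update (by omega), eval_update (by omega), eval_update (by omega), g3 _ hb]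
    have hgood3 : Good p (x3 0) := by rw [m0]; exact hx
    rw [holds_decF O hE _ _ _ _ _ (by simp) (by simp) (by simp) (by omega) hgood3,
      holds_decF O hE _ _ _ _ _ (by simp) (by simp) (by simp) (by omega) hgood3, holds_stepF]
    simp only [eval_var, eval_one]
    rw [m0, m1, m2, m3, m4, m5, m8]

theorem isE_eF [Fact p.Prime] [CharP F p] (q k : ℕ) : IsE O p (lev p q k) (eF p q k) := by
  induction k with
  | zero => exact isE_euF O q
  | succ k ih => exact isE_towF O ih

theorem holds_bitF {N : ℕ} {E : Gen} (hE : IsE O p N E) (X s r : Tm) (f : ℕ) (x : ℕ → F)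
    (hX : X.bd ≤ f) (hs : s.bd ≤ f) (hr : r.bd ≤ f) (h0 : 0 < f) (hx : Good p (x 0)) :
    (bitF p E X s r f).Holds O x ↔ Bit p (x 0) N (X.eval x) (s.eval x) (r.eval x) := by
  simp only [bitF, holds_ex, holds_and, Bit]
  refine exists_congr fun w => ?_
  have e1 : update x f w 0 = x 0 := by rw [Function.update_of_ne (by omega)]
  rw [hE _ _ _ _ _ (by simp) (by omega) (by simp) (by omega) (by rw [e1]; exact hx),
    holds_ggF _ _ _ _ (by simp only [bd_mul, bd_sub, bd_var, bd_one]; omega) (by omega)]
  simp only [eval_var, eval_one, eval_mul, eval_sub]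
  rw [e1, eval_update hX, eval_update hs, eval_update hr, Function.update_self]

end

end Pool.Agent.H64R2.VF
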