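import Pool.Agent.H64R2.VF.Defs
import Pool.Agent.H528R2.Hier
import Pool.Agent.H583R2.Expo

/-!
# The elementary time hierarchy

A language to which every language of elementary time reduces in polynomial time is not decidable
in elementary time.
-/

namespace Pool.Agent.H64R2.VF

open Turing
open Pool.Agent.H583R2
open Pool.Agent.NPC (PolyTime Reduces)
open Pool.Agent.H528R2.Hier

namespace Hier

/-! ### arithmetic of iterated exponentials -/

theorem expTow_mono (k : ℕ) {m n : ℕ} (h : m ≤ n) : expTow k m ≤ expTow k n := by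
  induction k with
  | zero => exact h
  | succ k ih => exact Nat.pow_le_pow_right (by norm_num) ih

theorem expTow_add (k l n : ℕ) : expTow (k + l) n = expTow k (expTow l n) := by
  induction k with
  | zero => rw [Nat.zero_add]; rfl
  | succ k ih =>
    rw [Nat.succ_add]
    change 2 ^ expTow (k + l) n = 2 ^ expTow k (expTow l n)
    rw [ih]

theorem add_le_expTow (k n : ℕ) : n + k ≤ expTow k n := by
  induction k with
  | zero => exact le_rfl
  | succ k ih =>
    have := Nat.lt_two_pow_self (n := expTow k n)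
    change _ ≤ 2 ^ expTow k n
    omega

theorem le_expTow (k n : ℕ) : n ≤ expTow k n := (Nat.le_add_right n k).trans (add_le_expTow k n)

theorem norm2 (K : ℕ) : ∃ c, ∀ n, K * (2 * n + 2) ^ K + K ≤ n ^ c + c := by
  obtain ⟨c, hc⟩ := poly_norm (K * 2 ^ K + K) K
  refine ⟨c, fun n => le_trans ?_ (hc n)⟩
  have h1 : (2 * n + 2) ^ K ≤ 2 ^ K * (n + 2) ^ K := by
    rw [← mul_pow]
    exact Nat.pow_le_pow_left (by omega) K
  have h2 : K * (2 * n + 2) ^ K ≤ K * 2 ^ K * (n + 2) ^ K := by
    rw [mul_assoc]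
    exact Nat.mul_le_mul_left K h1
  have h3 : K * 2 ^ K * (n + 2) ^ K ≤ (K * 2 ^ K + K) * (n + 2) ^ K :=
    Nat.mul_le_mul_right _ (Nat.le_add_right _ _)
  have h4 : K ≤ K * 2 ^ K + K := Nat.le_add_left _ _
  omega

/-- a polynomial in an iterated exponential is below a higher iterated exponential -/
theorem bound_all (K k : ℕ) : ∃ r, ∀ n, K * (n + expTow k n + 2) ^ K + K ≤ expTow r n := by
  obtain ⟨c, hc⟩ := norm2 K
  obtain ⟨n0, hn0⟩ := poly_lt_exp 1 c
  refine ⟨(n0 + 1) + k, fun n => ?_⟩
  rw [expTow_add]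
  have hE := le_expTow k n
  generalize expTow k n = E at *
  have h1 : (n + E + 2) ^ K ≤ (2 * E + 2) ^ K := Nat.pow_le_pow_left (by omega) K
  have h2 : K * (n + E + 2) ^ K + K ≤ E ^ c + c :=
    le_trans (Nat.add_le_add_right (Nat.mul_le_mul_left K h1) K) (hc E)
  have h3 : E ^ c ≤ (E + n0) ^ c := Nat.pow_le_pow_left (by omega) c
  have h4 := hn0 (E + n0) (by omega)
  have h5 : 2 ^ (E + n0) ≤ expTow (n0 + 1) E :=
    Nat.pow_le_pow_right (by norm_num) (add_le_expTow n0 E)
  omega

/-- with a polynomial inside, two more levels are enough for large arguments -/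
theorem bound_large (K m j k : ℕ) : ∃ N, ∀ n, N ≤ n →
    m * (K * (n + expTow k ((4 * n + 3) ^ j) + 2) ^ K + K) ≤ expTow (k + 2) n := by
  obtain ⟨c, hc⟩ := norm2 K
  obtain ⟨n0, hn0⟩ := poly_lt_exp m c
  obtain ⟨c1, hc1⟩ := poly_norm (4 ^ j) j
  obtain ⟨n1, hn1⟩ := poly_lt_exp 1 c1
  refine ⟨max n0 n1, fun n hn => ?_⟩
  have h0 : n0 ≤ n := le_trans (le_max_left _ _) hn
  have h1 : n1 ≤ n := le_trans (le_max_right _ _) hn
  have h2 : (4 * n + 3) ^ j ≤ 2 ^ n := by
    have e1 : (4 * n + 3) ^ j ≤ 4 ^ j * (n + 2) ^ j := by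
      rw [← mul_pow]
      exact Nat.pow_le_pow_left (by omega) j
    have e2 := hc1 n
    have e3 := hn1 n h1
    rw [one_mul] at e3
    exact e1.trans ((Nat.le_add_right _ _).trans (e2.trans e3))
  have h3 : expTow k ((4 * n + 3) ^ j) ≤ expTow (k + 1) n := by
    rw [expTow_add k 1]
    exact expTow_mono k h2
  have hE := le_expTow (k + 1) n
  change _ ≤ 2 ^ expTow (k + 1) n
  generalize expTow k ((4 * n + 3) ^ j) = F at *
  generalize expTow (k + 1) n = E at *
  have h4 : (n + F + 2) ^ K ≤ (2 * E + 2) ^ K := Nat.pow_le_pow_left (by omega) K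
  have h5 : K * (n + F + 2) ^ K + K ≤ E ^ c + c :=
    le_trans (Nat.add_le_add_right (Nat.mul_le_mul_left K h4) K) (hc E)
  exact le_trans (Nat.mul_le_mul_left m h5) (hn0 E (by omega))

/-! ### computations with towers -/

theorem has_tow {α : Type} [TEnc α] {m : α → ℕ} (hm : PF m) (k : ℕ) :
    ∃ C : α × ℕ → ℕ, PB C ∧
      Has (fun a => (a, expTow k (m a))) (fun a => C (a, expTow k (m a))) := by
  induction k with
  | zero =>
    obtain ⟨c, hc, hf⟩ := PF.pair (PF.id (α := α)) hm
    exact ⟨fun p => c p.1, PB.fst hc, hf⟩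
  | succ k ih =>
    obtain ⟨C, ⟨i, hC⟩, h⟩ := ih
    obtain ⟨D, ⟨j, hD⟩, h2⟩ := has_exp (m := fun p : α × ℕ => p.2) PF.snd
      (f := fun q : (α × ℕ) × ℕ => (q.1.1, q.2)) (PF.pair (PF.fst' PF.fst) PF.snd)
    refine ⟨fun p => (sz p + 2) ^ i + (2 * sz p + 4) ^ j,
      ((PB.szId.add (PB.const 2)).pow i).add
        ((((PB.const 2).mul PB.szId).add (PB.const 4)).pow j), ?_⟩
    refine (h2.comp h).mono (fun a => ?_)
    have hlt := (Nat.lt_two_pow_self (n := expTow k (m a))).le
    have e : expTow (k + 1) (m a) = 2 ^ expTow k (m a) := rfl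
    rw [e]
    generalize 2 ^ expTow k (m a) = N at *
    generalize expTow k (m a) = E at *
    have h3 := hC (a, E)
    have h4 := hD ((a, E), N)
    have h5 : (sz (a, E) + 2) ^ i ≤ (sz (a, N) + 2) ^ i :=
      Nat.pow_le_pow_left (by rw [sz_pair, sz_pair, sz_nat, sz_nat]; omega) i
    have h6 : (sz ((a, E), N) + 2) ^ j ≤ (2 * sz (a, N) + 4) ^ j :=
      Nat.pow_le_pow_left (by
        rw [sz_pair, sz_pair, sz_pair, sz_nat, sz_nat]; omega) j
    dsimp only
    omega

/-- machines with an iterated exponential as a resource -/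
theorem tm_tow {f : List Bool → List Bool} (m : ℕ → ℕ)
    (hm : PF (fun x : List Bool => m x.length)) (k : ℕ) {g : List Bool × ℕ → List Bool}
    (h : PF g) (hg : ∀ x, f x = g (x, expTow k (m x.length))) :
    ∃ K, ∃ M : TM2ComputableInTime (id : List Bool → List Bool) (id : List Bool → List Bool) f,
      ∀ n, M.time n ≤ K * (n + expTow k (m n) + 2) ^ K + K := by
  obtain ⟨C, hC, h1⟩ := has_tow hm k
  obtain ⟨D, hD, h2⟩ := h
  have hf : f = fun x => g (x, expTow k (m x.length)) := funext hg
  have h3 : Has f (fun x => (C (x, expTow k (m x.length)) + D (x, expTow k (m x.length)))) := by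
    rw [hf]
    exact h2.comp h1
  obtain ⟨j, hj⟩ := hC.add hD
  obtain ⟨M, hM⟩ := hasTM h3
    (fun n => 60 * n + 13 * (4 * n + 2 * expTow k (m n) + 5) ^ j + 40) (by
      intro x
      have e1 := hj (x, expTow k (m x.length))
      have e2 : (sz (x, expTow k (m x.length)) + 2) ^ j ≤
          (4 * x.length + 2 * expTow k (m x.length) + 5) ^ j :=
        Nat.pow_le_pow_left (by
          have := sz_str_le x
          rw [sz_pair, sz_nat]
          omega) _
      beta_reduce at e1 ⊢
      omega)
  refine ⟨73 + 13 * 4 ^ j + j, M, fun n => ?_⟩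
  rw [hM]
  exact time_norm n (expTow k (m n)) j _ rfl

end Hier

open Hier in
/-- A language to which every language of elementary time reduces in polynomial time is not
decidable in elementary time. -/
theorem not_inElem_of_hard {X : Set (List Bool)} (h : ∀ L, InElem L → Reduces L X) :
    ¬ InElem X := by
  rintro ⟨f, M, k, hM, hX⟩
  obtain ⟨c0, m0, hc0⟩ := code_of_tm M
  -- the diagonal language
  have hDE : InElem {x : List Bool |
      U (decCode (parse x)) x (expTow (k + 2) x.length) ≠ some [true]} := by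
    have hU : PF (fun q : List Bool × ℕ =>
        if (U (decCode (parse q.1)) q.1 q.2).getD [] == [true] then ([] : List Bool)
          else [true]) := by
      have hU := PF.U.comp (PF.pair (PF.decCode (PF.parse (PF.fst (α := List Bool) (β := ℕ))))
        (PF.pair (PF.fst (α := List Bool) (β := ℕ)) PF.snd))
      exact PF.ite (PF.beqStr (PF.getD hU (PF.const [])) (PF.const _)) (PF.const _) (PF.const _)
    obtain ⟨K, M', hM'⟩ := tm_tow
      (f := fun x : List Bool =>
        if (U (decCode (parse x)) x (expTow (k + 2) x.length)).getD [] == [true] then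
          ([] : List Bool) else [true])
      (fun n => n) (PF.length PF.id) (k + 2) hU (fun x => rfl)
    obtain ⟨r, hr⟩ := bound_all K (k + 2)
    refine ⟨_, M', r, fun n => (hM' n).trans (hr n), fun x => ?_⟩
    rw [Set.mem_ofPred_eq]
    rcases hU2 : U (decCode (parse x)) x (expTow (k + 2) x.length) with _ | y
    · simp
    · by_cases hy : y = [true] <;> simp [hy]
  obtain ⟨g, hg, hgD⟩ := h _ hDE
  have hgp := pf_of_polyTime hg
  obtain ⟨j, hj⟩ := hgp.size
  have hlen : ∀ x : List Bool, (g x).length ≤ (4 * x.length + 3) ^ j := fun x =>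
    (len_le_sz (g x)).trans ((hj x).trans (Nat.pow_le_pow_left (by
      have := sz_str_le x
      omega) j))
  obtain ⟨K, M', hM'⟩ := tm_tow (f := fun x => f (g x)) (fun n => (4 * n + 3) ^ j)
    (pf_pow (PF.add (PF.mul (PF.const 4) (PF.length PF.id)) (PF.const 3)) j) k
    (g := fun q : List Bool × ℕ => (U c0 (g q.1) (m0 * q.2)).getD [])
    (PF.getD (PF.U.comp (PF.pair (PF.const c0) (PF.pair (hgp.comp PF.fst)
      (PF.mul (PF.const m0) PF.snd)))) (PF.const []))
    (by
      intro x
      have h1 : m0 * M.time (g x).length ≤ m0 * expTow k ((4 * x.length + 3) ^ j) :=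
        Nat.mul_le_mul_left m0 ((hM _).trans (expTow_mono k (hlen x)))
      dsimp only
      rw [hc0 _ _ h1]
      rfl)
  obtain ⟨c, m1, hc⟩ := code_of_tm M'
  obtain ⟨N, hN⟩ := bound_large K m1 j k
  set x : List Bool := ser (enc c) ++ List.replicate N false with hxdef
  have hpx : decCode (parse x) = c := by rw [hxdef, parse_ser, decCode_enc]
  have hxN : N ≤ x.length := by
    rw [hxdef, List.length_append, List.length_replicate]
    omega
  have h2 : m1 * M'.time x.length ≤ expTow (k + 2) x.length :=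
    (Nat.mul_le_mul_left m1 (hM' x.length)).trans (hN x.length hxN)
  have h3 := hc x _ h2
  have h4 : x ∈ {x : List Bool |
      U (decCode (parse x)) x (expTow (k + 2) x.length) ≠ some [true]} ↔ f (g x) = [true] :=
    (hgD x).trans (hX (g x))
  rw [Set.mem_ofPred_eq, hpx, h3] at h4
  by_cases h5 : f (g x) = [true]
  · exact h4.2 h5 (by rw [h5]; rfl)
  · refine h5 (h4.1 (fun h6 => h5 ?_))
    exact Option.some.inj h6

end Pool.Agent.H64R2.VF
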