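import Pool.Agent.H64R2.VF.Alg

/-!
# The element `t` of `𝔽_p((t))` satisfies the algebraic hypothesis `Good`
-/

namespace Pool.Agent.H64R2.VF

instance instCharPLaurent (p : ℕ) [Fact p.Prime] : CharP (LaurentSeries (ZMod p)) p :=
  charP_of_injective_algebraMap (algebraMap (ZMod p) (LaurentSeries (ZMod p))).injective p

namespace Laur

variable {p : ℕ} [hp : Fact p.Prime]

theorem coeff_pow_power (f : PowerSeries (ZMod p)) (k : ℕ) :
    PowerSeries.coeff k (f ^ p) = if p ∣ k then PowerSeries.coeff (k / p) f else 0 := by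
  have h1 : PowerSeries.coeff k (f ^ p) = (PowerSeries.trunc (k + 1) (f ^ p)).coeff k := by
    rw [PowerSeries.coeff_trunc, if_pos (Nat.lt_succ_self k)]
  rw [h1, ← PowerSeries.trunc_trunc_pow, ← Polynomial.coe_pow, ← ZMod.expand_card,
    PowerSeries.coeff_trunc, if_pos (Nat.lt_succ_self k), Polynomial.coeff_coe,
    Polynomial.coeff_expand hp.out.pos]
  split_ifs with h
  · rw [PowerSeries.coeff_trunc, if_pos]
    exact Nat.lt_succ_of_le (Nat.div_le_self k p)
  · rfl

theorem coeff_pow (c : LaurentSeries (ZMod p)) (n : ℤ) :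
    (c ^ p).coeff n = if (p : ℤ) ∣ n then c.coeff (n / p) else 0 := by
  have hp0 : (0 : ℤ) < p := by exact_mod_cast hp.out.pos
  obtain ⟨m, f, hf⟩ : ∃ (m : ℤ) (f : PowerSeries (ZMod p)),
      c = HahnSeries.single m 1 * HahnSeries.ofPowerSeries ℤ (ZMod p) f :=
    ⟨c.order, LaurentSeries.powerSeriesPart c, (LaurentSeries.single_order_mul_powerSeriesPart c).symm⟩
  have hcoef : ∀ (a : ℤ) (g : PowerSeries (ZMod p)) (b : ℤ),
      (HahnSeries.single a (1 : ZMod p) * HahnSeries.ofPowerSeries ℤ (ZMod p) g).coeff b =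
        if 0 ≤ b - a then PowerSeries.coeff (b - a).toNat g else 0 := by
    intro a g b
    have h1 : b = (b - a) + a := by ring
    conv_lhs => rw [h1]
    rw [HahnSeries.coeff_single_mul_add, one_mul]
    split_ifs with h
    · obtain ⟨k, hk⟩ := Int.eq_ofNat_of_zero_le h
      rw [hk, Int.toNat_natCast]
      exact HahnSeries.ofPowerSeries_apply_coeff g k
    · rw [HahnSeries.ofPowerSeries_apply]
      apply HahnSeries.embDomain_of_notMem_range
      rintro ⟨k, hk⟩
      simp at hk
      omega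
  have hpow : c ^ p = HahnSeries.single ((p : ℤ) * m) 1 *
      HahnSeries.ofPowerSeries ℤ (ZMod p) (f ^ p) := by
    rw [hf, mul_pow, HahnSeries.single_pow, one_pow, map_pow, nsmul_eq_mul]
  rw [hpow, hcoef]
  by_cases hn : (p : ℤ) ∣ n
  · rw [if_pos hn]
    obtain ⟨l, rfl⟩ := hn
    rw [Int.mul_ediv_cancel_left l hp0.ne']
    rw [hf, hcoef]
    have e : (p : ℤ) * l - p * m = p * (l - m) := by ring
    rw [e]
    by_cases hl : 0 ≤ l - m
    · obtain ⟨k, hk⟩ := Int.eq_ofNat_of_zero_le hl
      rw [hk, if_pos (by positivity), if_pos (by positivity), coeff_pow_power]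
      have e2 : ((p : ℤ) * (k : ℤ)).toNat = p * k := by
        rw [← Nat.cast_mul, Int.toNat_natCast]
      rw [e2, if_pos (Dvd.intro k rfl), Nat.mul_div_cancel_left k hp.out.pos, Int.toNat_natCast]
    · rw [if_neg hl, if_neg]
      intro h
      exact hl (nonneg_of_mul_nonneg_right h hp0)
  · rw [if_neg hn]
    split_ifs with h
    · rw [coeff_pow_power, if_neg]
      intro h2
      apply hn
      have h3 : (p : ℤ) ∣ ((n - p * m).toNat : ℤ) := by exact_mod_cast h2
      rw [Int.toNat_of_nonneg h] at h3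
      have h4 := dvd_add h3 (Dvd.intro m rfl : (p : ℤ) ∣ p * m)
      simpa using h4
    · rfl

theorem ZS_coeff (j : ℕ) (hj : j < p) : ∀ x : LaurentSeries (ZMod p),
    ZS p (HahnSeries.single (1 : ℤ) (1 : ZMod p) : LaurentSeries (ZMod p)) j x →
      ∀ n : ℤ, (∀ i : ℕ, 0 < i → i ≤ j → ¬ (p : ℤ) ∣ n - i) → x.coeff n = 0 := by
  induction j with
  | zero =>
    intro x hx n _
    simp only [ZS] at hx
    rw [hx]; rfl
  | succ j ih =>
    rintro x ⟨c, r, rfl, hr⟩ n hn
    have h1 : n = (n - 1) + 1 := by ring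
    rw [h1, HahnSeries.coeff_single_mul_add, one_mul, HahnSeries.coeff_add, coeff_pow,
      if_neg (by simpa using hn 1 one_pos (by omega)), zero_add]
    refine ih (by omega) r hr (n - 1) ?_
    intro i hi hij h
    refine hn (i + 1) (by omega) (by omega) ?_
    push_cast
    have e : n - ((i : ℤ) + 1) = n - 1 - i := by ring
    rw [e]; exact h

end Laur

open Laur in
/-- `t` satisfies `Good`. -/
theorem good_laurent (p : ℕ) [hp : Fact p.Prime] :
    Good p (HahnSeries.single (1 : ℤ) (1 : ZMod p) : LaurentSeries (ZMod p)) := by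
  refine ⟨HahnSeries.single_ne_zero one_ne_zero, ?_⟩
  rintro ⟨d, hd⟩
  have hp1 := hp.out.one_lt
  have h := ZS_coeff (p - 1) (by omega) _ hd 0 (by
    intro i hi hij h
    rw [zero_sub, dvd_neg] at h
    have := Nat.le_of_dvd hi (by exact_mod_cast h)
    omega)
  rw [HahnSeries.coeff_sub, HahnSeries.coeff_sub, coeff_pow, if_pos (dvd_zero _),
    Int.zero_ediv, sub_self, sub_zero] at h
  have h1 : (1 : LaurentSeries (ZMod p)).coeff 0 = 1 := by
    simp [HahnSeries.coeff_one]
  rw [h1] at h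
  exact one_ne_zero h

end Pool.Agent.H64R2.VF
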