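import Pool.Agent.H64R2.VF.MainF
import Pool.Agent.H671R2.PolyAuto

/-!
# The main sentence is computed in polynomial time
-/

namespace Pool.Agent.H64R2.VF

open Pool.Agent.NPC Pool.Agent.NPC.CL Turing

section
variable {α β γ δ : Type} [TEnc α] [TEnc β] [TEnc γ] [TEnc δ]

/-! ### constructors -/

/-- one constructor -/
theorem poly_tag {f : α → β} {g : α → T} (k : ℕ) (hg : Poly g)
    (h : ∀ a, T.node (toT k) (g a) = toT (f a)) : Poly f :=
  Poly.of_toT ((Poly.node (f := fun _ => toT k) (NPC.Poly.const (β := T) (toT k)) hg).congr h)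

@[fun_prop] theorem poly_var {n : α → ℕ} (hn : Poly n) : Poly (fun a => Tm.var (n a)) :=
  poly_tag 0 hn.toT' fun _ => rfl

@[fun_prop] theorem poly_addT {s t : α → Tm} (hs : Poly s) (ht : Poly t) :
    Poly (fun a => Tm.add (s a) (t a)) :=
  poly_tag 3 (Poly.node hs.toT' ht.toT') fun _ => rfl

@[fun_prop] theorem poly_negT {s : α → Tm} (hs : Poly s) : Poly (fun a => Tm.neg (s a)) :=
  poly_tag 4 hs.toT' fun _ => rfl

@[fun_prop] theorem poly_mulT {s t : α → Tm} (hs : Poly s) (ht : Poly t) :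
    Poly (fun a => Tm.mul (s a) (t a)) :=
  poly_tag 5 (Poly.node hs.toT' ht.toT') fun _ => rfl

@[fun_prop] theorem poly_eqF {s t : α → Tm} (hs : Poly s) (ht : Poly t) :
    Poly (fun a => Fm.eq (s a) (t a)) :=
  poly_tag 0 (Poly.node hs.toT' ht.toT') fun _ => rfl

@[fun_prop] theorem poly_notF {φ : α → Fm} (h : Poly φ) : Poly (fun a => Fm.not (φ a)) :=
  poly_tag 2 h.toT' fun _ => rfl

@[fun_prop] theorem poly_andF {φ ψ : α → Fm} (h : Poly φ) (h' : Poly ψ) :
    Poly (fun a => Fm.and (φ a) (ψ a)) :=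
  poly_tag 3 (Poly.node h.toT' h'.toT') fun _ => rfl

@[fun_prop] theorem poly_orF {φ ψ : α → Fm} (h : Poly φ) (h' : Poly ψ) :
    Poly (fun a => Fm.or (φ a) (ψ a)) :=
  poly_tag 4 (Poly.node h.toT' h'.toT') fun _ => rfl

@[fun_prop] theorem poly_allF {n : α → ℕ} {φ : α → Fm} (hn : Poly n) (h : Poly φ) :
    Poly (fun a => Fm.all (n a) (φ a)) :=
  poly_tag 5 (Poly.node hn.toT' h.toT') fun _ => rfl

@[fun_prop] theorem poly_exF {n : α → ℕ} {φ : α → Fm} (hn : Poly n) (h : Poly φ) :
    Poly (fun a => Fm.ex (n a) (φ a)) :=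
  poly_tag 6 (Poly.node hn.toT' h.toT') fun _ => rfl

@[fun_prop] theorem poly_subT {s t : α → Tm} (hs : Poly s) (ht : Poly t) :
    Poly (fun a => (s a).sub (t a)) := by
  unfold Tm.sub
  fun_prop

@[fun_prop] theorem poly_impF {φ ψ : α → Fm} (h : Poly φ) (h' : Poly ψ) :
    Poly (fun a => Fm.imp (φ a) (ψ a)) := by
  unfold Fm.imp
  fun_prop

/-- fixed powers -/
theorem poly_powT {s : α → Tm} (hs : Poly s) (n : ℕ) : Poly (fun a => (s a).pow n) := by
  induction n with
  | zero => exact NPC.Poly.const _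
  | succ n ih => exact poly_mulT ih hs

/-- any function on the booleans -/
theorem poly_bool {b : α → Bool} (hb : Poly b) (h : Bool → β) : Poly (fun a => h (b a)) :=
  (Poly.cond hb (NPC.Poly.const (h true)) (NPC.Poly.const (h false))).congr fun a => by
    cases b a <;> rfl

/-- maps over fixed lists -/
theorem poly_mapFix {ζ : Type} (l : List ζ) {g : ζ → α → β} (h : ∀ z, Poly (g z)) :
    Poly (fun a => l.map (fun z => g z a)) := by
  induction l with
  | nil => exact NPC.Poly.const _
  | cons z l ih => exact Poly.cons (h z) ih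

theorem poly_flatMapFix {ζ : Type} (l : List ζ) {g : ζ → α → List β} (h : ∀ z, Poly (g z)) :
    Poly (fun a => l.flatMap (fun z => g z a)) := by
  induction l with
  | nil => exact NPC.Poly.const _
  | cons z l ih =>
    simp only [List.flatMap_cons]
    exact Poly.append (h z) ih

/-- right folds which add at most `sz b + c` to the size -/
theorem poly_foldr_add {l : α → List β} {s : α → γ} {F : α → β → γ → γ} (hl : Poly l)
    (hs : Poly s) (hF : Poly (fun p : α × β × γ => F p.1 p.2.1 p.2.2)) (c : ℕ)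
    (hc : ∀ a b x, sz (F a b x) ≤ sz x + sz b + c) :
    Poly (fun a => (l a).foldr (F a) (s a)) := by
  obtain ⟨r, hr⟩ := hl.sz_le
  obtain ⟨r', hr'⟩ := hs.sz_le
  have key : ∀ (a : α) (l : List β) (x : γ),
      sz (l.foldr (F a) x) ≤ sz x + (c + 1) * sz l := by
    intro a l x
    induction l with
    | nil => simp
    | cons b l ih =>
      have := hc a b (l.foldr (F a) x)
      simp only [List.foldr_cons, sz_list_cons]
      nlinarith
  refine Poly.foldr hl hs hF (r' + Polynomial.C (c + 1) * r) ?_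
  intro a k hk
  refine (key _ _ _).trans ?_
  have h1 := hr a
  have h2 := hr' a
  have h3 := NPC.Poly.sz_drop_le (l a) k
  simp only [Polynomial.eval_add, Polynomial.eval_mul, Polynomial.eval_C]
  nlinarith

theorem poly_andL {l : α → List Fm} (hl : Poly l) : Poly (fun a => andL (l a)) := by
  have h1 : Poly (fun a => (l a).foldr (fun φ x => Fm.and φ x) (Fm.eq .zero .zero)) := by
    refine poly_foldr_add (F := fun _ φ x => Fm.and φ x) hl (NPC.Poly.const _) (by fun_prop)
      ((toT (3 : ℕ)).size + 2) ?_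
    intro a φ x
    change (T.node (toT (3 : ℕ)) (T.node (toT φ) (toT x))).size ≤ (toT x).size + (toT φ).size + _
    simp only [T.size_node]
    omega
  refine h1.congr fun a => ?_
  induction l a with
  | nil => rfl
  | cons φ l ih => rw [List.foldr_cons, ih]; rfl

theorem poly_exs (C : ℕ) : ∀ (i : ℕ) {φ : α → Fm}, Poly φ → Poly (fun a => exs i C (φ a)) := by
  induction C with
  | zero => intro i φ h; exact h
  | succ n ih =>
    intro i φ h
    exact poly_exF (NPC.Poly.const i) (ih (i + 1) h)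

theorem poly_orN {φ : ℕ → α → Fm} (h : ∀ i, Poly (φ i)) (n : ℕ) :
    Poly (fun a => orN n (fun i => φ i a)) := by
  induction n with
  | zero => exact NPC.Poly.const _
  | succ n ih => exact poly_orF ih (h n)

/-- powers with a unary exponent -/
theorem poly_powU {s : α → Tm} (hs : Poly s) {n : α → ℕ} (hn : UPoly n) :
    Poly (fun a => (s a).pow (n a)) := by
  have h0 : Poly (fun a => ((List.replicate (n a) ()).map fun _ => s a)) :=
    NPC.Poly.map hn (hs.comp (Poly.fst Poly.id))
  have h1 : Poly (fun a => ((List.replicate (n a) ()).map fun _ => s a).foldr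
      (fun b x => Tm.mul x b) Tm.one) := by
    refine poly_foldr_add (F := fun _ b x => Tm.mul x b) h0 (NPC.Poly.const _) (by fun_prop)
      ((toT (5 : ℕ)).size + 2) ?_
    intro a φ x
    change (T.node (toT (5 : ℕ)) (T.node (toT x) (toT φ))).size ≤ (toT x).size + (toT φ).size + _
    simp only [T.size_node]
    omega
  refine h1.congr fun a => ?_
  induction n a with
  | zero => rfl
  | succ n ih =>
    rw [List.replicate_succ, List.map_cons, List.foldr_cons, ih]
    rfl

/-! ### the relations -/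

variable (p : ℕ)

theorem poly_zsF (j : ℕ) : ∀ {s : α → Tm} {f : α → ℕ}, Poly s → Poly f →
    Poly (fun a => zsF p j (s a) (f a)) := by
  induction j with
  | zero => intro s f hs hf; exact poly_eqF hs (NPC.Poly.const _)
  | succ j ih =>
    intro s f hs hf
    have h1 : Poly (fun a => zsF p j (.var (f a + 1)) (f a + 2)) := ih (by fun_prop) (by fun_prop)
    have h2 : Poly (fun a => (Tm.var (f a)).pow p) := poly_powT (by fun_prop) p
    simp only [zsF]
    fun_prop

theorem poly_ggF {s : α → Tm} {f : α → ℕ} (hs : Poly s) (hf : Poly f) :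
    Poly (fun a => ggF p (s a) (f a)) := by
  have h2 : Poly (fun a => (Tm.var (f a)).pow p) := poly_powT (by fun_prop) p
  exact poly_exF hf (poly_zsF p _ (by fun_prop) (by fun_prop))

theorem poly_stepF {u v u₁ v₁ : α → Tm} (hu : Poly u) (hv : Poly v) (hu₁ : Poly u₁)
    (hv₁ : Poly v₁) : Poly (fun a => stepF p (u a) (v a) (u₁ a) (v₁ a)) := by
  unfold stepF
  apply poly_orN (φ := fun i a => .and (.eq (u a) (.mul ((Tm.var 0).pow i) ((u₁ a).pow p)))
    (.eq (v a) (.mul ((Tm.var 0).pow i) ((v₁ a).pow p))))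
  intro i
  have h1 := poly_powT hu₁ p
  have h2 := poly_powT hv₁ p
  fun_prop

attribute [fun_prop] poly_ggF poly_stepF

theorem euV_eq (m : ℕ) : ∀ (g : ℕ) (b : Tm), euV p m g b =
    ((List.range m).map fun i => (g + 2 * i + 2, g + 2 * i + 3,
      stepF p (.var (g + 2 * i)) (.var (g + 2 * i + 1)) (.var (g + 2 * i + 2))
        (.var (g + 2 * i + 3)))).foldr (fun z x => Fm.ex z.1 (Fm.ex z.2.1 (Fm.and z.2.2 x)))
      (.and (.eq (.var (g + 2 * m + 1)) .one) (.eq (.var (g + 2 * m)) b)) := by
  induction m with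
  | zero => intro g b; rfl
  | succ m ih =>
    intro g b
    rw [List.range_succ_eq_map, List.map_cons, List.foldr_cons, euV, ih, List.map_map]
    simp only [Function.comp_def, Nat.succ_eq_add_one, mul_zero, add_zero]
    have e1 : ∀ i, g + 2 + 2 * i = g + 2 * (i + 1) := by intro i; omega
    simp only [e1]

theorem poly_euV {m g : α → ℕ} {b : α → Tm} (hm : UPoly m) (hg : Poly g) (hb : Poly b) :
    Poly (fun a => euV p (m a) (g a) (b a)) := by
  have hm' := hm.toPoly
  have h0 : Poly (fun a => ((List.range (m a)).map fun i => (g a + 2 * i + 2, g a + 2 * i + 3,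
      stepF p (.var (g a + 2 * i)) (.var (g a + 2 * i + 1)) (.var (g a + 2 * i + 2))
        (.var (g a + 2 * i + 3))))) :=
    NPC.Poly.map hm.range (by fun_prop)
  refine NPC.Poly.congr (poly_foldr_add (F := fun _ z x => Fm.ex z.1 (Fm.ex z.2.1 (Fm.and z.2.2 x)))
    (s := fun a => .and (.eq (.var (g a + 2 * m a + 1)) .one) (.eq (.var (g a + 2 * m a)) (b a)))
    h0 (by fun_prop) (by fun_prop)
    (2 * ((toT (6 : ℕ)).size + 2) + (toT (3 : ℕ)).size + 2) ?_) fun a => (euV_eq p _ _ _).symm
  rintro a ⟨i, j, φ⟩ x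
  change (T.node (toT (6 : ℕ)) (T.node (toT i) (T.node (toT (6 : ℕ)) (T.node (toT j)
    (T.node (toT (3 : ℕ)) (T.node (toT φ) (toT x))))))).size ≤ (toT x).size +
    (T.node (toT i) (T.node (toT j) (toT φ))).size + _
  simp only [T.size_node]
  omega

theorem poly_euF {m f : α → ℕ} {a b c : α → Tm} (hm : UPoly m) (ha : Poly a) (hb : Poly b)
    (hc : Poly c) (hf : Poly f) : Poly (fun y => euF p (m y) (a y) (b y) (c y) (f y)) := by
  have h1 := poly_euV p hm hf hb
  unfold euF
  fun_prop

end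

/-- uniformly computable constructions -/
def PG {α : Type} [TEnc α] (E : α → Gen) : Prop :=
  Poly (fun q : α × Tm × Tm × Tm × ℕ => E q.1 q.2.1 q.2.2.1 q.2.2.2.1 q.2.2.2.2)

section
variable {α β : Type} [TEnc α] [TEnc β] {E : α → Gen}

theorem PG.app (hE : PG E) {y : β → α} {a b c : β → Tm} {f : β → ℕ} (hy : Poly y) (ha : Poly a)
    (hb : Poly b) (hc : Poly c) (hf : Poly f) :
    Poly (fun x => E (y x) (a x) (b x) (c x) (f x)) :=
  NPC.Poly.comp hE (Poly.pair hy (Poly.pair ha (Poly.pair hb (Poly.pair hc hf))))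

variable (p : ℕ)

theorem PG.decF (hE : PG E) {y : β → α} {A s u : β → Tm} {f : β → ℕ} (hy : Poly y) (hA : Poly A)
    (hs : Poly s) (hu : Poly u) (hf : Poly f) :
    Poly (fun x => decF p (E (y x)) (A x) (s x) (u x) (f x)) := by
  have h1 : Poly (fun x => E (y x) (.var (f x + 1)) (.var (f x)) .one (f x + 3)) :=
    hE.app hy (by fun_prop) (by fun_prop) (by fun_prop) (by fun_prop)
  have h2 : Poly (fun x => E (y x) (.var (f x + 2)) (u x) .one (f x + 3)) :=
    hE.app hy (by fun_prop) (by fun_prop) (by fun_prop) (by fun_prop)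
  exact poly_allF hf (poly_allF (by fun_prop) (poly_allF (by fun_prop)
    (poly_impF h1 (poly_impF h2 (by fun_prop)))))

theorem PG.bitF (hE : PG E) {y : β → α} {X s r : β → Tm} {f : β → ℕ} (hy : Poly y) (hX : Poly X)
    (hs : Poly s) (hr : Poly r) (hf : Poly f) :
    Poly (fun x => bitF p (E (y x)) (X x) (s x) (r x) (f x)) := by
  have h1 : Poly (fun x => E (y x) (.var (f x)) (r x) .one (f x + 1)) :=
    hE.app hy (by fun_prop) (by fun_prop) (by fun_prop) (by fun_prop)
  exact poly_exF hf (poly_andF h1 (by fun_prop))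

theorem PG.towF (hE : PG E) : PG (fun y => towF p (E y)) := by
  unfold PG
  have hy : Poly (fun q : α × Tm × Tm × Tm × ℕ => q.1) := by fun_prop
  have hb : Poly (fun q : α × Tm × Tm × Tm × ℕ => q.2.2.1) := by fun_prop
  have v : ∀ i : ℕ, Poly (fun q : α × Tm × Tm × Tm × ℕ => Tm.var (q.2.2.2.2 + i)) := by
    intro i; fun_prop
  have w : ∀ i : ℕ, Poly (fun q : α × Tm × Tm × Tm × ℕ => q.2.2.2.2 + i) := by
    intro i; fun_prop
  have v0 : Poly (fun q : α × Tm × Tm × Tm × ℕ => Tm.var q.2.2.2.2) := by fun_prop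
  have ts : Poly (fun q : α × Tm × Tm × Tm × ℕ =>
      Tm.mul (.var 0) (.var (q.2.2.2.2 + 2))) := by fun_prop
  have one : Poly (fun _ : α × Tm × Tm × Tm × ℕ => Tm.one) := NPC.Poly.const _
  have d1 := hE.decF p hy v0 one (by fun_prop : Poly (fun q : α × Tm × Tm × Tm × ℕ => q.2.1))
    (w 2)
  have d2 := hE.decF p hy (v 1) one
    (by fun_prop : Poly (fun q : α × Tm × Tm × Tm × ℕ => q.2.2.2.1)) (w 2)
  have e1 := hE.app hy (v 2) one (v 2) (w 3)
  have e2 := hE.app hy ts one ts (w 3)
  have d3 := hE.decF p hy v0 (v 2) (v 3) (w 7)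
  have d4 := hE.decF p hy (v 1) (v 2) (v 4) (w 7)
  have d5 := hE.decF p hy v0 ts (v 5) (w 7)
  have d6 := hE.decF p hy (v 1) ts (v 6) (w 7)
  have s1 := poly_stepF p (v 3) (v 4) (v 5) (v 6)
  have s2 := poly_stepF p (v 3) (v 4) hb one
  exact poly_exF (by fun_prop) (poly_exF (w 1) (poly_andF d1 (poly_andF d2 (poly_allF (w 2)
    (poly_impF e1 (poly_andF
      (poly_impF e2 (poly_exF (w 3) (poly_exF (w 4) (poly_exF (w 5) (poly_exF (w 6)
        (poly_andF d3 (poly_andF d4 (poly_andF d5 (poly_andF d6 s1)))))))))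
      (poly_impF (poly_notF e2) (poly_exF (w 3) (poly_exF (w 4)
        (poly_andF d3 (poly_andF d4 s2)))))))))))

theorem PG.euF {m : α → ℕ} (hm : UPoly m) : PG (fun y => euF p (m y)) := by
  unfold PG
  exact poly_euF p (hm.comp (by fun_prop : Poly (fun q : α × Tm × Tm × Tm × ℕ => q.1)))
    (by fun_prop) (by fun_prop) (by fun_prop) (by fun_prop)

theorem PG.eF {m : α → ℕ} (hm : UPoly m) (k : ℕ) : PG (fun y => eF p (m y) k) := by
  induction k with
  | zero => exact PG.euF p hm
  | succ k ih => exact ih.towF p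

/-! ### the main sentence -/

variable {Q K A : Type} [DecidableEq K] (D : Tab Q K A) (vi : Fam Q K A → ℕ) (C : ℕ)

omit [DecidableEq K] in
theorem PG.bF (hE : PG E) {y : β → α} (z : Fam Q K A) {s r : β → Tm} {f : β → ℕ} (hy : Poly y)
    (hs : Poly s) (hr : Poly r) (hf : Poly f) :
    Poly (fun x => bF vi p (E (y x)) z (s x) (r x) (f x)) :=
  hE.bitF p hy (NPC.Poly.const _) hs hr hf

theorem PG.allS (hE : PG E) {φ : α → Fm} {m : Tm} {v : ℕ} (hφ : Poly φ) :
    Poly (fun y => allS (E y) m v (φ y)) :=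
  poly_allF (NPC.Poly.const _) (poly_impF
    (hE.app Poly.id (NPC.Poly.const _) (NPC.Poly.const _) (NPC.Poly.const _) (NPC.Poly.const _))
    (poly_impF (hE.app Poly.id (NPC.Poly.const _) (NPC.Poly.const _) (NPC.Poly.const _)
      (NPC.Poly.const _)) hφ))

omit [DecidableEq K] in
/-- `bF` with constant arguments -/
theorem PG.bC (hE : PG E) (z : Fam Q K A) (s r : Tm) (f : ℕ) :
    Poly (fun y => VF.bF vi p (E y) z s r f) :=
  hE.bF p vi z Poly.id (NPC.Poly.const _) (NPC.Poly.const _) (NPC.Poly.const _)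

theorem PG.concF (hE : PG E) (q : Q) (o : Option A) (s h nh : Tm) (f : ℕ) :
    Poly (fun y => concF D vi p (E y) q o s h nh f) := by
  unfold VF.concF
  refine poly_andF (hE.bC p vi _ _ _ _) (poly_andF (hE.bC p vi _ _ _ _) ?_)
  cases (D.M.δ q o).2 with
  | keep => exact NPC.Poly.const _
  | pop => exact NPC.Poly.const _
  | push a => exact hE.bC p vi _ _ _ _

theorem PG.transF (hE : PG E) : Poly (fun y => transF D vi C p (E y)) := by
  unfold VF.transF
  refine hE.allS (poly_andF (poly_andL (poly_mapFix _ fun q => ?_))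
    (poly_andF (hE.allS (poly_andL (poly_flatMapFix _ fun q => poly_mapFix _ fun o => ?_)))
    (poly_andF (hE.allS (poly_andL (poly_flatMapFix _ fun q => poly_mapFix _ fun k => ?_)))
    (hE.allS (hE.allS (poly_impF (NPC.Poly.const _)
      (poly_andL (poly_flatMapFix _ fun k => poly_mapFix _ fun o => ?_))))))))
  · exact poly_impF (hE.bC p vi _ _ _ _) (poly_impF (hE.bC p vi _ _ _ _)
      (hE.concF p D vi _ _ _ _ _ _))
  · exact poly_impF (hE.bC p vi _ _ _ _) (poly_impF (hE.bC p vi _ _ _ _)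
      (poly_impF (hE.bC p vi _ _ _ _) (hE.concF p D vi _ _ _ _ _ _)))
  · exact poly_impF (hE.bC p vi _ _ _ _) (poly_impF (hE.bC p vi _ _ _ _) (hE.bC p vi _ _ _ _))
  · exact poly_impF (hE.bC p vi _ _ _ _) (poly_impF (hE.bC p vi _ _ _ _) (hE.bC p vi _ _ _ _))

theorem PG.finF (hE : PG E) : Poly (fun y => finF D vi C p (E y)) := by
  unfold VF.finF
  refine poly_andF (poly_andL (poly_mapFix _ fun q => poly_notF (hE.bC p vi _ _ _ _)))
    (poly_andF (poly_notF (hE.bC p vi _ _ _ _)) (poly_andF
      (hE.allS (poly_andL (poly_mapFix _ fun o => poly_notF (poly_andF (hE.bC p vi _ _ _ _)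
        (hE.bC p vi _ _ _ _)))))
      (hE.allS (poly_andL (poly_mapFix _ fun o => poly_notF (poly_andF (hE.bC p vi _ _ _ _)
        (hE.bC p vi _ _ _ _)))))))

end

section
variable {E : List Bool → Gen} (p : ℕ) {Q K A : Type} [DecidableEq K] (D : Tab Q K A)
  (vi : Fam Q K A → ℕ) (C : ℕ)

theorem poly_powY (c : ℕ) : Poly (fun y : List Bool => T0.pow (y.length + c)) :=
  poly_powU (NPC.Poly.const _) (UPoly.add (UPoly.length Poly.id) (UPoly.const c))

theorem PG.initF (hE : PG E) : Poly (fun y : List Bool => initF D vi C p (E y) y) := by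
  unfold VF.initF
  refine poly_andF (hE.bC p vi _ _ _ _) (poly_andF (poly_andL (poly_mapFix _ fun k => ?_)) ?_)
  · by_cases h : k = D.k₀
    · simp only [h, if_true]
      exact hE.bF p vi _ Poly.id (NPC.Poly.const _) (poly_powY 0) (NPC.Poly.const _)
    · simp only [h, if_false]
      exact hE.bC p vi _ _ _ _
  · have h1 : Poly (fun y : List Bool => andL (y.reverse.zipIdx.map fun e =>
        VF.bitF p (E y) (.var (1 + vi (.inr (.inr (D.k₀, some (D.sym e.1)))))) .one
          (T0.pow (min e.2 y.length)) (2 + C))) := by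
      refine poly_andL (NPC.Poly.map (by fun_prop) ?_)
      refine hE.bitF p (y := fun q : List Bool × Bool × ℕ => q.1)
        (X := fun q => Tm.var (1 + vi (.inr (.inr (D.k₀, some (D.sym q.2.1))))))
        (s := fun _ => .one) (r := fun q => T0.pow (min q.2.2 q.1.length)) (f := fun _ => 2 + C)
        (by fun_prop) ?_ (NPC.Poly.const _) ?_ (NPC.Poly.const _)
      · exact poly_bool (b := fun q : List Bool × Bool × ℕ => q.2.1) (by fun_prop)
          (fun b => Tm.var (1 + vi (.inr (.inr (D.k₀, some (D.sym b))))))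
      · refine poly_powU (NPC.Poly.const _) ?_
        exact UPoly.of_le (n := fun q : List Bool × Bool × ℕ => q.1.length) (by fun_prop)
          (UPoly.length (by fun_prop)) fun q => min_le_right _ _
    refine h1.congr fun y => ?_
    congr 1
    apply List.map_congr_left
    rintro ⟨b, i⟩ hm
    have h2 := List.mem_zipIdx hm
    simp only [List.length_reverse] at h2
    rw [min_eq_left (by simp only; omega)]
    rfl

theorem PG.bodyF (hE : PG E) : Poly (fun y : List Bool => bodyF D vi C p (E y) y) := by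
  unfold VF.bodyF
  refine poly_andF ?_ (poly_andF ?_ (poly_andF (hE.initF p D vi C)
    (poly_andF (hE.transF p D vi C) (hE.finF p D vi C))))
  · exact hE.app Poly.id (NPC.Poly.const _) (NPC.Poly.const _) (NPC.Poly.const _)
      (NPC.Poly.const _)
  · have h1 := poly_mulT (poly_powY 3) (NPC.Poly.const (Tm.var (1 + C)))
    exact hE.app Poly.id h1 (NPC.Poly.const _) h1 (NPC.Poly.const _)

theorem PG.mainF (hE : PG E) : Poly (fun y : List Bool => mainF D vi C p (E y) y) :=
  poly_exF (NPC.Poly.const _) (poly_andF (NPC.Poly.const _)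
    (poly_exs _ _ (poly_exF (NPC.Poly.const _) (hE.bodyF p D vi C))))

/-- the sentence is computed in polynomial time -/
theorem poly_mainF (c k : ℕ) :
    Poly (fun y : List Bool => mainF D vi C p (eF p (y.length + c) k) y) :=
  PG.mainF p D vi C (PG.eF p (UPoly.add (UPoly.length Poly.id) (UPoly.const c)) k)

end

end Pool.Agent.H64R2.VF
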