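import Pool.Agent.H64R2.VF.MainS
import Pool.Agent.H64R2.VF.PolyF
import Pool.Agent.H64R2.VF.Closed
import Pool.Agent.H64R2.VF.Laur
import Pool.Agent.H64R2.VF.Hier

/-!
# Hardness for elementary time
-/

namespace Pool.Agent.H64R2.VF

open Pool.Agent.NPC Pool.Agent.NPC.CL Turing

theorem expTow_shift (k n c : ℕ) : expTow k n + c ≤ expTow k (n + c) := by
  induction k with
  | zero => exact le_rfl
  | succ k ih =>
    change 2 ^ expTow k n + c ≤ 2 ^ expTow k (n + c)
    calc 2 ^ expTow k n + c ≤ 2 ^ expTow k n * (c + 1) := by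
          have : 1 ≤ 2 ^ expTow k n := Nat.one_le_two_pow
          nlinarith
      _ ≤ 2 ^ expTow k n * 2 ^ c := Nat.mul_le_mul_left _ Nat.lt_two_pow_self
      _ = 2 ^ (expTow k n + c) := (pow_add _ _ _).symm
      _ ≤ 2 ^ expTow k (n + c) := Nat.pow_le_pow_right (by norm_num) ih

theorem expTow_le_lev {p : ℕ} (hp : 2 ≤ p) (q k : ℕ) : expTow k q ≤ lev p q k := by
  induction k with
  | zero => exact le_rfl
  | succ k ih =>
    change 2 ^ expTow k q ≤ p ^ lev p q k
    exact (Nat.pow_le_pow_right (by norm_num) ih).trans (Nat.pow_le_pow_left hp _)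

/-- room for the computation -/
theorem room {p : ℕ} (hp : 2 ≤ p) (k n T d : ℕ) (hT : T ≤ expTow k n) :
    n + T * d + 3 < p ^ lev p (n + (d + 5)) k := by
  have h1 := expTow_shift k n (d + 5)
  have h2 := expTow_le_lev hp (n + (d + 5)) k
  have h3 : n ≤ expTow k n := Hier.le_expTow k n
  have h4 : 2 ^ (expTow k n + (d + 5)) ≤ p ^ lev p (n + (d + 5)) k :=
    (Nat.pow_le_pow_right (by norm_num) (h1.trans h2)).trans (Nat.pow_le_pow_left hp _)
  have h5 : (expTow k n + 1) * (d + 5 + 1) ≤ 2 ^ (expTow k n + (d + 5)) := by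
    rw [pow_add]
    exact Nat.mul_le_mul Nat.lt_two_pow_self Nat.lt_two_pow_self
  have h6 : T * d ≤ expTow k n * d := Nat.mul_le_mul_right _ hT
  nlinarith

/-- The sentences of the language of valued fields which are true in the field `F` with the
subset `O`. -/
def Th {F : Type} [Field F] (O : Set F) (φ : Fm) : Prop :=
  φ.free = ∅ ∧ φ.Holds O (fun _ => 0)

/-- For every field of characteristic `p` with an element `t` such that `Good p t`, every
language decidable in elementary time reduces in polynomial time to its theory. -/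
theorem hard_Th {F : Type} [Field F] (O : Set F) (p : ℕ) [hp : Fact p.Prime] [CharP F p] {t : F}
    (ht : Good p t) (L : Set (List Bool)) (hL : InElem L) : Reduces L (lang (Th O)) := by
  classical
  obtain ⟨V, M, k, htime, hV⟩ := hL
  set D := tab M.tm M.inputAlphabet M.outputAlphabet with hD
  haveI : Fintype (Fam (NQ M.tm) M.tm.K (NA M.tm)) := by
    unfold Fam
    infer_instance
  set eq := Fintype.equivFin (Fam (NQ M.tm) M.tm.K (NA M.tm)) with heq
  set C := Fintype.card (Fam (NQ M.tm) M.tm.K (NA M.tm)) with hC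
  set vi : Fam (NQ M.tm) M.tm.K (NA M.tm) → ℕ := fun z => (eq z : ℕ) with hvi0
  have hvi : ∀ z, vi z < C := fun z => (eq z).2
  have hinj : Function.Injective vi := fun a b h => eq.injective (Fin.ext h)
  set d := maxDepth M.tm with hd
  refine ⟨fun y => bits (mainF D vi C p (eF p (y.length + (d + 5)) k) y),
    polyTime_bits (poly_mainF p D vi C (d + 5) k), fun y => ?_⟩
  rw [bits_mem_lang, Th, hV y]
  have hE : IsE O p (lev p (y.length + (d + 5)) k) (eF p (y.length + (d + 5)) k) :=
    isE_eF O (y.length + (d + 5)) k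
  have hmain := holds_mainF_iff O D vi C ht hE hvi hinj
    (fun q => by rw [hD]; simp [tab]) (fun q => by rw [hD]; simp [tab])
    (fun q => by rw [hD]; simp [tab]) (fun _ => 0) y
  have hout := fun N => accepts_iff_output M.tm M.inputAlphabet M.outputAlphabet V
    (M.time (id y).length) N y (M.outputsFun y)
  have hlen : (id y).length = y.length := rfl
  rw [hmain]
  constructor
  · intro h
    refine ⟨free_mainF p D hvi _ k y, M.time y.length * d, ?_, (hout _).2 le_rfl h⟩
    exact room hp.out.two_le k y.length _ d (htime _)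
  · rintro ⟨_, T, _, hT⟩
    exact (hout T).1 hT

/-- The theory of `𝔽_p((t))` is hard for elementary time. -/
theorem hard_Tp (p : ℕ) [Fact p.Prime] (L : Set (List Bool)) (hL : InElem L) :
    Reduces L (lang (Tp p)) :=
  hard_Th (valRing p) p (good_laurent p) L hL

theorem not_inElem_Tp (p : ℕ) [Fact p.Prime] : ¬ InElem (lang (Tp p)) :=
  not_inElem_of_hard (hard_Tp p)

end Pool.Agent.H64R2.VF
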