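import Pool.Agent.H64R2.VF.Tabl

/-!
# The sentence describing the run of a Turing machine
-/

namespace Pool.Agent.H64R2.VF

open Pool.Agent.NPC Pool.Agent.NPC.CL Turing
open Function (update)

/-! ### the formulas -/

section
variable {Q K A : Type} [DecidableEq K] (D : Tab Q K A) (vi : Fam Q K A → ℕ) (C : ℕ) (p : ℕ)
  (E : Gen)

/-- `s` is a monomial of index `< L` -/
def sF (s : Tm) (f : ℕ) : Fm := E s .one s f

/-- for all monomials `x_v` of index `n` such that `n + c < L`, where `m = t^c` -/
def allS (m : Tm) (v : ℕ) (φ : Fm) : Fm :=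
  .all v (.imp (sF E (.var v) (v + 1)) (.imp (sF E (.mul m (.var v)) (v + 1)) φ))

/-- the bit of index `(s, r)` of the array `z` -/
def bF (z : Fam Q K A) (s r : Tm) (f : ℕ) : Fm := bitF p E (.var (1 + vi z)) s r f

/-- `t` -/
abbrev T0 : Tm := .var 0

/-- the effect of a step -/
def concF (q : Q) (o : Option A) (s h nh : Tm) (f : ℕ) : Fm :=
  .and (bF vi p E (.inl (D.M.δ q o).1) s .one f)
    (.and (bF vi p E (.inr (.inl (D.M.κ q))) s nh f)
      (match (D.M.δ q o).2 with
        | .push a => bF vi p E (.inr (.inr (D.M.κ q, some a))) s h f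
        | _ => .eq .zero .zero))

/-- new pointer, when the stack was empty -/
def nh0 (op : Op A) : Tm :=
  match op with
  | .push _ => T0
  | _ => .one

/-- new pointer, when the pointer was `n + 1` and `r = t^n` -/
def nh1 (op : Op A) (o : Option A) (r : Tm) : Tm :=
  match op with
  | .keep => .mul T0 r
  | .pop => match o with
    | none => .mul T0 r
    | some _ => r
  | .push _ => .mul T0 (.mul T0 r)

/-- initial conditions -/
def initF (y : List Bool) : Fm :=
  .and (bF vi p E (.inl D.q₀) .one .one (2 + C))
    (.and (andL (D.ks.map fun k => bF vi p E (.inr (.inl k)) .one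
        (if k = D.k₀ then T0.pow y.length else .one) (2 + C)))
      (andL (y.reverse.zipIdx.map fun e =>
        bF vi p E (.inr (.inr (D.k₀, some (D.sym e.1)))) .one (T0.pow e.2) (2 + C))))

/-- transitions -/
def transF : Fm :=
  allS E T0 (2 + C)
    (.and (andL (D.qs.map fun q => .imp (bF vi p E (.inl q) (.var (2 + C)) .one (3 + C))
        (.imp (bF vi p E (.inr (.inl (D.M.κ q))) (.var (2 + C)) .one (3 + C))
          (concF D vi p E q none (.mul T0 (.var (2 + C))) .one (nh0 (D.M.δ q none).2) (3 + C)))))
    (.and (allS E (.mul T0 T0) (3 + C) (andL (D.qs.flatMap fun q => D.os.map fun o =>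
        .imp (bF vi p E (.inl q) (.var (2 + C)) .one (4 + C))
        (.imp (bF vi p E (.inr (.inl (D.M.κ q))) (.var (2 + C)) (.mul T0 (.var (3 + C))) (4 + C))
        (.imp (bF vi p E (.inr (.inr (D.M.κ q, o))) (.var (2 + C)) (.var (3 + C)) (4 + C))
          (concF D vi p E q o (.mul T0 (.var (2 + C))) (.mul T0 (.var (3 + C)))
            (nh1 (D.M.δ q o).2 o (.var (3 + C))) (4 + C)))))))
    (.and (allS E T0 (3 + C) (andL (D.qs.flatMap fun q =>
        (D.ks.filter fun k => decide (k ≠ D.M.κ q)).map fun k =>
        .imp (bF vi p E (.inl q) (.var (2 + C)) .one (4 + C))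
        (.imp (bF vi p E (.inr (.inl k)) (.var (2 + C)) (.var (3 + C)) (4 + C))
          (bF vi p E (.inr (.inl k)) (.mul T0 (.var (2 + C))) (.var (3 + C)) (4 + C))))))
    (allS E .one (3 + C) (allS E (.var (3 + C)) (4 + C)
      (.imp (.not (.eq (.var (4 + C)) .one)) (andL (D.ks.flatMap fun k => D.os.map fun o =>
        .imp (bF vi p E (.inr (.inl k)) (.var (2 + C)) (.mul (.var (4 + C)) (.var (3 + C))) (5 + C))
        (.imp (bF vi p E (.inr (.inr (k, o))) (.var (2 + C)) (.var (3 + C)) (5 + C))
          (bF vi p E (.inr (.inr (k, o))) (.mul T0 (.var (2 + C))) (.var (3 + C)) (5 + C)))))))))))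

/-- final conditions -/
def finF : Fm :=
  .and (andL ((D.qs.filter fun q => !(D.acc q)).map fun q =>
      .not (bF vi p E (.inl q) (.var (1 + C)) .one (2 + C))))
  (.and (.not (bF vi p E (.inr (.inl D.k₁)) (.var (1 + C)) .one (2 + C)))
  (.and (allS E T0 (2 + C) (andL ((D.os.filter fun o => !(D.good o)).map fun o =>
      .not (.and (bF vi p E (.inr (.inl D.k₁)) (.var (1 + C)) (.mul T0 (.var (2 + C))) (3 + C))
        (bF vi p E (.inr (.inr (D.k₁, o))) (.var (1 + C)) (.var (2 + C)) (3 + C))))))
    (allS E (.mul T0 T0) (2 + C) (andL ((D.os.filter fun o => o.isSome).map fun o =>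
      .not (.and (bF vi p E (.inr (.inl D.k₁)) (.var (1 + C))
          (.mul T0 (.mul T0 (.var (2 + C)))) (3 + C))
        (bF vi p E (.inr (.inr (D.k₁, o))) (.var (1 + C)) (.var (2 + C)) (3 + C))))))))

/-- everything -/
def bodyF (y : List Bool) : Fm :=
  .and (sF E (.var (1 + C)) (2 + C))
    (.and (sF E (.mul (T0.pow (y.length + 3)) (.var (1 + C))) (2 + C))
      (.and (initF D vi C p E y) (.and (transF D vi C p E) (finF D vi C p E))))

/-- the sentence -/
def mainF (y : List Bool) : Fm :=
  .ex 0 (.and (goodF p) (exs 1 C (.ex (1 + C) (bodyF D vi C p E y))))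

end

/-! ### semantics -/

section
variable {F : Type} [Field F] (O : Set F) {p : ℕ}
variable {Q K A : Type} [DecidableEq K] (D : Tab Q K A) (vi : Fam Q K A → ℕ) (C : ℕ)
  {E : Gen} {L : ℕ}

/-- the arrays given by the values of the variables -/
def bitsB (p : ℕ) (N : ℕ) (t : F) (g : ℕ → F) : Fam Q K A → ℕ → ℕ → Prop :=
  fun z i j => Bit p t N (g (1 + vi z)) (t ^ i) (t ^ j)

variable {N : ℕ} (hE : IsE O p N E) (hvi : ∀ z, vi z < C)

/-- the assignments considered -/
structure Env (p : ℕ) (t : F) (g : ℕ → F) (x : ℕ → F) : Prop where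
  good : Good p t
  h0 : x 0 = t
  hz : ∀ z, x (1 + vi z) = g (1 + vi z)

variable {vi C} {t : F} {g : ℕ → F} {x : ℕ → F}

omit [DecidableEq K] in
include hvi in
theorem Env.update (hx : Env vi p t g x) {v : ℕ} (hv : 1 + C ≤ v) (a : F) :
    Env vi p t g (update x v a) := by
  refine ⟨hx.good, ?_, fun z => ?_⟩
  · rw [Function.update_of_ne (by omega)]
    exact hx.h0
  · have := hvi z
    rw [Function.update_of_ne (by omega)]
    exact hx.hz z

omit [DecidableEq K] in
theorem Env.t0 (hx : Env vi p t g x) : T0.eval x = t := hx.h0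

omit [DecidableEq K] in
include hE in
theorem holds_sF [Fact p.Prime] [CharP F p] (hx : Env vi p t g x) {s : Tm} {f : ℕ}
    (hs : s.bd ≤ f) (hf : 0 < f) {n : ℕ} (es : s.eval x = t ^ n) :
    (sF E s f).Holds O x ↔ n < p ^ N := by
  have hg : Good p (x 0) := by rw [hx.h0]; exact hx.good
  rw [sF, hE _ _ _ _ _ hs (by simp) hs hf hg, eval_one, es, hx.h0, hx.good.EE_self_pow]

omit [DecidableEq K] in
include hE in
theorem holds_allS [Fact p.Prime] [CharP F p] (hx : Env vi p t g x) {m : Tm} {v : ℕ}
    (hv : 0 < v) (hm : m.bd ≤ v) {c : ℕ} (em : m.eval x = t ^ c) (φ : Fm) :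
    (allS E m v φ).Holds O x ↔ ∀ n, n + c < p ^ N → φ.Holds O (update x v (t ^ n)) := by
  have hg : Good p (x 0) := by rw [hx.h0]; exact hx.good
  have h0 : ∀ a, update x v a 0 = t := by
    intro a
    rw [Function.update_of_ne (by omega)]
    exact hx.h0
  have hg' : ∀ a, Good p (update x v a 0) := by
    intro a
    rw [h0]
    exact hx.good
  simp only [allS, sF, holds_all, holds_imp]
  constructor
  · intro h n hn
    refine h (t ^ n) ?_ ?_
    · rw [hE _ _ _ _ _ (by simp) (by simp) (by simp) (by omega) (hg' _), h0]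
      simp only [eval_var, eval_one, Function.update_self]
      rw [hx.good.EE_self_pow]
      omega
    · rw [hE _ _ _ _ _ (by simp only [bd_mul, bd_var]; omega) (by simp)
        (by simp only [bd_mul, bd_var]; omega) (by omega) (hg' _), h0]
      simp only [eval_var, eval_one, eval_mul, Function.update_self]
      rw [eval_update hm, em, ← pow_add, hx.good.EE_self_pow]
      omega
  · intro h a h1 h2
    rw [hE _ _ _ _ _ (by simp) (by simp) (by simp) (by omega) (hg' _), h0] at h1
    rw [hE _ _ _ _ _ (by simp only [bd_mul, bd_var]; omega) (by simp)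
      (by simp only [bd_mul, bd_var]; omega) (by omega) (hg' _), h0] at h2
    simp only [eval_var, eval_one, eval_mul, Function.update_self] at h1 h2
    obtain ⟨n, hn, rfl⟩ := EE_self.1 h1
    rw [eval_update hm, em, ← pow_add, hx.good.EE_self_pow] at h2
    exact h n (by omega)

omit [DecidableEq K] in
include hE hvi in
theorem holds_bF (hx : Env vi p t g x) (z : Fam Q K A) {s r : Tm} {f i j : ℕ} (hf : 1 + C ≤ f)
    (hs : s.bd ≤ f) (hr : r.bd ≤ f) (es : s.eval x = t ^ i) (er : r.eval x = t ^ j) :
    (bF vi p E z s r f).Holds O x ↔ bitsB vi p N t g z i j := by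
  have hg : Good p (x 0) := by rw [hx.h0]; exact hx.good
  have := hvi z
  rw [bF, holds_bitF O hE _ _ _ _ _ (by simp only [bd_var]; omega) hs hr (by omega) hg, es, er,
    eval_var, hx.hz, hx.h0, bitsB]

omit [DecidableEq K] in
theorem one_eval (x : ℕ → F) (t : F) : Tm.one.eval x = t ^ 0 := by simp

include hE hvi in
theorem holds_concF (hx : Env vi p t g x) (q : Q) (o : Option A) {s h nh : Tm} {f i j : ℕ}
    (hf : 1 + C ≤ f) (hs : s.bd ≤ f) (hh : h.bd ≤ f) (hn : nh.bd ≤ f)
    (es : s.eval x = t ^ (i + 1)) (eh : h.eval x = t ^ j)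
    (en : nh.eval x = t ^ newPtr (D.M.δ q o).2 o j) :
    (concF D vi p E q o s h nh f).Holds O x ↔ Concl D (bitsB vi p N t g) q o i j := by
  rw [concF, holds_and, holds_and, Concl,
    holds_bF O hE hvi hx _ hf hs (by simp) es (one_eval x t),
    holds_bF O hE hvi hx _ hf hs hn es en]
  refine and_congr_right fun _ => and_congr_right fun _ => ?_
  cases hop : (D.M.δ q o).2 with
  | keep => simp
  | pop => simp
  | push a =>
    simp only [Op.push.injEq, forall_eq']
    exact holds_bF O hE hvi hx _ hf hs hh es eh

/-- extended environments -/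
theorem Env.t0' (hx : Env vi p t g x) : T0.eval x = t ^ 1 := by
  rw [hx.t0, pow_one]

include hE hvi in
theorem holds_initF (hx : Env vi p t g x) (y : List Bool) :
    (initF D vi C p E y).Holds O x ↔ (bitsB vi p N t g (.inl D.q₀) 0 0 ∧
      (∀ k ∈ D.ks, bitsB vi p N t g (.inr (.inl k)) 0 (if k = D.k₀ then y.length else 0)) ∧
      ∀ e ∈ y.reverse.zipIdx, bitsB vi p N t g (.inr (.inr (D.k₀, some (D.sym e.1)))) 0 e.2) := by
  have hb := bd_pow T0
  simp only [bd_var] at hb
  rw [initF, holds_and, holds_and, holds_andL, holds_andL, List.forall_mem_map,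
    List.forall_mem_map,
    holds_bF O hE hvi hx _ (by omega) (by first | (simp only [bd_mul, bd_var, bd_one]; omega) | simp) (by first | (simp only [bd_mul, bd_var, bd_one]; omega) | simp) (one_eval x t) (one_eval x t)]
  refine and_congr_right fun _ => and_congr (forall_congr' fun k => imp_congr_right fun _ => ?_)
    (forall_congr' fun e => imp_congr_right fun _ => ?_)
  · split_ifs with hk
    · exact holds_bF O hE hvi hx _ (by omega) (by first | (simp only [bd_mul, bd_var, bd_one]; omega) | simp) (by have := hb y.length; omega)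
        (one_eval x t) (by rw [eval_pow, hx.t0])
    · exact holds_bF O hE hvi hx _ (by omega) (by first | (simp only [bd_mul, bd_var, bd_one]; omega) | simp) (by first | (simp only [bd_mul, bd_var, bd_one]; omega) | simp) (one_eval x t) (one_eval x t)
  · exact holds_bF O hE hvi hx _ (by omega) (by first | (simp only [bd_mul, bd_var, bd_one]; omega) | simp) (by have := hb e.2; omega)
      (one_eval x t) (by rw [eval_pow, hx.t0])

theorem bd_nh0 (op : Op A) : (nh0 op).bd ≤ 1 := by cases op <;> simp [nh0]

theorem bd_nh1 (op : Op A) (o : Option A) (r : Tm) : (nh1 op o r).bd ≤ max 1 r.bd := by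
  cases op <;> cases o <;> simp [nh1]

theorem eval_nh0 (hx : Env vi p t g x) (op : Op A) :
    (nh0 op).eval x = t ^ newPtr op none 0 := by
  cases op <;> simp [nh0, newPtr, hx.h0]

theorem eval_nh1 (hx : Env vi p t g x) (op : Op A) (o : Option A) (r : Tm) (n : ℕ)
    (er : r.eval x = t ^ n) : (nh1 op o r).eval x = t ^ newPtr op o (n + 1) := by
  cases op <;> cases o <;> simp [nh1, newPtr, hx.h0, er, pow_succ']

include hE hvi in
theorem holds_transF [Fact p.Prime] [CharP F p] (hx : Env vi p t g x) :
    (transF D vi C p E).Holds O x ↔ ∀ i, i + 1 < p ^ N →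
      (∀ q ∈ D.qs, bitsB vi p N t g (.inl q) i 0 →
        bitsB vi p N t g (.inr (.inl (D.M.κ q))) i 0 → Concl D (bitsB vi p N t g) q none i 0) ∧
      (∀ n, n + 2 < p ^ N → ∀ q ∈ D.qs, ∀ o ∈ D.os, bitsB vi p N t g (.inl q) i 0 →
        bitsB vi p N t g (.inr (.inl (D.M.κ q))) i (n + 1) →
        bitsB vi p N t g (.inr (.inr (D.M.κ q, o))) i n →
        Concl D (bitsB vi p N t g) q o i (n + 1)) ∧
      (∀ h, h + 1 < p ^ N → ∀ q ∈ D.qs, ∀ k ∈ D.ks, k ≠ D.M.κ q →
        bitsB vi p N t g (.inl q) i 0 → bitsB vi p N t g (.inr (.inl k)) i h →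
        bitsB vi p N t g (.inr (.inl k)) (i + 1) h) ∧
      (∀ j, j < p ^ N → ∀ w, w + j < p ^ N → w ≠ 0 → ∀ k ∈ D.ks, ∀ o ∈ D.os,
        bitsB vi p N t g (.inr (.inl k)) i (w + j) → bitsB vi p N t g (.inr (.inr (k, o))) i j →
        bitsB vi p N t g (.inr (.inr (k, o))) (i + 1) j) := by
  rw [transF, holds_allS O hE hx (by omega) (by first | (simp only [bd_mul, bd_var, bd_one]; omega) | simp) hx.t0']
  refine forall_congr' fun i => imp_congr_right fun _ => ?_
  set x1 := update x (2 + C) (t ^ i) with hx1
  have E1 : Env vi p t g x1 := hx.update hvi (by omega) _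
  have s1 : (Tm.var (2 + C)).eval x1 = t ^ i := by rw [eval_var, hx1, Function.update_self]
  have s1' : (Tm.mul T0 (.var (2 + C))).eval x1 = t ^ (i + 1) := by
    rw [eval_mul, s1, E1.t0, pow_succ']
  rw [holds_and, holds_and, holds_and]
  refine and_congr ?_ (and_congr ?_ (and_congr ?_ ?_))
  · rw [holds_andL, List.forall_mem_map]
    refine forall_congr' fun q => imp_congr_right fun _ => ?_
    rw [holds_imp, holds_imp]
    refine imp_congr ?_ (imp_congr ?_ ?_)
    · exact holds_bF O hE hvi E1 _ (by omega) (by first | (simp only [bd_mul, bd_var, bd_one]; omega) | simp) (by first | (simp only [bd_mul, bd_var, bd_one]; omega) | simp) s1 (one_eval x1 t)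
    · exact holds_bF O hE hvi E1 _ (by omega) (by first | (simp only [bd_mul, bd_var, bd_one]; omega) | simp) (by first | (simp only [bd_mul, bd_var, bd_one]; omega) | simp) s1 (one_eval x1 t)
    · have := bd_nh0 (D.M.δ q none).2
      exact holds_concF O D hE hvi E1 _ _ (by omega) (by first | (simp only [bd_mul, bd_var, bd_one]; omega) | simp) (by first | (simp only [bd_mul, bd_var, bd_one]; omega) | simp) (by omega) s1'
        (one_eval x1 t) (eval_nh0 E1 _)
  · rw [holds_allS O hE E1 (by omega) (by first | (simp only [bd_mul, bd_var, bd_one]; omega) | simp) (c := 2) (by rw [eval_mul, E1.t0]; ring)]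
    refine forall_congr' fun n => imp_congr_right fun _ => ?_
    set x2 := update x1 (3 + C) (t ^ n) with hx2
    have E2 : Env vi p t g x2 := E1.update hvi (by omega) _
    have s2 : (Tm.var (2 + C)).eval x2 = t ^ i := by
      rw [hx2, eval_update (by first | (simp only [bd_mul, bd_var, bd_one]; omega) | simp)]; exact s1
    have s2' : (Tm.mul T0 (.var (2 + C))).eval x2 = t ^ (i + 1) := by
      rw [eval_mul, s2, E2.t0, pow_succ']
    have r2 : (Tm.var (3 + C)).eval x2 = t ^ n := by rw [eval_var, hx2, Function.update_self]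
    have r2' : (Tm.mul T0 (.var (3 + C))).eval x2 = t ^ (n + 1) := by
      rw [eval_mul, r2, E2.t0, pow_succ']
    rw [holds_andL]
    simp only [List.mem_flatMap, List.mem_map]
    constructor
    · intro h q hq o ho h1 h2 h3
      have h4 := h _ ⟨q, hq, o, ho, rfl⟩
      rw [holds_imp, holds_imp, holds_imp,
        holds_bF O hE hvi E2 _ (by omega) (by first | (simp only [bd_mul, bd_var, bd_one]; omega) | simp) (by first | (simp only [bd_mul, bd_var, bd_one]; omega) | simp) s2 (one_eval x2 t),
        holds_bF O hE hvi E2 _ (by omega) (by first | (simp only [bd_mul, bd_var, bd_one]; omega) | simp) (by first | (simp only [bd_mul, bd_var, bd_one]; omega) | simp) s2 r2',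
        holds_bF O hE hvi E2 _ (by omega) (by first | (simp only [bd_mul, bd_var, bd_one]; omega) | simp) (by first | (simp only [bd_mul, bd_var, bd_one]; omega) | simp) s2 r2] at h4
      have h5 := bd_nh1 (D.M.δ q o).2 o (.var (3 + C))
      rw [bd_var] at h5
      exact (holds_concF O D hE hvi E2 _ _ (by omega) (by first | (simp only [bd_mul, bd_var, bd_one]; omega) | simp) (by first | (simp only [bd_mul, bd_var, bd_one]; omega) | simp)
        (by omega) s2' r2' (eval_nh1 E2 _ _ _ _ r2)).1 (h4 h1 h2 h3)
    · rintro h φ ⟨q, hq, o, ho, rfl⟩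
      rw [holds_imp, holds_imp, holds_imp,
        holds_bF O hE hvi E2 _ (by omega) (by first | (simp only [bd_mul, bd_var, bd_one]; omega) | simp) (by first | (simp only [bd_mul, bd_var, bd_one]; omega) | simp) s2 (one_eval x2 t),
        holds_bF O hE hvi E2 _ (by omega) (by first | (simp only [bd_mul, bd_var, bd_one]; omega) | simp) (by first | (simp only [bd_mul, bd_var, bd_one]; omega) | simp) s2 r2',
        holds_bF O hE hvi E2 _ (by omega) (by first | (simp only [bd_mul, bd_var, bd_one]; omega) | simp) (by first | (simp only [bd_mul, bd_var, bd_one]; omega) | simp) s2 r2]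
      intro h1 h2 h3
      have h5 := bd_nh1 (D.M.δ q o).2 o (.var (3 + C))
      rw [bd_var] at h5
      exact (holds_concF O D hE hvi E2 _ _ (by omega) (by first | (simp only [bd_mul, bd_var, bd_one]; omega) | simp) (by first | (simp only [bd_mul, bd_var, bd_one]; omega) | simp)
        (by omega) s2' r2' (eval_nh1 E2 _ _ _ _ r2)).2 (h q hq o ho h1 h2 h3)
  · rw [holds_allS O hE E1 (by omega) (by first | (simp only [bd_mul, bd_var, bd_one]; omega) | simp) E1.t0']
    refine forall_congr' fun n => imp_congr_right fun _ => ?_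
    set x2 := update x1 (3 + C) (t ^ n) with hx2
    have E2 : Env vi p t g x2 := E1.update hvi (by omega) _
    have s2 : (Tm.var (2 + C)).eval x2 = t ^ i := by
      rw [hx2, eval_update (by first | (simp only [bd_mul, bd_var, bd_one]; omega) | simp)]; exact s1
    have s2' : (Tm.mul T0 (.var (2 + C))).eval x2 = t ^ (i + 1) := by
      rw [eval_mul, s2, E2.t0, pow_succ']
    have r2 : (Tm.var (3 + C)).eval x2 = t ^ n := by rw [eval_var, hx2, Function.update_self]
    rw [holds_andL]
    simp only [List.mem_flatMap, List.mem_map, List.mem_filter, decide_eq_true_eq]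
    constructor
    · intro h q hq k hk hne h1 h2
      have h4 := h _ ⟨q, hq, k, ⟨hk, hne⟩, rfl⟩
      rw [holds_imp, holds_imp,
        holds_bF O hE hvi E2 _ (by omega) (by first | (simp only [bd_mul, bd_var, bd_one]; omega) | simp) (by first | (simp only [bd_mul, bd_var, bd_one]; omega) | simp) s2 (one_eval x2 t),
        holds_bF O hE hvi E2 _ (by omega) (by first | (simp only [bd_mul, bd_var, bd_one]; omega) | simp) (by first | (simp only [bd_mul, bd_var, bd_one]; omega) | simp) s2 r2,
        holds_bF O hE hvi E2 _ (by omega) (by first | (simp only [bd_mul, bd_var, bd_one]; omega) | simp) (by first | (simp only [bd_mul, bd_var, bd_one]; omega) | simp) s2' r2] at h4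
      exact h4 h1 h2
    · rintro h φ ⟨q, hq, k, ⟨hk, hne⟩, rfl⟩
      rw [holds_imp, holds_imp,
        holds_bF O hE hvi E2 _ (by omega) (by first | (simp only [bd_mul, bd_var, bd_one]; omega) | simp) (by first | (simp only [bd_mul, bd_var, bd_one]; omega) | simp) s2 (one_eval x2 t),
        holds_bF O hE hvi E2 _ (by omega) (by first | (simp only [bd_mul, bd_var, bd_one]; omega) | simp) (by first | (simp only [bd_mul, bd_var, bd_one]; omega) | simp) s2 r2,
        holds_bF O hE hvi E2 _ (by omega) (by first | (simp only [bd_mul, bd_var, bd_one]; omega) | simp) (by first | (simp only [bd_mul, bd_var, bd_one]; omega) | simp) s2' r2]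
      exact h q hq k hk hne
  · rw [holds_allS O hE E1 (by omega) (by first | (simp only [bd_mul, bd_var, bd_one]; omega) | simp) (one_eval x1 t)]
    refine forall_congr' fun j => imp_congr_right fun _ => ?_
    set x2 := update x1 (3 + C) (t ^ j) with hx2
    have E2 : Env vi p t g x2 := E1.update hvi (by omega) _
    have r2 : (Tm.var (3 + C)).eval x2 = t ^ j := by rw [eval_var, hx2, Function.update_self]
    rw [holds_allS O hE E2 (by omega) (by first | (simp only [bd_mul, bd_var, bd_one]; omega) | simp) r2]
    refine forall_congr' fun w => imp_congr_right fun _ => ?_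
    set x3 := update x2 (4 + C) (t ^ w) with hx3
    have E3 : Env vi p t g x3 := E2.update hvi (by omega) _
    have s3 : (Tm.var (2 + C)).eval x3 = t ^ i := by
      rw [hx3, eval_update (by first | (simp only [bd_mul, bd_var, bd_one]; omega) | simp), hx2, eval_update (by first | (simp only [bd_mul, bd_var, bd_one]; omega) | simp)]; exact s1
    have s3' : (Tm.mul T0 (.var (2 + C))).eval x3 = t ^ (i + 1) := by
      rw [eval_mul, s3, E3.t0, pow_succ']
    have r3 : (Tm.var (3 + C)).eval x3 = t ^ j := by
      rw [hx3, eval_update (by first | (simp only [bd_mul, bd_var, bd_one]; omega) | simp)]; exact r2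
    have w3 : (Tm.var (4 + C)).eval x3 = t ^ w := by rw [eval_var, hx3, Function.update_self]
    have w3' : (Tm.mul (.var (4 + C)) (.var (3 + C))).eval x3 = t ^ (w + j) := by
      rw [eval_mul, w3, r3, pow_add]
    rw [holds_imp, holds_not, holds_eq, w3, eval_one]
    refine imp_congr ?_ ?_
    · refine not_congr ⟨fun h => ?_, fun h => by rw [h, pow_zero]⟩
      exact hx.good.pow_inj (by rw [pow_zero]; exact h)
    · rw [holds_andL]
      simp only [List.mem_flatMap, List.mem_map]
      constructor
      · intro h k hk o ho h1 h2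
        have h4 := h _ ⟨k, hk, o, ho, rfl⟩
        rw [holds_imp, holds_imp,
          holds_bF O hE hvi E3 _ (by omega) (by first | (simp only [bd_mul, bd_var, bd_one]; omega) | simp) (by first | (simp only [bd_mul, bd_var, bd_one]; omega) | simp) s3 w3',
          holds_bF O hE hvi E3 _ (by omega) (by first | (simp only [bd_mul, bd_var, bd_one]; omega) | simp) (by first | (simp only [bd_mul, bd_var, bd_one]; omega) | simp) s3 r3,
          holds_bF O hE hvi E3 _ (by omega) (by first | (simp only [bd_mul, bd_var, bd_one]; omega) | simp) (by first | (simp only [bd_mul, bd_var, bd_one]; omega) | simp) s3' r3] at h4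
        exact h4 h1 h2
      · rintro h φ ⟨k, hk, o, ho, rfl⟩
        rw [holds_imp, holds_imp,
          holds_bF O hE hvi E3 _ (by omega) (by first | (simp only [bd_mul, bd_var, bd_one]; omega) | simp) (by first | (simp only [bd_mul, bd_var, bd_one]; omega) | simp) s3 w3',
          holds_bF O hE hvi E3 _ (by omega) (by first | (simp only [bd_mul, bd_var, bd_one]; omega) | simp) (by first | (simp only [bd_mul, bd_var, bd_one]; omega) | simp) s3 r3,
          holds_bF O hE hvi E3 _ (by omega) (by first | (simp only [bd_mul, bd_var, bd_one]; omega) | simp) (by first | (simp only [bd_mul, bd_var, bd_one]; omega) | simp) s3' r3]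
        exact h k hk o ho

include hE hvi in
theorem holds_finF [Fact p.Prime] [CharP F p] (hx : Env vi p t g x) {T : ℕ}
    (hT : x (1 + C) = t ^ T) :
    (finF D vi C p E).Holds O x ↔
      (∀ q ∈ D.qs, D.acc q = false → ¬ bitsB vi p N t g (.inl q) T 0) ∧
      ¬ bitsB vi p N t g (.inr (.inl D.k₁)) T 0 ∧
      (∀ n, n + 1 < p ^ N → ∀ o ∈ D.os, D.good o = false →
        ¬ (bitsB vi p N t g (.inr (.inl D.k₁)) T (n + 1) ∧
          bitsB vi p N t g (.inr (.inr (D.k₁, o))) T n)) ∧
      (∀ n, n + 2 < p ^ N → ∀ o ∈ D.os, o.isSome = true →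
        ¬ (bitsB vi p N t g (.inr (.inl D.k₁)) T (n + 2) ∧
          bitsB vi p N t g (.inr (.inr (D.k₁, o))) T n)) := by
  have sT : (Tm.var (1 + C)).eval x = t ^ T := hT
  rw [finF, holds_and, holds_and, holds_and]
  refine and_congr ?_ (and_congr ?_ (and_congr ?_ ?_))
  · rw [holds_andL, List.forall_mem_map]
    simp only [List.mem_filter, Bool.not_eq_true']
    constructor
    · intro h q hq hacc
      have := h q ⟨hq, hacc⟩
      rwa [holds_not, holds_bF O hE hvi hx _ (by omega) (by first | (simp only [bd_mul, bd_var, bd_one]; omega) | simp) (by first | (simp only [bd_mul, bd_var, bd_one]; omega) | simp) sT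
        (one_eval x t)] at this
    · rintro h q ⟨hq, hacc⟩
      rw [holds_not, holds_bF O hE hvi hx _ (by omega) (by first | (simp only [bd_mul, bd_var, bd_one]; omega) | simp) (by first | (simp only [bd_mul, bd_var, bd_one]; omega) | simp) sT
        (one_eval x t)]
      exact h q hq hacc
  · rw [holds_not, holds_bF O hE hvi hx _ (by omega) (by first | (simp only [bd_mul, bd_var, bd_one]; omega) | simp) (by first | (simp only [bd_mul, bd_var, bd_one]; omega) | simp) sT
        (one_eval x t)]
  · rw [holds_allS O hE hx (by omega) (by first | (simp only [bd_mul, bd_var, bd_one]; omega) | simp) hx.t0']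
    refine forall_congr' fun n => imp_congr_right fun _ => ?_
    set x2 := update x (2 + C) (t ^ n) with hx2
    have E2 : Env vi p t g x2 := hx.update hvi (by omega) _
    have s2 : (Tm.var (1 + C)).eval x2 = t ^ T := by
      rw [hx2, eval_update (by first | (simp only [bd_mul, bd_var, bd_one]; omega) | simp)]; exact sT
    have r2 : (Tm.var (2 + C)).eval x2 = t ^ n := by rw [eval_var, hx2, Function.update_self]
    have r2' : (Tm.mul T0 (.var (2 + C))).eval x2 = t ^ (n + 1) := by
      rw [eval_mul, r2, E2.t0, pow_succ']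
    rw [holds_andL, List.forall_mem_map]
    simp only [List.mem_filter, Bool.not_eq_true']
    constructor
    · intro h o ho hg
      have := h o ⟨ho, hg⟩
      rwa [holds_not, holds_and,
        holds_bF O hE hvi E2 _ (by omega) (by first | (simp only [bd_mul, bd_var, bd_one]; omega) | simp) (by first | (simp only [bd_mul, bd_var, bd_one]; omega) | simp) s2 r2',
        holds_bF O hE hvi E2 _ (by omega) (by first | (simp only [bd_mul, bd_var, bd_one]; omega) | simp) (by first | (simp only [bd_mul, bd_var, bd_one]; omega) | simp) s2 r2] at this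
    · rintro h o ⟨ho, hg⟩
      rw [holds_not, holds_and,
        holds_bF O hE hvi E2 _ (by omega) (by first | (simp only [bd_mul, bd_var, bd_one]; omega) | simp) (by first | (simp only [bd_mul, bd_var, bd_one]; omega) | simp) s2 r2',
        holds_bF O hE hvi E2 _ (by omega) (by first | (simp only [bd_mul, bd_var, bd_one]; omega) | simp) (by first | (simp only [bd_mul, bd_var, bd_one]; omega) | simp) s2 r2]
      exact h o ho hg
  · rw [holds_allS O hE hx (by omega) (by first | (simp only [bd_mul, bd_var, bd_one]; omega) | simp) (c := 2) (by rw [eval_mul, hx.t0]; ring)]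
    refine forall_congr' fun n => imp_congr_right fun _ => ?_
    set x2 := update x (2 + C) (t ^ n) with hx2
    have E2 : Env vi p t g x2 := hx.update hvi (by omega) _
    have s2 : (Tm.var (1 + C)).eval x2 = t ^ T := by
      rw [hx2, eval_update (by first | (simp only [bd_mul, bd_var, bd_one]; omega) | simp)]; exact sT
    have r2 : (Tm.var (2 + C)).eval x2 = t ^ n := by rw [eval_var, hx2, Function.update_self]
    have r2' : (Tm.mul T0 (.mul T0 (.var (2 + C)))).eval x2 = t ^ (n + 2) := by
      rw [eval_mul, eval_mul, r2, E2.t0]; ring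
    rw [holds_andL, List.forall_mem_map]
    simp only [List.mem_filter]
    constructor
    · intro h o ho hg
      have := h o ⟨ho, hg⟩
      rwa [holds_not, holds_and,
        holds_bF O hE hvi E2 _ (by omega) (by first | (simp only [bd_mul, bd_var, bd_one]; omega) | simp) (by first | (simp only [bd_mul, bd_var, bd_one]; omega) | simp) s2 r2',
        holds_bF O hE hvi E2 _ (by omega) (by first | (simp only [bd_mul, bd_var, bd_one]; omega) | simp) (by first | (simp only [bd_mul, bd_var, bd_one]; omega) | simp) s2 r2] at this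
    · rintro h o ⟨ho, hg⟩
      rw [holds_not, holds_and,
        holds_bF O hE hvi E2 _ (by omega) (by first | (simp only [bd_mul, bd_var, bd_one]; omega) | simp) (by first | (simp only [bd_mul, bd_var, bd_one]; omega) | simp) s2 r2',
        holds_bF O hE hvi E2 _ (by omega) (by first | (simp only [bd_mul, bd_var, bd_one]; omega) | simp) (by first | (simp only [bd_mul, bd_var, bd_one]; omega) | simp) s2 r2]
      exact h o ho hg

include hE hvi in
theorem holds_bodyF [Fact p.Prime] [CharP F p] (hx : Env vi p t g x) {T : ℕ}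
    (hT : x (1 + C) = t ^ T) (y : List Bool) :
    (bodyF D vi C p E y).Holds O x ↔ y.length + T + 3 < p ^ N ∧
      UC D (bitsB vi p N t g) y (p ^ N) T := by
  have hb := bd_pow T0 (y.length + 3)
  simp only [bd_var] at hb
  have sT : (Tm.var (1 + C)).eval x = t ^ T := hT
  have sT' : (Tm.mul (T0.pow (y.length + 3)) (.var (1 + C))).eval x =
      t ^ (y.length + T + 3) := by
    rw [eval_mul, eval_pow, sT, hx.t0, ← pow_add]
    congr 1
    omega
  rw [bodyF, holds_and, holds_and, holds_and, holds_and,
    holds_sF O hE hx (by first | (simp only [bd_mul, bd_var, bd_one]; omega) | simp) (by omega) sT,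
    holds_sF O hE hx (by simp only [bd_mul, bd_var]; omega) (by omega) sT',
    holds_initF O D hE hvi hx, holds_transF O D hE hvi hx, holds_finF O D hE hvi hx hT]
  constructor
  · rintro ⟨_, h2, ⟨h3, h4, h5⟩, h6, h7, h8, h9, h10⟩
    refine ⟨h2, ⟨h3, h4, h5, fun i hi => (h6 i hi).1, fun i hi => (h6 i hi).2.1,
      fun i hi => (h6 i hi).2.2.1, fun i hi j w hw => (h6 i hi).2.2.2 j (by omega) w hw,
      h7, h8, h9, h10⟩⟩
  · rintro ⟨h2, h⟩
    exact ⟨by omega, h2, ⟨h.i1, h.i2, h.i3⟩, fun i hi => ⟨h.t0 i hi, h.t1 i hi, h.t2 i hi,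
      fun j _ w hw => h.t3 i hi j w hw⟩, h.f1, h.f2, h.f3, h.f4⟩

end

end Pool.Agent.H64R2.VF
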