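import Pool.Agent.H64R2.VF.MainF

/-!
# Meaning of the main sentence
-/

namespace Pool.Agent.H64R2.VF

open Pool.Agent.NPC Pool.Agent.NPC.CL Turing
open Function (update)

section
variable {F : Type} [Field F] (O : Set F) {p : ℕ}
variable {Q K A : Type} [DecidableEq K] (D : Tab Q K A)

theorem newPtr_lt {op : Op A} {o : Option A} {h L : ℕ} (hh : h + 1 < L) : newPtr op o h < L := by
  have := newPtr_le op o h
  omega

theorem concl_congr {B B' : Fam Q K A → ℕ → ℕ → Prop} {L : ℕ}
    (hB : ∀ z i j, i < L → j < L → (B z i j ↔ B' z i j)) {q : Q} {o : Option A} {i h : ℕ}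
    (hi : i + 1 < L) (hh : h + 1 < L) (hc : Concl D B q o i h) : Concl D B' q o i h :=
  ⟨(hB _ _ _ hi (by omega)).1 hc.1, (hB _ _ _ hi (newPtr_lt hh)).1 hc.2.1,
    fun a ha => (hB _ _ _ hi (by omega)).1 (hc.2.2 a ha)⟩

theorem uc_congr {B B' : Fam Q K A → ℕ → ℕ → Prop} {y : List Bool} {L T : ℕ}
    (hB : ∀ z i j, i < L → j < L → (B z i j ↔ B' z i j)) (hL : y.length + T + 3 < L)
    (h : UC D B y L T) : UC D B' y L T := by
  constructor
  · exact (hB _ _ _ (by omega) (by omega)).1 h.i1
  · intro k hk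
    exact (hB _ _ _ (by omega) (by split_ifs <;> omega)).1 (h.i2 k hk)
  · intro e he
    have h1 : e.2 < y.length := by
      have := List.snd_lt_of_mem_zipIdx he
      simpa using this
    exact (hB _ _ _ (by omega) (by omega)).1 (h.i3 e he)
  · intro i hi q hq h1 h2
    exact concl_congr D hB hi (by omega) (h.t0 i hi q hq ((hB _ _ _ (by omega) (by omega)).2 h1)
      ((hB _ _ _ (by omega) (by omega)).2 h2))
  · intro i hi n hn q hq o ho h1 h2 h3
    exact concl_congr D hB hi (by omega) (h.t1 i hi n hn q hq o ho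
      ((hB _ _ _ (by omega) (by omega)).2 h1) ((hB _ _ _ (by omega) (by omega)).2 h2)
      ((hB _ _ _ (by omega) (by omega)).2 h3))
  · intro i hi m hm q hq k hk hne h1 h2
    exact (hB _ _ _ (by omega) (by omega)).1 (h.t2 i hi m hm q hq k hk hne
      ((hB _ _ _ (by omega) (by omega)).2 h1) ((hB _ _ _ (by omega) (by omega)).2 h2))
  · intro i hi j w hw hw0 k hk o ho h1 h2
    exact (hB _ _ _ (by omega) (by omega)).1 (h.t3 i hi j w hw hw0 k hk o ho
      ((hB _ _ _ (by omega) (by omega)).2 h1) ((hB _ _ _ (by omega) (by omega)).2 h2))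
  · intro q hq hacc hb
    exact h.f1 q hq hacc ((hB _ _ _ (by omega) (by omega)).2 hb)
  · intro hb
    exact h.f2 ((hB _ _ _ (by omega) (by omega)).2 hb)
  · rintro n hn o ho hg ⟨h1, h2⟩
    exact h.f3 n hn o ho hg ⟨(hB _ _ _ (by omega) (by omega)).2 h1,
      (hB _ _ _ (by omega) (by omega)).2 h2⟩
  · rintro n hn o ho hg ⟨h1, h2⟩
    exact h.f4 n hn o ho hg ⟨(hB _ _ _ (by omega) (by omega)).2 h1,
      (hB _ _ _ (by omega) (by omega)).2 h2⟩

variable (vi : Fam Q K A → ℕ) (C : ℕ) {E : Gen} {N : ℕ} (hE : IsE O p N E)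
  (hvi : ∀ z, vi z < C) (hinj : Function.Injective vi)

include hE hvi hinj in
theorem holds_mainF [hp : Fact p.Prime] [CharP F p] (x : ℕ → F) (y : List Bool) :
    (mainF D vi C p E y).Holds O x ↔
      ∃ t : F, Good p t ∧ ∃ T, y.length + T + 3 < p ^ N ∧ ∃ B, UC D B y (p ^ N) T := by
  have env : ∀ (t : F) (g : ℕ → F) (ν : F), Good p t → Env vi p t g
      (update (fun v => if 1 ≤ v ∧ v < 1 + C then g v else update x 0 t v) (1 + C) ν) := by
    intro t g ν ht
    refine ⟨ht, ?_, fun z => ?_⟩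
    · rw [Function.update_of_ne (by omega)]
      simp
    · have := hvi z
      rw [Function.update_of_ne (by omega)]
      rw [if_pos (by omega)]
  rw [mainF, holds_ex]
  refine exists_congr fun t => ?_
  rw [holds_and, holds_goodF, Function.update_self]
  refine and_congr_right fun ht => ?_
  rw [holds_exs]
  constructor
  · rintro ⟨g, ν, h⟩
    have hx := env t g ν ht
    have h1 := h.1
    have hg : Good p (update (fun v => if 1 ≤ v ∧ v < 1 + C then g v else update x 0 t v)
        (1 + C) ν 0) := by rw [hx.h0]; exact ht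
    rw [sF, hE _ _ _ _ _ (by simp only [bd_var]; omega) (by simp) (by simp only [bd_var]; omega)
      (by omega) hg, eval_one, hx.h0] at h1
    obtain ⟨T, _, hT⟩ := EE_self.1 h1
    rw [holds_bodyF O D hE hvi hx hT] at h
    exact ⟨T, h.1, _, h.2⟩
  · rintro ⟨T, hT, B, hB⟩
    choose code hcode using fun z => ht.exists_array N (B z)
    set g : ℕ → F := Function.extend (fun z => 1 + vi z) code (fun _ => 0) with hgdef
    have hg : ∀ z, g (1 + vi z) = code z := by
      intro z
      rw [hgdef]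
      exact Function.Injective.extend_apply (f := fun z => 1 + vi z)
        (fun a b hab => hinj (by simpa using hab)) _ _ z
    have hx := env t g (t ^ T) ht
    refine ⟨g, t ^ T, ?_⟩
    rw [holds_bodyF O D hE hvi hx (by rw [Function.update_self])]
    refine ⟨hT, uc_congr D ?_ hT hB⟩
    intro z i j hi hj
    rw [bitsB, hg z]
    exact (hcode z i hi j hj).symm

/-- the sentence is equivalent to acceptance -/
theorem holds_mainF_iff [hp : Fact p.Prime] [CharP F p] {t : F} (ht : Good p t)
    (hE : IsE O p N E) (hvi : ∀ z, vi z < C) (hinj : Function.Injective vi)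
    (hqs : ∀ q, q ∈ D.qs) (hks : ∀ k, k ∈ D.ks) (hos : ∀ o, o ∈ D.os) (x : ℕ → F)
    (y : List Bool) :
    (mainF D vi C p E y).Holds O x ↔
      ∃ T, y.length + T + 3 < p ^ N ∧ Accepts D (run D 0 y [] T) := by
  rw [holds_mainF O D vi C hE hvi hinj]
  constructor
  · rintro ⟨_, _, T, hT, B, hB⟩
    obtain ⟨w, hw, h⟩ := formula_complete hqs hks hos (holds_of_uc hB hT)
    rw [Nat.le_zero, List.length_eq_zero_iff] at hw
    subst hw
    exact ⟨T, hT, h⟩
  · rintro ⟨T, hT, h⟩
    exact ⟨t, ht, T, hT, _, uc_of_accepts D y _ T h⟩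

end

end Pool.Agent.H64R2.VF
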