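import Pool.Agent.H64R2.VF.Form
import Pool.Agent.NPC.CookLevin3

/-!
# Runs of Turing machines as two-dimensional arrays of bits
-/

namespace Pool.Agent.H64R2.VF

open Pool.Agent.NPC Pool.Agent.NPC.CL Turing

section
variable {Q K A : Type} [DecidableEq K]

/-- the arrays: states; pointers of the stacks; contents of the cells of the stacks -/
abbrev Fam (Q K A : Type) := Q ⊕ (K ⊕ (K × Option A))

variable (D : Tab Q K A) (B : Fam Q K A → ℕ → ℕ → Prop)

/-- effect of a step at time `i` from state `q`, with pointer `h`, when `o` is read -/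
def Concl (q : Q) (o : Option A) (i h : ℕ) : Prop :=
  B (.inl (D.M.δ q o).1) (i + 1) 0 ∧
  B (.inr (.inl (D.M.κ q))) (i + 1) (newPtr (D.M.δ q o).2 o h) ∧
  ∀ a, (D.M.δ q o).2 = Op.push a → B (.inr (.inr (D.M.κ q, some a))) (i + 1) h

/-- the conditions on the arrays, restricted to indices `< L` -/
structure UC (y : List Bool) (L N : ℕ) : Prop where
  i1 : B (.inl D.q₀) 0 0
  i2 : ∀ k ∈ D.ks, B (.inr (.inl k)) 0 (if k = D.k₀ then y.length else 0)
  i3 : ∀ e ∈ y.reverse.zipIdx, B (.inr (.inr (D.k₀, some (D.sym e.1)))) 0 e.2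
  t0 : ∀ i, i + 1 < L → ∀ q ∈ D.qs, B (.inl q) i 0 → B (.inr (.inl (D.M.κ q))) i 0 →
    Concl D B q none i 0
  t1 : ∀ i, i + 1 < L → ∀ n, n + 2 < L → ∀ q ∈ D.qs, ∀ o ∈ D.os, B (.inl q) i 0 →
    B (.inr (.inl (D.M.κ q))) i (n + 1) → B (.inr (.inr (D.M.κ q, o))) i n →
    Concl D B q o i (n + 1)
  t2 : ∀ i, i + 1 < L → ∀ h, h + 1 < L → ∀ q ∈ D.qs, ∀ k ∈ D.ks, k ≠ D.M.κ q →
    B (.inl q) i 0 → B (.inr (.inl k)) i h → B (.inr (.inl k)) (i + 1) h
  t3 : ∀ i, i + 1 < L → ∀ j w, w + j < L → w ≠ 0 → ∀ k ∈ D.ks, ∀ o ∈ D.os,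
    B (.inr (.inl k)) i (w + j) → B (.inr (.inr (k, o))) i j → B (.inr (.inr (k, o))) (i + 1) j
  f1 : ∀ q ∈ D.qs, D.acc q = false → ¬ B (.inl q) N 0
  f2 : ¬ B (.inr (.inl D.k₁)) N 0
  f3 : ∀ n, n + 1 < L → ∀ o ∈ D.os, D.good o = false →
    ¬ (B (.inr (.inl D.k₁)) N (n + 1) ∧ B (.inr (.inr (D.k₁, o))) N n)
  f4 : ∀ n, n + 2 < L → ∀ o ∈ D.os, o.isSome = true →
    ¬ (B (.inr (.inl D.k₁)) N (n + 2) ∧ B (.inr (.inr (D.k₁, o))) N n)

/-- the arrays of a run -/
def runB (R : ℕ → Cf Q K A) : Fam Q K A → ℕ → ℕ → Prop
  | .inl q, i, _ => (R i).q = q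
  | .inr (.inl k), i, h => (R i).h k = h
  | .inr (.inr (k, o)), i, j => (R i).m k j = o

theorem uc_of_accepts (y : List Bool) (L N : ℕ) (h : Accepts D (run D 0 y [] N)) :
    UC D (runB (run D 0 y [])) y L N := by
  have hstep := run_succ D 0 y []
  have hread : ∀ (i h : ℕ) (q : Q) (o : Option A), (run D 0 y [] i).q = q →
      (run D 0 y [] i).h (D.M.κ q) = h → (run D 0 y [] i).read (D.M.κ q) = o →
      Concl D (runB (run D 0 y [])) q o i h := by
    intro i h q o h1 h2 h3
    refine ⟨?_, ?_, ?_⟩
    · simp only [runB]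
      rw [hstep, NM.step, h1, h3]
    · simp only [runB]
      rw [hstep, NM.step, h1, h3]
      simp only [Function.update_self]
      rw [h2]
    · intro a ha
      simp only [runB]
      rw [hstep, NM.step, h1, h3]
      simp only [Function.update_self]
      rw [ha, h2]
      simp [newMem]
  constructor
  · rfl
  · intro k _
    simp [runB, run, init]
  · intro e he
    obtain ⟨b, i⟩ := e
    have hbi' := List.mem_zipIdx_iff_getElem?.1 he
    simp only at hbi'
    simp only [runB]
    change (init D 0 y []).m D.k₀ i = _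
    simp only [init, if_true, List.append_nil, List.length_nil, Nat.sub_zero, List.replicate_zero,
      List.nil_append]
    rw [← List.map_reverse, List.getElem?_map, hbi']
    rfl
  · intro i _ q _ h1 h2
    refine hread i 0 q none h1 h2 ?_
    simp only [runB] at h1 h2
    rw [Cf.read, h2]
  · intro i _ n _ q _ o _ h1 h2 h3
    refine hread i (n + 1) q o h1 h2 ?_
    simp only [runB] at h1 h2 h3
    rw [Cf.read, h2]
    exact h3
  · intro i _ h _ q _ k _ hk h1 h2
    simp only [runB] at h1 h2 ⊢
    rw [hstep, NM.step, h1]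
    simp only
    rw [Function.update_of_ne hk, h2]
  · intro i _ j w _ hw k _ o _ h1 h2
    simp only [runB] at h1 h2 ⊢
    rw [hstep, step_mem_below _ _ _ _ (by omega), h2]
  · intro q _ hq hb
    simp only [runB] at hb
    have := h.1
    rw [hb, hq] at this
    cases this
  · intro hb
    simp only [runB] at hb
    obtain ⟨_, n, hn, _⟩ := h
    omega
  · rintro n _ o _ ho ⟨hb, hc⟩
    simp only [runB] at hb hc
    obtain ⟨_, n', hn, hg, _⟩ := h
    have : n = n' := by omega
    subst this
    rw [hc, ho] at hg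
    cases hg
  · rintro n _ o _ ho ⟨hb, hc⟩
    simp only [runB] at hb hc
    obtain ⟨_, n', hn, _, hg⟩ := h
    have := hg n (by omega)
    rw [hc] at this
    subst this
    simp at ho

open Classical in
/-- the assignment given by arrays -/
noncomputable def asgB : Var Q K A → Bool
  | .st t q => decide (B (.inl q) t 0)
  | .hp t k h => decide (B (.inr (.inl k)) t h)
  | .ce t k j o => decide (B (.inr (.inr (k, o))) t j)

@[simp] theorem asgB_st (t q) : asgB B (.st t q) = true ↔ B (.inl q) t 0 := by simp [asgB]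
@[simp] theorem asgB_hp (t k h) : asgB B (.hp t k h) = true ↔ B (.inr (.inl k)) t h := by
  simp [asgB]
@[simp] theorem asgB_ce (t k j o) : asgB B (.ce t k j o) = true ↔ B (.inr (.inr (k, o))) t j := by
  simp [asgB]

variable {D B}

theorem rd_of_concl {t h : ℕ} {q : Q} {o : Option A} {ps : List (Var Q K A)}
    (hc : (B (.inl q) t 0 → B (.inr (.inl (D.M.κ q))) t h → (∀ p ∈ ps, asgB B p = true) →
      Concl D B q o t h)) : Holds (asgB B) (rdClauses D t q h ps o) := by
  have key : (∀ p ∈ (Var.st t q :: Var.hp t (D.M.κ q) h :: ps), asgB B p = true) →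
      Concl D B q o t h := by
    intro h0
    refine hc ?_ ?_ (fun p hp => h0 p (by simp [hp]))
    · have := h0 (Var.st t q) (by simp)
      rwa [asgB_st] at this
    · have := h0 (Var.hp t (D.M.κ q) h) (by simp)
      rwa [asgB_hp] at this
  intro c hc'
  rw [rdClauses, List.mem_cons, List.mem_cons] at hc'
  rcases hc' with rfl | rfl | hc'
  · rw [CL.holds_imp]
    intro h0
    rw [asgB_st]
    exact (key h0).1
  · rw [CL.holds_imp]
    intro h0
    rw [asgB_hp]
    exact (key h0).2.1
  · cases hop : (D.M.δ q o).2 with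
    | keep => rw [hop] at hc'; simp at hc'
    | pop => rw [hop] at hc'; simp at hc'
    | push a =>
      rw [hop] at hc'
      simp only [List.mem_singleton] at hc'
      subst hc'
      rw [CL.holds_imp]
      intro h0
      rw [asgB_ce]
      exact (key h0).2.2 a hop

theorem holds_of_uc {y : List Bool} {L N : ℕ} (h : UC D B y L N) (hL : y.length + N + 3 < L) :
    Holds (asgB B) (formula D 0 y N) := by
  rw [formula, Holds.append_iff, Holds.append_iff]
  refine ⟨?_, ?_, ?_⟩
  · intro c hc
    rw [inClauses, List.mem_cons, List.mem_append, List.mem_append, List.mem_append] at hc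
    rcases hc with rfl | hc | hc | hc | hc
    · exact holds_singleton (by rw [asgB_st]; exact h.i1)
    · rw [List.mem_map] at hc
      obtain ⟨k, hk, rfl⟩ := hc
      refine holds_singleton ?_
      rw [asgB_hp, zero_add]
      exact h.i2 k hk
    · rw [List.mem_map] at hc
      obtain ⟨e, he, rfl⟩ := hc
      refine holds_singleton ?_
      rw [asgB_ce, zero_add]
      exact h.i3 e he
    · simp at hc
    · simp at hc
  · intro c hc
    rw [List.mem_flatMap] at hc
    obtain ⟨t, ht, hc⟩ := hc
    rw [List.mem_flatMap] at hc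
    obtain ⟨m, hm, hc⟩ := hc
    rw [List.mem_range] at ht hm
    rw [tClauses, List.mem_append] at hc
    rcases hc with hc | hc
    · rw [List.mem_flatMap] at hc
      obtain ⟨q, hq, hc⟩ := hc
      rw [List.mem_append] at hc
      rcases hc with hc | hc
      · cases m with
        | zero =>
          exact rd_of_concl (fun h1 h2 _ => h.t0 t (by omega) q hq h1 h2) c hc
        | succ n =>
          rw [trClauses, List.mem_flatMap] at hc
          obtain ⟨o, ho, hc⟩ := hc
          refine rd_of_concl (fun h1 h2 h3 => h.t1 t (by omega) n (by omega) q hq o ho h1 h2 ?_)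
            c hc
          have := h3 _ (List.mem_singleton_self _)
          rwa [asgB_ce] at this
      · rw [fpClauses, List.mem_map] at hc
        obtain ⟨k, hk, rfl⟩ := hc
        rw [List.mem_filter] at hk
        have hk' := of_decide_eq_true hk.2
        rw [CL.holds_imp]
        intro h0
        have h1 := h0 (Var.st t q) (by simp)
        have h2 := h0 (Var.hp t k m) (by simp)
        rw [asgB_st] at h1
        rw [asgB_hp] at h2
        rw [asgB_hp]
        exact h.t2 t (by omega) m (by omega) q hq k hk.1 hk' h1 h2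
    · rw [fmClauses, List.mem_flatMap] at hc
      obtain ⟨j, hj, hc⟩ := hc
      rw [List.mem_flatMap] at hc
      obtain ⟨k, hk, hc⟩ := hc
      rw [List.mem_map] at hc
      obtain ⟨o, ho, rfl⟩ := hc
      rw [List.mem_range] at hj
      rw [CL.holds_imp]
      intro h0
      have h1 := h0 (Var.hp t k m) (by simp)
      have h2 := h0 (Var.ce t k j o) (by simp)
      rw [asgB_hp] at h1
      rw [asgB_ce] at h2
      rw [asgB_ce]
      have e : m - j + j = m := by omega
      exact h.t3 t (by omega) j (m - j) (by omega) (by omega) k hk o ho (by rwa [e]) h2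
  · intro c hc
    rw [fiClauses, List.mem_append, List.mem_append, List.mem_append] at hc
    rcases hc with hc | hc | hc | hc
    · rw [List.mem_map] at hc
      obtain ⟨q, hq, rfl⟩ := hc
      rw [List.mem_filter] at hq
      rw [CL.holds_forb]
      intro h0
      have := h0 _ (List.mem_singleton_self _)
      rw [asgB_st] at this
      exact h.f1 q hq.1 (by simpa using hq.2) this
    · rw [List.mem_singleton] at hc
      subst hc
      rw [CL.holds_forb]
      intro h0
      have := h0 _ (List.mem_singleton_self _)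
      rw [asgB_hp] at this
      exact h.f2 this
    · rw [List.mem_flatMap] at hc
      obtain ⟨m, hm, hc⟩ := hc
      rw [List.mem_map] at hc
      obtain ⟨o, ho, rfl⟩ := hc
      rw [List.mem_filter] at ho
      rw [List.mem_range] at hm
      rw [CL.holds_forb]
      intro h0
      have e1 := h0 (Var.hp N D.k₁ (m + 1)) (by simp)
      have e2 := h0 (Var.ce N D.k₁ m o) (by simp)
      rw [asgB_hp] at e1
      rw [asgB_ce] at e2
      exact h.f3 m (by omega) o ho.1 (by simpa using ho.2) ⟨e1, e2⟩
    · rw [List.mem_flatMap] at hc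
      obtain ⟨m, hm, hc⟩ := hc
      rw [List.mem_map] at hc
      obtain ⟨o, ho, rfl⟩ := hc
      rw [List.mem_filter] at ho
      rw [List.mem_range] at hm
      rw [CL.holds_forb]
      intro h0
      have e1 := h0 (Var.hp N D.k₁ (m + 2)) (by simp)
      have e2 := h0 (Var.ce N D.k₁ m o) (by simp)
      rw [asgB_hp] at e1
      rw [asgB_ce] at e2
      exact h.f4 m (by omega) o ho.1 ho.2 ⟨e1, e2⟩

end

/-! ### Turing machines -/

section
variable (tm : FinTM2) (inE : tm.Γ tm.k₀ ≃ Bool) (outE : tm.Γ tm.k₁ ≃ Bool)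

theorem accepts_persist (y : List Bool) (N : ℕ)
    (h : Accepts (tab tm inE outE) (run (tab tm inE outE) 0 y [] N)) :
    ∀ d, run (tab tm inE outE) 0 y [] (N + d) = run (tab tm inE outE) 0 y [] N := by
  intro d
  induction d with
  | zero => rfl
  | succ d ih =>
    rw [← add_assoc, run_succ, ih]
    have h1 := h.1
    generalize run (tab tm inE outE) 0 y [] N = c at h1 ⊢
    have h2 : c.q.1 = none := by
      have : (c.q.1).isNone = true := h1
      simpa using this
    have h3 : (tab tm inE outE).M.δ c.q (c.read ((tab tm inE outE).M.κ c.q)) =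
        ((none, c.q.2), Op.keep) := by
      change (nm tm).δ c.q _ = _
      simp only [nm]
      rw [h2]
    rw [NM.step, h3]
    have h4 : (none, c.q.2) = c.q := Prod.ext h2.symm rfl
    simp only [newPtr, newMem, Function.update_eq_self, h4]

/-- acceptance means output `[true]` -/
theorem accepts_iff_output (V : List Bool → List Bool) (T N : ℕ) (y : List Bool)
    (hV : TM2OutputsInTime tm (List.map inE.invFun (id y))
      (some (List.map outE.invFun (id (V y)))) T) :
    (Accepts (tab tm inE outE) (run (tab tm inE outE) 0 y [] N) → V y = [true]) ∧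
    (T * maxDepth tm ≤ N → V y = [true] →
      Accepts (tab tm inE outE) (run (tab tm inE outE) 0 y [] N)) := by
  have key : ∀ N', T * maxDepth tm ≤ N' →
      (V y = [true] ↔ Accepts (tab tm inE outE) (run (tab tm inE outE) 0 y [] N')) := by
    intro N' hN'
    have h := tab_correct tm inE outE V T N' 0 y [] (by simp) (by simpa using hV) hN'
    simpa using h
  refine ⟨fun h => ?_, fun hN h => (key N hN).1 h⟩
  rw [key (N + T * maxDepth tm) (by omega), accepts_persist tm inE outE y N h]
  exact h

end

end Pool.Agent.H64R2.VF
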