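import Pool.Agent.H64R2.VF.UDefs

/-!
# `𝔽_p((t)) = G ⊕ 𝔽_p`
-/

namespace Pool.Agent.H64R2.VF

namespace U1

variable {p : ℕ} [hp : Fact p.Prime]

theorem GG_single {m : ℤ} (hm : m ≠ 0) (e : ZMod p) :
    GG p (HahnSeries.single (1 : ℤ) (1 : ZMod p) : LaurentSeries (ZMod p))
      (HahnSeries.single m e : LaurentSeries (ZMod p)) := by
  have h0 : (HahnSeries.single (1 : ℤ) (1 : ZMod p) : LaurentSeries (ZMod p)) ≠ 0 :=
    HahnSeries.single_ne_zero one_ne_zero
  have h1 := GG_sum (p := p) (t := (HahnSeries.single (1 : ℤ) (1 : ZMod p) : LaurentSeries (ZMod p)))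
    (Finset.range e.val) (fun _ => (HahnSeries.single (1 : ℤ) (1 : ZMod p) : LaurentSeries (ZMod p)) ^ m)
    (fun _ _ => GG_zpow h0 hm)
  convert h1 using 1
  rw [Finset.sum_const, Finset.card_range, ← RatFunc.single_zpow, nsmul_eq_mul]
  ext n
  rw [← map_natCast (HahnSeries.C : ZMod p →+* LaurentSeries (ZMod p)), HahnSeries.C_mul_eq_smul,
    HahnSeries.coeff_smul, ZMod.natCast_zmod_val, HahnSeries.coeff_single, HahnSeries.coeff_single]
  split_ifs <;> simp

/-- the solution of `d^p - d = y`, coefficientwise -/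
noncomputable def dd (p : ℕ) (y : ℕ → ZMod p) : ℕ → ZMod p
  | 0 => 0
  | n + 1 => (if h : p ∣ (n + 1) ∧ 1 < p then
      (have : (n + 1) / p < n + 1 := Nat.div_lt_self (Nat.succ_pos n) h.2
       dd p y ((n + 1) / p)) else 0) - y (n + 1)

theorem dd_eq (y : ℕ → ZMod p) {n : ℕ} (hn : n ≠ 0) :
    dd p y n = (if p ∣ n then dd p y (n / p) else 0) - y n := by
  obtain ⟨k, rfl⟩ := Nat.exists_eq_succ_of_ne_zero hn
  rw [Nat.succ_eq_add_one, dd]
  by_cases h : p ∣ k + 1
  · rw [dif_pos ⟨h, hp.out.one_lt⟩, if_pos h]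
  · rw [dif_neg (fun h' => h h'.1), if_neg h]

theorem ofPS_coeff_neg (f : PowerSeries (ZMod p)) {n : ℤ} (hn : n < 0) :
    (HahnSeries.ofPowerSeries ℤ (ZMod p) f).coeff n = 0 := by
  rw [HahnSeries.ofPowerSeries_apply]
  apply HahnSeries.embDomain_of_notMem_range
  rintro ⟨k, hk⟩
  simp at hk
  omega

theorem GG_pos (y : LaurentSeries (ZMod p)) (hy : ∀ n : ℤ, n ≤ 0 → y.coeff n = 0) :
    GG p (HahnSeries.single (1 : ℤ) (1 : ZMod p) : LaurentSeries (ZMod p)) y := by
  have h := GG_frob (p := p)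
    (t := (HahnSeries.single (1 : ℤ) (1 : ZMod p) : LaurentSeries (ZMod p)))
    (HahnSeries.ofPowerSeries ℤ (ZMod p) (PowerSeries.mk (dd p fun n => y.coeff n)))
  convert h using 1
  ext n
  rw [HahnSeries.coeff_sub, Laur.coeff_pow]
  have hp0 : (0 : ℤ) < p := by exact_mod_cast hp.out.pos
  rcases lt_trichotomy n 0 with hn | rfl | hn
  · rw [hy n hn.le, ofPS_coeff_neg _ hn, sub_zero]
    split_ifs with h
    · rw [ofPS_coeff_neg]
      obtain ⟨l, rfl⟩ := h
      rw [Int.mul_ediv_cancel_left l hp0.ne']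
      exact neg_of_mul_neg_right hn hp0.le
    · rfl
  · rw [hy 0 le_rfl, if_pos (dvd_zero _), Int.zero_ediv, sub_self]
  · obtain ⟨k, rfl⟩ := Int.eq_ofNat_of_zero_le hn.le
    have hk : k ≠ 0 := by rintro rfl; simp at hn
    have e1 : ∀ j : ℕ, (HahnSeries.ofPowerSeries ℤ (ZMod p)
        (PowerSeries.mk (dd p fun n => y.coeff n))).coeff ((j : ℕ) : ℤ) =
        dd p (fun n => y.coeff n) j := by
      intro j
      rw [HahnSeries.ofPowerSeries_apply_coeff, PowerSeries.coeff_mk]
    rw [e1, dd_eq _ hk]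
    by_cases h : p ∣ k
    · rw [if_pos h, if_pos (by exact_mod_cast h)]
      have e2 : ((k : ℤ) / (p : ℤ)) = ((k / p : ℕ) : ℤ) := by push_cast; rfl
      rw [e2, e1]
      ring
    · rw [if_neg h, if_neg (by exact_mod_cast h)]
      ring

theorem GG_zero_coeff (z : LaurentSeries (ZMod p)) (hz : z.coeff 0 = 0) :
    GG p (HahnSeries.single (1 : ℤ) (1 : ZMod p) : LaurentSeries (ZMod p)) z := by
  set P : LaurentSeries (ZMod p) := ∑ m ∈ Finset.Ico z.order 0, HahnSeries.single m (z.coeff m)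
    with hP
  have h1 : GG p (HahnSeries.single (1 : ℤ) (1 : ZMod p) : LaurentSeries (ZMod p)) P := by
    rw [hP]
    refine GG_sum _ _ fun m hm => GG_single ?_ _
    have := (Finset.mem_Ico.mp hm).2
    omega
  have hPc : ∀ n : ℤ, P.coeff n = if n ∈ Finset.Ico z.order 0 then z.coeff n else 0 := by
    intro n
    rw [hP, HahnSeries.coeff_sum]
    split_ifs with h
    · rw [Finset.sum_eq_single_of_mem n h, HahnSeries.coeff_single_same]
      intro m _ hm
      exact HahnSeries.coeff_single_of_ne hm.symm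
    · refine Finset.sum_eq_zero fun m hm => HahnSeries.coeff_single_of_ne ?_
      rintro rfl
      exact h hm
  have h2 : GG p (HahnSeries.single (1 : ℤ) (1 : ZMod p) : LaurentSeries (ZMod p)) (z - P) := by
    refine GG_pos _ fun n hn => ?_
    rw [HahnSeries.coeff_sub, hPc]
    split_ifs with h
    · rw [sub_self]
    · rw [sub_zero]
      rcases hn.lt_or_eq with h3 | rfl
      · rw [Finset.mem_Ico, not_and_or] at h
        refine HahnSeries.coeff_eq_zero_of_lt_order ?_
        rcases h with h | h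
        · exact not_le.mp h
        · exact absurd h3 h
      · exact hz
  have h3 := GG_add h2 h1
  rwa [sub_add_cancel] at h3

end U1

/-- every element is the sum of an element of `G` and an integer `e < p` -/
theorem good2_laurent (p : ℕ) [hp : Fact p.Prime] :
    Good2 p (HahnSeries.single (1 : ℤ) (1 : ZMod p) : LaurentSeries (ZMod p)) := by
  refine ⟨good_laurent p, fun x => ⟨(x.coeff 0).val, ZMod.val_lt _, U1.GG_zero_coeff _ ?_⟩⟩
  rw [HahnSeries.coeff_sub, ← map_natCast (HahnSeries.C : ZMod p →+* LaurentSeries (ZMod p)),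
    HahnSeries.C_apply, HahnSeries.coeff_single_same, ZMod.natCast_zmod_val, sub_self]

end Pool.Agent.H64R2.VF
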