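import Pool.Agent.H64R2.VF.UDefs

/-!
# Subsets of a finite set are coded by one element
-/

namespace Pool.Agent.H64R2.VF

section
variable {K : Type} [Field K] {p : ℕ} {t : K} [hp : Fact p.Prime] [CharP K p]

theorem Good2.cast_eq (ht : Good2 p t) {a b : ℕ} (ha : a < p) (hb : b < p)
    (h : GG p t ((a : K) - b)) : a = b := by
  by_contra hne
  apply ht.1.2
  have key : ∀ n : ℕ, GG p t ((n : K) * ((a : K) - b)) := by
    intro n
    induction n with
    | zero => simpa using GG_zero
    | succ n ih =>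
      have := GG_add ih h
      convert this using 1
      push_cast
      ring
  have h1 : (a : ZMod p) - b ≠ 0 := by
    intro h2
    have h3 : (a : ZMod p) = b := sub_eq_zero.1 h2
    rw [ZMod.natCast_eq_natCast_iff'] at h3
    rw [Nat.mod_eq_of_lt ha, Nat.mod_eq_of_lt hb] at h3
    exact hne h3
  have h2 := key (((a : ZMod p) - b)⁻¹).val
  convert h2 using 1
  have h3 : (((((a : ZMod p) - b)⁻¹).val : ℕ) : ZMod p) * ((a : ZMod p) - b) = 1 := by
    rw [ZMod.natCast_zmod_val]
    exact inv_mul_cancel₀ h1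
  have h4 := congrArg (ZMod.castHom (dvd_refl p) K) h3
  rw [map_mul, map_one, map_sub, map_natCast, map_natCast, map_natCast] at h4
  exact h4.symm

/-- the class of `x` modulo `G` -/
noncomputable def lamN (ht : Good2 p t) (x : K) : ℕ := (ht.2 x).choose

theorem lamN_lt (ht : Good2 p t) (x : K) : lamN ht x < p := (ht.2 x).choose_spec.1

theorem lamN_spec (ht : Good2 p t) (x : K) : GG p t (x - (lamN ht x : K)) :=
  (ht.2 x).choose_spec.2

theorem GG_cast_mod {x : K} {n : ℕ} (h : GG p t (x - (n : K))) : GG p t (x - ((n % p : ℕ) : K)) := by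
  have h1 : ((n % p : ℕ) : K) = (n : K) := by
    have h2 : ((n % p + p * (n / p) : ℕ) : K) = (n : K) := by
      rw [Nat.mod_add_div]
    rw [← h2]
    push_cast
    rw [CharP.cast_eq_zero K p]
    ring
  rwa [h1]

theorem lamN_eq (ht : Good2 p t) {x : K} {n : ℕ} (h : GG p t (x - (n : K))) :
    lamN ht x = n % p := by
  refine ht.cast_eq (lamN_lt ht x) (Nat.mod_lt _ hp.out.pos) ?_
  have h1 := GG_sub (GG_cast_mod h) (lamN_spec ht x)
  convert h1 using 1
  ring

/-- the class of `x` modulo `G`, as an additive map -/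
noncomputable def lam (ht : Good2 p t) : K →+ ZMod p where
  toFun x := (lamN ht x : ZMod p)
  map_zero' := by
    rw [lamN_eq ht (x := 0) (n := 0) (by simpa using GG_zero)]
    simp
  map_add' x y := by
    have h1 : GG p t (x + y - ((lamN ht x + lamN ht y : ℕ) : K)) := by
      convert GG_add (lamN_spec ht x) (lamN_spec ht y) using 1
      push_cast
      ring
    rw [lamN_eq ht h1]
    rw [ZMod.natCast_mod]
    push_cast
    rfl

theorem lam_one (ht : Good2 p t) : lam ht 1 = 1 := by
  change ((lamN ht 1 : ℕ) : ZMod p) = 1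
  rw [lamN_eq ht (x := 1) (n := 1) (by simpa using GG_zero)]
  rw [ZMod.natCast_mod]
  simp

theorem lam_eq_zero (ht : Good2 p t) (x : K) : lam ht x = 0 ↔ GG p t x := by
  change ((lamN ht x : ℕ) : ZMod p) = 0 ↔ _
  constructor
  · intro h
    rw [ZMod.natCast_eq_zero_iff] at h
    have h0 : lamN ht x = 0 := Nat.eq_zero_of_dvd_of_lt h (lamN_lt ht x)
    have := lamN_spec ht x
    rw [h0] at this
    simpa using this
  · intro h
    rw [lamN_eq ht (x := x) (n := 0) (by simpa using h)]
    simp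

/-- for suitable `c` the elements `1/(c-s)` are linearly independent over `𝔽_p` -/
theorem exists_indep [Infinite K] (S : Finset K) :
    ∃ c, c ∉ S ∧ ∀ β : K → ZMod p, (∃ s ∈ S, β s ≠ 0) →
      ∑ s ∈ S, (ZMod.castHom (dvd_refl p) K (β s)) * (c - s)⁻¹ ≠ 0 := by
  classical
  set φ : ZMod p →+* K := ZMod.castHom (dvd_refl p) K with hφ
  have hφi : Function.Injective φ := φ.injective
  -- polynomials
  let P : (S → ZMod p) → Polynomial K := fun β =>
    ∑ s : S, Polynomial.C (φ (β s)) * ∏ s' ∈ S.erase (s : K), (Polynomial.X - Polynomial.C s')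
  have hP : ∀ β : S → ZMod p, β ≠ 0 → P β ≠ 0 := by
    intro β hβ h0
    obtain ⟨s, hs⟩ := Function.ne_iff.1 hβ
    have h1 : (P β).eval (s : K) = 0 := by rw [h0]; simp
    simp only [P] at h1
    rw [Polynomial.eval_finsetSum, Finset.sum_eq_single s] at h1
    · rw [Polynomial.eval_mul, Polynomial.eval_C, Polynomial.eval_prod] at h1
      rcases mul_eq_zero.1 h1 with h2 | h2
      · exact hs (by simpa using hφi (h2.trans (map_zero φ).symm))
      · rw [Finset.prod_eq_zero_iff] at h2
        obtain ⟨s', hs', h3⟩ := h2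
        rw [Finset.mem_erase] at hs'
        simp only [Polynomial.eval_sub, Polynomial.eval_X, Polynomial.eval_C] at h3
        exact hs'.1 (sub_eq_zero.1 h3).symm
    · intro s' _ hne
      rw [Polynomial.eval_mul, Polynomial.eval_prod]
      have : ∏ x ∈ S.erase (s' : K), Polynomial.eval (s : K) (Polynomial.X - Polynomial.C x) = 0 := by
        apply Finset.prod_eq_zero (i := (s : K))
        · rw [Finset.mem_erase]
          exact ⟨fun h => hne (Subtype.ext h.symm), s.2⟩
        · simp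
      rw [this, mul_zero]
    · intro h; exact absurd (Finset.mem_univ s) h
  obtain ⟨c, hc⟩ := Infinite.exists_notMem_finset
    (S ∪ (Finset.univ : Finset (S → ZMod p)).biUnion (fun β => (P β).roots.toFinset))
  rw [Finset.mem_union, not_or] at hc
  refine ⟨c, hc.1, ?_⟩
  intro β ⟨s₀, hs₀, hβ⟩ h0
  set β' : S → ZMod p := fun s => β s with hβ'
  have hne : β' ≠ 0 := by
    intro h
    exact hβ (congrFun h ⟨s₀, hs₀⟩)
  have hroot : (P β').eval c ≠ 0 := by
    intro h
    apply hc.2
    rw [Finset.mem_biUnion]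
    refine ⟨β', Finset.mem_univ _, ?_⟩
    rw [Multiset.mem_toFinset, Polynomial.mem_roots (hP β' hne)]
    exact h
  apply hroot
  have hcs : ∀ s ∈ S, c - s ≠ 0 := by
    intro s hs h
    exact hc.1 (by rwa [sub_eq_zero.1 h])
  have h1 : (P β').eval c = (∏ s ∈ S, (c - s)) * ∑ s ∈ S, φ (β s) * (c - s)⁻¹ := by
    simp only [P]
    rw [Polynomial.eval_finsetSum, Finset.mul_sum, ← Finset.sum_coe_sort S
      (fun s => (∏ s ∈ S, (c - s)) * (φ (β s) * (c - s)⁻¹))]
    refine Finset.sum_congr rfl fun s _ => ?_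
    rw [Polynomial.eval_mul, Polynomial.eval_C, Polynomial.eval_prod,
      ← Finset.mul_prod_erase S _ s.2]
    simp only [Polynomial.eval_sub, Polynomial.eval_X, Polynomial.eval_C, hβ']
    field_simp [hcs s s.2]
  rw [h1, h0, mul_zero]

end

/-- Task U2 -/
theorem exists_cod {K : Type} [Field K] [Infinite K] (p : ℕ) [hp : Fact p.Prime] [CharP K p]
    {t : K} (ht : Good2 p t) (S : Finset K) :
    ∃ c, c ∉ S ∧ ∀ J : Set K, ∃ C, ∀ s ∈ S, (Cod p t c C s ↔ s ∈ J) := by
  classical
  obtain ⟨c, hcS, hc⟩ := exists_indep (K := K) (p := p) S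
  refine ⟨c, hcS, fun J => ?_⟩
  let _ : Algebra (ZMod p) K := ZMod.algebra K p
  have hcs : ∀ s ∈ S, c - s ≠ 0 := by
    intro s hs h
    exact hcS (by rwa [sub_eq_zero.1 h])
  let L : K →ₗ[ZMod p] ZMod p := (lam ht).toZModLinearMap p
  let Φ : K →ₗ[ZMod p] (S → ZMod p) :=
    LinearMap.pi (fun s => L.comp (LinearMap.mulRight (ZMod p) ((c - s : K)⁻¹)))
  have hΦ : ∀ C s, Φ C s = lam ht (C * (c - s)⁻¹) := fun C s => rfl
  have hsurj : Function.Surjective Φ := by
    rw [← LinearMap.range_eq_top]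
    by_contra hne
    obtain ⟨f, hf0, hf⟩ := Submodule.exists_le_ker_of_lt_top _ (lt_top_iff_ne_top.2 hne)
    have hfs : ∃ s : S, f (Pi.single s 1) ≠ 0 := by
      by_contra h
      push Not at h
      apply hf0
      apply LinearMap.pi_ext'
      intro s
      ext
      simpa using h s
    have hfv : ∀ v : S → ZMod p, f v = ∑ s : S, v s * f (Pi.single s 1) := by
      intro v
      conv_lhs => rw [← Finset.univ_sum_single v]
      rw [map_sum]
      refine Finset.sum_congr rfl fun s _ => ?_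
      have : (Pi.single s (v s) : S → ZMod p) = v s • (Pi.single s 1 : S → ZMod p) := by
        rw [← Pi.single_smul]
        simp
      rw [this, map_smul, smul_eq_mul]
    set β : K → ZMod p := fun s => if hs : s ∈ S then f (Pi.single ⟨s, hs⟩ 1) else 0 with hβ
    have hβ' : ∀ s : S, β s = f (Pi.single s 1) := by
      intro s
      simp [hβ, s.2]
    have hw := hc β (by
      obtain ⟨s, hs⟩ := hfs
      exact ⟨s, s.2, by rwa [hβ']⟩)
    set w := ∑ s ∈ S, (ZMod.castHom (dvd_refl p) K (β s)) * (c - s)⁻¹ with hwdef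
    have h1 : f (Φ w⁻¹) = 0 := LinearMap.mem_ker.1 (hf ⟨w⁻¹, rfl⟩)
    rw [hfv] at h1
    have h2 : ∀ v : K, ∑ s : S, Φ v s * f (Pi.single s 1) = L (v * w) := by
      intro v
      rw [hwdef, ← Finset.sum_coe_sort S, Finset.mul_sum, map_sum]
      refine Finset.sum_congr rfl fun s _ => ?_
      rw [hΦ, ← hβ', mul_comm]
      have h3 : v * ((ZMod.castHom (dvd_refl p) K) (β s) * (c - s)⁻¹) =
          β s • (v * (c - s)⁻¹) := by
        rw [Algebra.smul_def]
        change _ = (ZMod.castHom (dvd_refl p) K) (β s) * _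
        ring
      rw [h3, map_smul, smul_eq_mul]
      rfl
    rw [h2, inv_mul_cancel₀ hw] at h1
    have h3 : L 1 = 1 := lam_one ht
    rw [h3] at h1
    exact one_ne_zero h1
  obtain ⟨C, hC⟩ := hsurj (fun s => if (s : K) ∈ J then 0 else 1)
  refine ⟨C, fun s hs => ?_⟩
  have h1 := congrFun hC ⟨s, hs⟩
  rw [hΦ] at h1
  simp only at h1
  have h2 : Cod p t c C s ↔ lam ht (C * (c - s)⁻¹) = 0 := by
    rw [lam_eq_zero]
    constructor
    · rintro ⟨y, hy, hG⟩
      have : C * (c - s)⁻¹ = y := by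
        rw [← hy, mul_assoc, mul_inv_cancel₀ (hcs s hs), mul_one]
      rwa [this]
    · intro h
      exact ⟨_, by rw [mul_assoc, inv_mul_cancel₀ (hcs s hs), mul_one], h⟩
  rw [h2, h1]
  split_ifs with h
  · simp [h]
  · simp [h]

/-- Task U2 -/
theorem exists_inj2 {K : Type} [Field K] [Infinite K] (S : Finset (K × K)) :
    ∃ a : K, Set.InjOn (fun q : K × K => q.1 + a * q.2) (S : Set (K × K)) := by
  classical
  obtain ⟨a, ha⟩ := Infinite.exists_notMem_finset
    ((S ×ˢ S).image (fun r => -(r.1.1 - r.2.1) / (r.1.2 - r.2.2)))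
  refine ⟨a, ?_⟩
  intro q hq q' hq' h
  simp only at h
  by_cases h2 : q.2 = q'.2
  · have h1 : q.1 = q'.1 := by
      rw [h2] at h
      exact add_right_cancel h
    exact Prod.ext h1 h2
  · exfalso
    apply ha
    rw [Finset.mem_image]
    refine ⟨(q, q'), Finset.mem_product.2 ⟨hq, hq'⟩, ?_⟩
    have h3 : q.2 - q'.2 ≠ 0 := sub_ne_zero.2 h2
    simp only
    rw [div_eq_iff h3]
    linear_combination -h

/-- Task U2 -/
theorem exists_inj3 {K : Type} [Field K] [Infinite K] (S : Finset (K × K × K)) :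
    ∃ a b : K, Set.InjOn (fun q : K × K × K => q.1 + a * q.2.1 + b * q.2.2)
      (S : Set (K × K × K)) := by
  classical
  obtain ⟨a, ha⟩ := exists_inj2 (S.image (fun q => (q.1, q.2.1)))
  obtain ⟨b, hb⟩ := exists_inj2 (S.image (fun q => (q.1 + a * q.2.1, q.2.2)))
  refine ⟨a, b, ?_⟩
  intro q hq q' hq' h
  simp only at h
  have h1 := hb
    (Finset.mem_coe.2 (Finset.mem_image_of_mem
      (fun q : K × K × K => (q.1 + a * q.2.1, q.2.2)) hq))
    (Finset.mem_coe.2 (Finset.mem_image_of_mem
      (fun q : K × K × K => (q.1 + a * q.2.1, q.2.2)) hq')) h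
  rw [Prod.mk.injEq] at h1
  have h2 := ha
    (Finset.mem_coe.2 (Finset.mem_image_of_mem (fun q : K × K × K => (q.1, q.2.1)) hq))
    (Finset.mem_coe.2 (Finset.mem_image_of_mem (fun q : K × K × K => (q.1, q.2.1)) hq')) h1.1
  rw [Prod.mk.injEq] at h2
  exact Prod.ext h2.1 (Prod.ext h2.2 h1.2)

end Pool.Agent.H64R2.VF
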