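import Pool.Agent.H64R2.VF.UDefs

/-!
# Finiteness is first order in `𝔽_p((t))`
-/

namespace Pool.Agent.H64R2.VF

section
variable {p : ℕ} [hp : Fact p.Prime]

/-- a series with coefficients `0` below the order of `e` is divisible by `e` -/
theorem exists_mul_of_coeff {x e : LaurentSeries (ZMod p)} (he : e ≠ 0)
    (hx : ∀ n : ℤ, n < e.order → x.coeff n = 0) : ∃ o ∈ valRing p, x = e * o := by
  refine ⟨e⁻¹ * x, ?_, ?_⟩
  · by_cases hx0 : x = 0
    · subst hx0
      intro n _
      simp
    · intro n hn
      apply HahnSeries.coeff_eq_zero_of_lt_order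
      have h1 : (e⁻¹ * x).order = e⁻¹.order + x.order :=
        HahnSeries.order_mul (inv_ne_zero he) hx0
      have h2 : e⁻¹.order + e.order = 0 := by
        rw [← HahnSeries.order_mul (inv_ne_zero he) he, inv_mul_cancel₀ he, HahnSeries.order_one]
      have h3 : e.order ≤ x.order := by
        by_contra h
        push Not at h
        have h4 := hx _ h
        exact (HahnSeries.coeff_order_eq_zero.not.2 hx0) h4
      omega
  · rw [← mul_assoc, mul_inv_cancel₀ he, one_mul]

/-- conversely, a multiple of `e` has coefficients `0` below the order of `e` -/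
theorem coeff_of_mul {e o : LaurentSeries (ZMod p)} (he : e ≠ 0) (ho : o ∈ valRing p)
    {n : ℤ} (hn : n < e.order) : (e * o).coeff n = 0 := by
  by_cases ho0 : o = 0
  · subst ho0; simp
  · apply HahnSeries.coeff_eq_zero_of_lt_order
    rw [HahnSeries.order_mul he ho0]
    have h3 : 0 ≤ o.order := by
      by_contra h
      push Not at h
      exact (HahnSeries.coeff_order_eq_zero.not.2 ho0) (ho _ h)
    omega

theorem finite_of_finC {X : Set (LaurentSeries (ZMod p))} (h : FinC (valRing p) X) :
    X.Finite := by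
  classical
  obtain ⟨⟨r, hr⟩, hacc⟩ := h
  by_contra hinf
  have hinf : X.Infinite := hinf
  -- lower bound of the coefficients
  obtain ⟨m, hm⟩ : ∃ m : ℤ, ∀ x ∈ X, ∀ n < m, x.coeff n = 0 := by
    by_cases hr0 : r = 0
    · refine ⟨0, fun x hx n _ => ?_⟩
      obtain ⟨o, _, rfl⟩ := hr x hx
      simp [hr0]
    · refine ⟨r.order, fun x hx n hn => ?_⟩
      obtain ⟨o, ho, rfl⟩ := hr x hx
      exact coeff_of_mul hr0 ho hn
  let _ : TopologicalSpace (ZMod p) := ⊥
  have : DiscreteTopology (ZMod p) := ⟨rfl⟩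
  set F : Set (ℤ → ZMod p) := {g | ∀ n < m, g n = 0} with hF
  have hFc : IsCompact F := by
    apply IsClosed.isCompact
    have : F = ⋂ n : ℤ, ⋂ _ : n < m, {g : ℤ → ZMod p | g n = 0} := by
      ext g
      simp [hF]
    rw [this]
    refine isClosed_iInter fun n => isClosed_iInter fun _ => ?_
    exact isClosed_eq (continuous_apply n) continuous_const
  have hinj : Function.Injective (fun x : LaurentSeries (ZMod p) => x.coeff) :=
    HahnSeries.coeff_injective
  have hX' : ((fun x : LaurentSeries (ZMod p) => x.coeff) '' X).Infinite :=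
    hinf.image hinj.injOn
  obtain ⟨g, hg, hacc'⟩ := hX'.exists_accPt_of_subset_isCompact hFc (by
    rintro _ ⟨x, hx, rfl⟩
    exact fun n hn => hm x hx n hn)
  -- the Laurent series of `g`
  have hsupp : (Function.support g).IsPWO := by
    have h1 : BddBelow (Function.support g) := by
      refine ⟨m, fun n hn => ?_⟩
      by_contra h
      exact hn (hg n (not_le.1 h))
    exact h1.isWF.isPWO
  set x : LaurentSeries (ZMod p) := ⟨g, hsupp⟩ with hx
  obtain ⟨e, he, hxe⟩ := hacc x
  rw [accPt_iff_nhds] at hacc'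
  have hU : {h : ℤ → ZMod p | ∀ n ∈ Finset.Ico m e.order, h n = g n} ∈ nhds g := by
    have h1 : {h : ℤ → ZMod p | ∀ n ∈ Finset.Ico m e.order, h n = g n} =
        ⋂ n ∈ Finset.Ico m e.order, {h : ℤ → ZMod p | h n = g n} := by
      ext h
      simp
    rw [h1]
    apply IsOpen.mem_nhds
    · refine isOpen_biInter_finset fun n _ => ?_
      have hc : Continuous (fun h : ℤ → ZMod p => h n) := continuous_apply n
      exact (isOpen_discrete ({g n} : Set (ZMod p))).preimage hc
    · simp
  obtain ⟨h, ⟨hh1, y, hy, rfl⟩, hne⟩ := hacc' _ hU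
  apply hne
  have h2 : y = x := by
    apply hxe y hy
    obtain ⟨o, ho, h3⟩ := exists_mul_of_coeff (x := y - x) he (by
      intro n hn
      rw [HahnSeries.coeff_sub, sub_eq_zero]
      by_cases hnm : n < m
      · rw [hm y hy n hnm]
        exact (hg n hnm).symm
      · exact hh1 n (Finset.mem_Ico.2 ⟨not_lt.1 hnm, hn⟩))
    exact ⟨o, ho, by rw [← h3]; ring⟩
  rw [h2]

theorem finC_of_finite {X : Set (LaurentSeries (ZMod p))} (h : X.Finite) :
    FinC (valRing p) X := by
  constructor
  · obtain ⟨L, hL⟩ := (h.image (fun x : LaurentSeries (ZMod p) => x.order)).bddBelow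
    have hne : (HahnSeries.single L (1 : ZMod p) : LaurentSeries (ZMod p)) ≠ 0 :=
      HahnSeries.single_ne_zero one_ne_zero
    refine ⟨HahnSeries.single L 1, fun x hx => ?_⟩
    refine exists_mul_of_coeff hne fun n hn => ?_
    rw [HahnSeries.order_single one_ne_zero] at hn
    apply HahnSeries.coeff_eq_zero_of_lt_order
    exact lt_of_lt_of_le hn (hL ⟨x, hx, rfl⟩)
  · intro x
    obtain ⟨U, hU⟩ := (h.image (fun y : LaurentSeries (ZMod p) => (y - x).order)).bddAbove
    have hne : (HahnSeries.single (U + 1) (1 : ZMod p) : LaurentSeries (ZMod p)) ≠ 0 :=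
      HahnSeries.single_ne_zero one_ne_zero
    refine ⟨HahnSeries.single (U + 1) 1, hne, fun y hy => ?_⟩
    rintro ⟨o, ho, h1⟩
    by_contra hyx
    have h2 : y - x ≠ 0 := sub_ne_zero.2 hyx
    have h3 : y - x = HahnSeries.single (U + 1) 1 * o := by rw [h1]; ring
    have h4 : (y - x).order ≤ U := hU ⟨y, hy, rfl⟩
    have h5 := coeff_of_mul hne ho (n := (y - x).order) (by
      rw [HahnSeries.order_single one_ne_zero]
      omega)
    rw [← h3] at h5
    exact (HahnSeries.coeff_order_eq_zero.not.2 h2) h5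

end

/-- Task U3 -/
theorem finC_iff (p : ℕ) [hp : Fact p.Prime] (X : Set (LaurentSeries (ZMod p))) :
    FinC (valRing p) X ↔ X.Finite :=
  ⟨finite_of_finC, finC_of_finite⟩

/-- Task U3 -/
theorem infinite_laurent (p : ℕ) [hp : Fact p.Prime] : Infinite (LaurentSeries (ZMod p)) :=
  Infinite.of_injective
    (fun n : ℕ => (HahnSeries.single (1 : ℤ) (1 : ZMod p) : LaurentSeries (ZMod p)) ^ n)
    (fun _ _ h => (good_laurent p).pow_inj h)

end Pool.Agent.H64R2.VF
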