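import Pool.Agent.H64R2.VF.UInt
import Pool.Agent.H64R2.VF.U2

/-!
# Interpretation of arithmetic: addition and multiplication
-/

namespace Pool.Agent.H64R2.VF

open Pool.Agent.Helper180.ArithDef
open Function (update)

section
variable {K : Type} [Field K]

/-- coded binary relations -/
def R2 (p : ℕ) (t a c C s u : K) : Prop := Cod p t c C (s + a * u)

/-- coded ternary relations -/
def R3 (p : ℕ) (t a b c C s r u : K) : Prop := Cod p t c C (s + a * r + b * u)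

/-- `R` is an injection from `A` to `W` -/
def InjR (A W : Set K) (R : K → K → Prop) : Prop :=
  (∀ s ∈ A, ∃ u ∈ W, R s u) ∧ (∀ s ∈ A, ∀ u ∈ W, ∀ u' ∈ W, R s u → R s u' → u = u') ∧
    ∀ s ∈ A, ∀ s' ∈ A, ∀ u ∈ W, R s u → R s' u → s = s'

/-- `|A| + |B| = |W|`, with coded relations -/
def AddC (p : ℕ) (t : K) (A B W : Set K) : Prop :=
  ∃ a c C a' c' C', InjR A W (R2 p t a c C) ∧ InjR B W (R2 p t a' c' C') ∧
    (∀ u ∈ W, (∃ s ∈ A, R2 p t a c C s u) ∨ ∃ s ∈ B, R2 p t a' c' C' s u) ∧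
    ∀ u ∈ W, ∀ s ∈ A, ∀ s' ∈ B, R2 p t a c C s u → ¬ R2 p t a' c' C' s' u

/-- `|A| * |B| = |W|`, with coded relations -/
def MulC (p : ℕ) (t : K) (A B W : Set K) : Prop :=
  ∃ a b c C, (∀ s ∈ A, ∀ r ∈ B, ∃ u ∈ W, R3 p t a b c C s r u) ∧
    (∀ s ∈ A, ∀ r ∈ B, ∀ u ∈ W, ∀ u' ∈ W, R3 p t a b c C s r u → R3 p t a b c C s r u' →
      u = u') ∧
    (∀ s ∈ A, ∀ s' ∈ A, ∀ r ∈ B, ∀ r' ∈ B, ∀ u ∈ W, R3 p t a b c C s r u →
      R3 p t a b c C s' r' u → s = s' ∧ r = r') ∧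
    ∀ u ∈ W, ∃ s ∈ A, ∃ r ∈ B, R3 p t a b c C s r u

omit [Field K] in
theorem InjR.exists_fun {A W : Set K} {R : K → K → Prop} (h : InjR A W R) :
    ∃ f : K → K, Set.InjOn f A ∧ Set.MapsTo f A W ∧ ∀ s ∈ A, ∀ u ∈ W, (R s u ↔ u = f s) := by
  classical
  obtain ⟨h1, h2, h3⟩ := h
  choose! f hf using h1
  refine ⟨f, ?_, fun s hs => (hf s hs).1, fun s hs u hu => ?_⟩
  · intro s hs s' hs' e
    refine h3 s hs s' hs' (f s) (hf s hs).1 (hf s hs).2 ?_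
    rw [e]
    exact (hf s' hs').2
  · constructor
    · intro h
      exact h2 s hs u hu (f s) (hf s hs).1 h (hf s hs).2
    · rintro rfl
      exact (hf s hs).2

omit [Field K] in
theorem ncard_of_add {A B W : Set K} (hW : W.Finite) {R R' : K → K → Prop} (h : InjR A W R)
    (h' : InjR B W R') (h1 : ∀ u ∈ W, (∃ s ∈ A, R s u) ∨ ∃ s ∈ B, R' s u)
    (h2 : ∀ u ∈ W, ∀ s ∈ A, ∀ s' ∈ B, R s u → ¬ R' s' u) : A.ncard + B.ncard = W.ncard := by
  obtain ⟨f, f1, f2, f3⟩ := h.exists_fun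
  obtain ⟨g, g1, g2, g3⟩ := h'.exists_fun
  have e : W = f '' A ∪ g '' B := by
    ext u
    constructor
    · intro hu
      rcases h1 u hu with ⟨s, hs, h⟩ | ⟨s, hs, h⟩
      · exact Or.inl ⟨s, hs, ((f3 s hs u hu).1 h).symm⟩
      · exact Or.inr ⟨s, hs, ((g3 s hs u hu).1 h).symm⟩
    · rintro (⟨s, hs, rfl⟩ | ⟨s, hs, rfl⟩)
      · exact f2 hs
      · exact g2 hs
  have hd : Disjoint (f '' A) (g '' B) := by
    rw [Set.disjoint_left]
    rintro u ⟨s, hs, rfl⟩ ⟨s', hs', e'⟩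
    refine h2 (f s) (f2 hs) s hs s' hs' ((f3 s hs _ (f2 hs)).2 rfl) ?_
    exact (g3 s' hs' _ (f2 hs)).2 e'.symm
  have hA : (f '' A).Finite := hW.subset (by rw [e]; exact Set.subset_union_left)
  have hB : (g '' B).Finite := hW.subset (by rw [e]; exact Set.subset_union_right)
  rw [e, Set.ncard_union_eq hd hA hB, f1.ncard_image, g1.ncard_image]

theorem exists_bij {α β : Type} {A : Set α} {W : Set β} (hA : A.Finite) (hW : W.Finite)
    (h : A.ncard = W.ncard) : ∃ R : α → β → Prop, (∀ s ∈ A, ∃ u ∈ W, R s u) ∧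
      (∀ s ∈ A, ∀ u ∈ W, ∀ u' ∈ W, R s u → R s u' → u = u') ∧
      (∀ s ∈ A, ∀ s' ∈ A, ∀ u ∈ W, R s u → R s' u → s = s') ∧ ∀ u ∈ W, ∃ s ∈ A, R s u := by
  classical
  have := hA.fintype
  have := hW.fintype
  have h1 : Fintype.card A = Fintype.card W := by
    rw [← Nat.card_eq_fintype_card, ← Nat.card_eq_fintype_card]
    exact h
  set e : A ≃ W := Fintype.equivOfCardEq h1
  refine ⟨fun s u => ∃ hs : s ∈ A, u = e ⟨s, hs⟩, ?_, ?_, ?_, ?_⟩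
  · intro s hs
    exact ⟨e ⟨s, hs⟩, (e ⟨s, hs⟩).2, hs, rfl⟩
  · rintro s hs u hu u' hu' ⟨_, rfl⟩ ⟨_, rfl⟩
    rfl
  · rintro s hs s' hs' u hu ⟨_, rfl⟩ ⟨_, h2⟩
    have := e.injective (Subtype.ext h2)
    exact congrArg Subtype.val this
  · intro u hu
    refine ⟨e.symm ⟨u, hu⟩, (e.symm ⟨u, hu⟩).2, (e.symm ⟨u, hu⟩).2, ?_⟩
    simp

variable [Infinite K] {p : ℕ} [hp : Fact p.Prime] [CharP K p] {t : K} (ht : Good2 p t)

include ht in
theorem exists_R2 {A W : Set K} (hA : A.Finite) (hW : W.Finite) (R : K → K → Prop) :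
    ∃ a c C, ∀ s ∈ A, ∀ u ∈ W, (R2 p t a c C s u ↔ R s u) := by
  classical
  set S : Finset (K × K) := hA.toFinset ×ˢ hW.toFinset with hS
  obtain ⟨a, ha⟩ := exists_inj2 S
  obtain ⟨c, _, hc⟩ := exists_cod p ht (S.image (fun q => q.1 + a * q.2))
  obtain ⟨C, hC⟩ := hc {y | ∃ q ∈ S, y = q.1 + a * q.2 ∧ R q.1 q.2}
  refine ⟨a, c, C, fun s hs u hu => ?_⟩
  have hq : (s, u) ∈ S := by simp [hS, hs, hu]
  rw [R2, hC _ (Finset.mem_image.2 ⟨(s, u), hq, rfl⟩)]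
  constructor
  · rintro ⟨q, hq', e, h⟩
    have := ha hq hq' e
    rwa [← this] at h
  · intro h
    exact ⟨(s, u), hq, rfl, h⟩

include ht in
theorem exists_R3 {A B W : Set K} (hA : A.Finite) (hB : B.Finite) (hW : W.Finite)
    (R : K → K → K → Prop) :
    ∃ a b c C, ∀ s ∈ A, ∀ r ∈ B, ∀ u ∈ W, (R3 p t a b c C s r u ↔ R s r u) := by
  classical
  set S : Finset (K × K × K) := hA.toFinset ×ˢ (hB.toFinset ×ˢ hW.toFinset) with hS
  obtain ⟨a, b, ha⟩ := exists_inj3 S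
  obtain ⟨c, _, hc⟩ := exists_cod p ht (S.image (fun q => q.1 + a * q.2.1 + b * q.2.2))
  obtain ⟨C, hC⟩ := hc {y | ∃ q ∈ S, y = q.1 + a * q.2.1 + b * q.2.2 ∧ R q.1 q.2.1 q.2.2}
  refine ⟨a, b, c, C, fun s hs r hr u hu => ?_⟩
  have hq : (s, r, u) ∈ S := by simp [hS, hs, hr, hu]
  rw [R3, hC _ (Finset.mem_image.2 ⟨(s, r, u), hq, rfl⟩)]
  constructor
  · rintro ⟨q, hq', e, h⟩
    have := ha hq hq' e
    rwa [← this] at h
  · intro h
    exact ⟨(s, r, u), hq, rfl, h⟩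

include ht in
theorem addC_iff {A B W : Set K} (hA : A.Finite) (hB : B.Finite) (hW : W.Finite) :
    AddC p t A B W ↔ A.ncard + B.ncard = W.ncard := by
  constructor
  · rintro ⟨a, c, C, a', c', C', h1, h2, h3, h4⟩
    exact ncard_of_add hW h1 h2 h3 h4
  · intro h
    obtain ⟨W₁, hW₁, hn⟩ := Set.exists_subset_card_eq (s := W) (n := A.ncard) (by omega)
    have f1 : W₁.Finite := hW.subset hW₁
    have f2 : (W \ W₁).Finite := hW.subset Set.sdiff_subset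
    have hn2 : B.ncard = (W \ W₁).ncard := by
      have := Set.ncard_sdiff_add_ncard_of_subset hW₁ hW
      omega
    obtain ⟨R, r1, r2, r3, r4⟩ := exists_bij hA f1 hn.symm
    obtain ⟨R', r1', r2', r3', r4'⟩ := exists_bij hB f2 hn2
    obtain ⟨a, c, C, h1⟩ := exists_R2 ht hA hW (fun s u => u ∈ W₁ ∧ R s u)
    obtain ⟨a', c', C', h2⟩ := exists_R2 ht hB hW (fun s u => u ∉ W₁ ∧ R' s u)
    refine ⟨a, c, C, a', c', C', ⟨?_, ?_, ?_⟩, ⟨?_, ?_, ?_⟩, ?_, ?_⟩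
    · intro s hs
      obtain ⟨u, hu, hr⟩ := r1 s hs
      exact ⟨u, hW₁ hu, (h1 s hs u (hW₁ hu)).2 ⟨hu, hr⟩⟩
    · intro s hs u hu u' hu' h3 h4
      rw [h1 s hs u hu] at h3
      rw [h1 s hs u' hu'] at h4
      exact r2 s hs u h3.1 u' h4.1 h3.2 h4.2
    · intro s hs s' hs' u hu h3 h4
      rw [h1 s hs u hu] at h3
      rw [h1 s' hs' u hu] at h4
      exact r3 s hs s' hs' u h3.1 h3.2 h4.2
    · intro s hs
      obtain ⟨u, hu, hr⟩ := r1' s hs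
      exact ⟨u, hu.1, (h2 s hs u hu.1).2 ⟨hu.2, hr⟩⟩
    · intro s hs u hu u' hu' h3 h4
      rw [h2 s hs u hu] at h3
      rw [h2 s hs u' hu'] at h4
      exact r2' s hs u ⟨hu, h3.1⟩ u' ⟨hu', h4.1⟩ h3.2 h4.2
    · intro s hs s' hs' u hu h3 h4
      rw [h2 s hs u hu] at h3
      rw [h2 s' hs' u hu] at h4
      exact r3' s hs s' hs' u ⟨hu, h3.1⟩ h3.2 h4.2
    · intro u hu
      by_cases h3 : u ∈ W₁
      · obtain ⟨s, hs, hr⟩ := r4 u h3
        exact Or.inl ⟨s, hs, (h1 s hs u hu).2 ⟨h3, hr⟩⟩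
      · obtain ⟨s, hs, hr⟩ := r4' u ⟨hu, h3⟩
        exact Or.inr ⟨s, hs, (h2 s hs u hu).2 ⟨h3, hr⟩⟩
    · intro u hu s hs s' hs' h3 h4
      rw [h1 s hs u hu] at h3
      rw [h2 s' hs' u hu] at h4
      exact h4.1 h3.1

include ht in
theorem mulC_iff {A B W : Set K} (hA : A.Finite) (hB : B.Finite) (hW : W.Finite) :
    MulC p t A B W ↔ A.ncard * B.ncard = W.ncard := by
  constructor
  · rintro ⟨a, b, c, C, h1, h2, h3, h4⟩
    choose! f hf using h1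
    have hi : Set.InjOn (fun q : K × K => f q.1 q.2) (A ×ˢ B) := by
      rintro ⟨s, r⟩ ⟨hs, hr⟩ ⟨s', r'⟩ ⟨hs', hr'⟩ e
      simp only at hs hr hs' hr' e
      have := h3 s hs s' hs' r hr r' hr' (f s r) (hf s hs r hr).1 (hf s hs r hr).2
        (by rw [e]; exact (hf s' hs' r' hr').2)
      exact Prod.ext this.1 this.2
    have e : W = (fun q : K × K => f q.1 q.2) '' (A ×ˢ B) := by
      ext u
      constructor
      · intro hu
        obtain ⟨s, hs, r, hr, h⟩ := h4 u hu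
        exact ⟨(s, r), ⟨hs, hr⟩, h2 s hs r hr (f s r) (hf s hs r hr).1 u hu (hf s hs r hr).2 h⟩
      · rintro ⟨⟨s, r⟩, ⟨hs, hr⟩, rfl⟩
        exact (hf s hs r hr).1
    rw [e, hi.ncard_image, Set.ncard_prod]
  · intro h
    obtain ⟨R, r1, r2, r3, r4⟩ := exists_bij (hA.prod hB) hW (by rw [Set.ncard_prod, h])
    obtain ⟨a, b, c, C, h1⟩ := exists_R3 ht hA hB hW (fun s r u => R (s, r) u)
    refine ⟨a, b, c, C, ?_, ?_, ?_, ?_⟩
    · intro s hs r hr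
      obtain ⟨u, hu, h⟩ := r1 (s, r) ⟨hs, hr⟩
      exact ⟨u, hu, (h1 s hs r hr u hu).2 h⟩
    · intro s hs r hr u hu u' hu' h3 h4
      rw [h1 s hs r hr u hu] at h3
      rw [h1 s hs r hr u' hu'] at h4
      exact r2 (s, r) ⟨hs, hr⟩ u hu u' hu' h3 h4
    · intro s hs s' hs' r hr r' hr' u hu h3 h4
      rw [h1 s hs r hr u hu] at h3
      rw [h1 s' hs' r' hr' u hu] at h4
      have := r3 (s, r) ⟨hs, hr⟩ (s', r') ⟨hs', hr'⟩ u hu h3 h4
      exact ⟨congrArg Prod.fst this, congrArg Prod.snd this⟩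
    · intro u hu
      obtain ⟨⟨s, r⟩, ⟨hs, hr⟩, h⟩ := r4 u hu
      exact ⟨s, hs, r, hr, (h1 s hs r hr u hu).2 h⟩

end

end Pool.Agent.H64R2.VF
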