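import Pool.Agent.H64R2.VF.UAdd

/-!
# Interpretation of arithmetic: definability
-/

namespace Pool.Agent.H64R2.VF

open Pool.Agent.Helper180.ArithDef
open Function (update)

section
variable {K : Type} [Field K] {O : Set K} {p : ℕ}

theorem df_R2 (i j k l m : ℕ) : Df O (fun t v => R2 p t (v i) (v j) (v k) (v l) (v m)) := by
  unfold R2 Cod
  refine Df.ex ?_
  exact (Df.eq ((DfT.v 0).mul ((DfT.v (j + 1)).sub ((DfT.v (l + 1)).add
    ((DfT.v (i + 1)).mul (DfT.v (m + 1)))))) (DfT.v (k + 1))).and (Df.gg (DfT.v 0))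

theorem df_R3 (i b j k l r m : ℕ) :
    Df O (fun t v => R3 p t (v i) (v b) (v j) (v k) (v l) (v r) (v m)) := by
  unfold R3 Cod
  refine Df.ex ?_
  exact (Df.eq ((DfT.v 0).mul ((DfT.v (j + 1)).sub (((DfT.v (l + 1)).add
    ((DfT.v (i + 1)).mul (DfT.v (r + 1)))).add ((DfT.v (b + 1)).mul (DfT.v (m + 1))))))
    (DfT.v (k + 1))).and (Df.gg (DfT.v 0))

variable {F : K → K → Set K} (hF : ∀ i j, Df O (fun t v => v j ∈ F t (v i)))

include hF in
theorem df_injR (a c C x w : ℕ) :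
    Df O (fun t v => InjR (F t (v x)) (F t (v w)) (R2 p t (v a) (v c) (v C))) := by
  unfold InjR
  refine Df.and ?_ (Df.and ?_ ?_)
  · refine Df.all ?_
    refine Df.imp (hF _ _) ?_
    refine Df.ex ?_
    exact Df.and (hF _ _) (df_R2 _ _ _ _ _)
  · refine Df.all ?_
    refine Df.imp (hF _ _) ?_
    refine Df.all ?_
    refine Df.imp (hF _ _) ?_
    refine Df.all ?_
    refine Df.imp (hF _ _) ?_
    exact Df.imp (df_R2 _ _ _ _ _) (Df.imp (df_R2 _ _ _ _ _) (Df.eq (DfT.v _) (DfT.v _)))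
  · refine Df.all ?_
    refine Df.imp (hF _ _) ?_
    refine Df.all ?_
    refine Df.imp (hF _ _) ?_
    refine Df.all ?_
    refine Df.imp (hF _ _) ?_
    exact Df.imp (df_R2 _ _ _ _ _) (Df.imp (df_R2 _ _ _ _ _) (Df.eq (DfT.v _) (DfT.v _)))

include hF in
theorem df_addC (x y w : ℕ) :
    Df O (fun t v => AddC p t (F t (v x)) (F t (v y)) (F t (v w))) := by
  unfold AddC
  refine Df.ex ?_
  refine Df.ex ?_
  refine Df.ex ?_
  refine Df.ex ?_
  refine Df.ex ?_
  refine Df.ex ?_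
  refine Df.and (df_injR hF _ _ _ _ _) (Df.and (df_injR hF _ _ _ _ _) (Df.and ?_ ?_))
  · refine Df.all ?_
    refine Df.imp (hF _ _) (Df.or ?_ ?_)
    · refine Df.ex ?_
      exact Df.and (hF _ _) (df_R2 _ _ _ _ _)
    · refine Df.ex ?_
      exact Df.and (hF _ _) (df_R2 _ _ _ _ _)
  · refine Df.all ?_
    refine Df.imp (hF _ _) ?_
    refine Df.all ?_
    refine Df.imp (hF _ _) ?_
    refine Df.all ?_
    refine Df.imp (hF _ _) ?_
    exact Df.imp (df_R2 _ _ _ _ _) (df_R2 _ _ _ _ _).not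

include hF in
theorem df_mulC (x y w : ℕ) :
    Df O (fun t v => MulC p t (F t (v x)) (F t (v y)) (F t (v w))) := by
  unfold MulC
  refine Df.ex ?_
  refine Df.ex ?_
  refine Df.ex ?_
  refine Df.ex ?_
  refine Df.and ?_ (Df.and ?_ (Df.and ?_ ?_))
  · refine Df.all ?_
    refine Df.imp (hF _ _) ?_
    refine Df.all ?_
    refine Df.imp (hF _ _) ?_
    refine Df.ex ?_
    exact Df.and (hF _ _) (df_R3 _ _ _ _ _ _ _)
  · refine Df.all ?_
    refine Df.imp (hF _ _) ?_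
    refine Df.all ?_
    refine Df.imp (hF _ _) ?_
    refine Df.all ?_
    refine Df.imp (hF _ _) ?_
    refine Df.all ?_
    refine Df.imp (hF _ _) ?_
    exact Df.imp (df_R3 _ _ _ _ _ _ _) (Df.imp (df_R3 _ _ _ _ _ _ _)
      (Df.eq (DfT.v _) (DfT.v _)))
  · refine Df.all ?_
    refine Df.imp (hF _ _) ?_
    refine Df.all ?_
    refine Df.imp (hF _ _) ?_
    refine Df.all ?_
    refine Df.imp (hF _ _) ?_
    refine Df.all ?_
    refine Df.imp (hF _ _) ?_
    refine Df.all ?_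
    refine Df.imp (hF _ _) ?_
    exact Df.imp (df_R3 _ _ _ _ _ _ _) (Df.imp (df_R3 _ _ _ _ _ _ _)
      (Df.and (Df.eq (DfT.v _) (DfT.v _)) (Df.eq (DfT.v _) (DfT.v _))))
  · refine Df.all ?_
    refine Df.imp (hF _ _) ?_
    refine Df.ex ?_
    refine Df.and (hF _ _) ?_
    refine Df.ex ?_
    exact Df.and (hF _ _) (df_R3 _ _ _ _ _ _ _)

include hF in
theorem df_finC (x : ℕ) : Df O (fun t v => FinC O (F t (v x))) := by
  unfold FinC
  refine Df.and ?_ ?_
  · refine Df.ex ?_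
    refine Df.all ?_
    refine Df.imp (hF _ _) ?_
    refine Df.ex ?_
    exact Df.and (Df.mem (DfT.v _)) (Df.eq (DfT.v _) ((DfT.v _).mul (DfT.v _)))
  · refine Df.all ?_
    refine Df.ex ?_
    refine Df.and (Df.eq (DfT.v _) DfT.zero).not ?_
    refine Df.all ?_
    refine Df.imp (hF _ _) (Df.imp ?_ (Df.eq (DfT.v _) (DfT.v _)))
    refine Df.ex ?_
    exact Df.and (Df.mem (DfT.v _)) (Df.eq (DfT.v _) ((DfT.v _).add ((DfT.v _).mul (DfT.v _))))

end

end Pool.Agent.H64R2.VF
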