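import Pool.Agent.H64R2.VF.UDC

/-!
# Interpretation of arithmetic: the class of interpretable predicates
-/

namespace Pool.Agent.H64R2.VF

open Pool.Agent.Helper180.ArithDef
open Function (update)

section
variable {K : Type} [Field K] [Infinite K] {O : Set K} {p : ℕ} [hp : Fact p.Prime] [CharP K p]
  {φ₀ : Fm} {i₀ N₀ : ℕ}

variable (O φ₀ i₀) in
/-- the definable family has finite members of unbounded size -/
def Unb : Prop := ∀ n : ℕ, ∃ z : ℕ → K, {s | φ₀.Holds O (update z i₀ s)}.Finite ∧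
  n ≤ {s | φ₀.Holds O (update z i₀ s)}.ncard

theorem exists_rep (hN : ∀ n ∈ φ₀.free, n < N₀) (hun : Unb O φ₀ i₀) {t : K} (ht : Good2 p t)
    (n : ℕ) : ∃ x, Rep O p φ₀ i₀ N₀ t x n := by
  classical
  obtain ⟨z, hz, hn⟩ := hun n
  set S := hz.toFinset with hS
  obtain ⟨J, hJ, hJn⟩ := Set.exists_subset_card_eq hn
  obtain ⟨c, _, hc⟩ := exists_cod p ht S
  obtain ⟨C, hC⟩ := hc J
  set g : ℕ → K := fun j => if j = N₀ then c else if j = N₀ + 1 then C else z j with hg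
  refine ⟨tup p t (N₀ + 2) g, ?_⟩
  have e : Fx O p φ₀ i₀ N₀ t (tup p t (N₀ + 2) g) = J := by
    ext s
    change Mem O p φ₀ i₀ N₀ t (tup p t (N₀ + 2) g) s ↔ s ∈ J
    rw [mem_tup ht.1 hN]
    have e1 : g N₀ = c := by simp [hg]
    have e2 : g (N₀ + 1) = C := by simp [hg]
    have e3 : φ₀.Holds O (update g i₀ s) ↔ φ₀.Holds O (update z i₀ s) := by
      apply holds_congr
      intro m hm
      have := hN m hm
      by_cases h : m = i₀
      · subst h; simp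
      · rw [Function.update_of_ne h, Function.update_of_ne h]
        simp only [hg]
        rw [if_neg (by omega), if_neg (by omega)]
    rw [e1, e2, e3]
    constructor
    · rintro ⟨h1, h2⟩
      exact (hC s (by rw [hS, Set.Finite.mem_toFinset]; exact h1)).1 h2
    · intro h
      have h1 := hJ h
      exact ⟨h1, (hC s (by rw [hS, Set.Finite.mem_toFinset]; exact h1)).2 h⟩
  rw [Rep, e]
  exact ⟨hz.subset hJ, hJn⟩

variable (O p φ₀ i₀ N₀) in
/-- the class of interpretable predicates -/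
def DD (R : (ℕ → ℕ) → Prop) : Prop :=
  ∃ S : K → (ℕ → K) → Prop, Df O S ∧ ∀ t, Good2 p t → ∀ (v : ℕ → K) (w : ℕ → ℕ),
    (∀ i, Rep O p φ₀ i₀ N₀ t (v i) (w i)) → (S t v ↔ R w)

omit [Infinite K] hp [CharP K p] in
theorem df_fx (hN : ∀ n ∈ φ₀.free, n < N₀) (i j : ℕ) :
    Df O (fun t v => v j ∈ Fx O p φ₀ i₀ N₀ t (v i)) :=
  Df.app2 (S := fun t x s => Mem O p φ₀ i₀ N₀ t x s) (df_mem O p φ₀ i₀ hN) i j

theorem dc (hN : ∀ n ∈ φ₀.free, n < N₀) (hfin : ∀ X : Set K, FinC O X ↔ X.Finite)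
    (hun : Unb O φ₀ i₀) : DC (DD O p φ₀ i₀ N₀) where
  add := by
    refine ⟨_, df_addC (p := p) (F := Fx O p φ₀ i₀ N₀) (df_fx hN) 0 1 2, fun t ht v w h => ?_⟩
    rw [addC_iff ht (h 0).1 (h 1).1 (h 2).1, (h 0).2, (h 1).2, (h 2).2]
  mul := by
    refine ⟨_, df_mulC (p := p) (F := Fx O p φ₀ i₀ N₀) (df_fx hN) 0 1 2, fun t ht v w h => ?_⟩
    rw [mulC_iff ht (h 0).1 (h 1).1 (h 2).1, (h 0).2, (h 1).2, (h 2).2]
  bot := ⟨_, Df.false, fun _ _ _ _ _ => Iff.rfl⟩
  imp := by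
    rintro R R' ⟨S, hS, h⟩ ⟨S', hS', h'⟩
    refine ⟨_, hS.imp hS', fun t ht v w hv => ?_⟩
    rw [h t ht v w hv, h' t ht v w hv]
  ren := by
    rintro R ρ ⟨S, hS, h⟩
    exact ⟨_, hS.ren ρ, fun t ht v w hv => h t ht _ _ fun i => hv (ρ i)⟩
  all := by
    rintro R ⟨S, hS, h⟩
    refine ⟨fun t v => ∀ a, FinC O (Fx O p φ₀ i₀ N₀ t a) → S t (cns a v), ?_, fun t ht v w hv => ?_⟩
    · refine Df.all ?_
      refine Df.imp (df_finC (F := Fx O p φ₀ i₀ N₀) (df_fx hN) 0) ?_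
      refine Df.iff (fun t v => ?_) hS
      rw [cns_eta]
    · constructor
      · intro h1 a
        obtain ⟨x, hx⟩ := exists_rep hN hun ht a
        refine (h t ht (cns x v) (cns a w) ?_).1 (h1 x ((hfin _).2 hx.1))
        rintro (_ | i)
        · exact hx
        · exact hv i
      · intro h1 a ha
        refine (h t ht (cns a v) (cns (Fx O p φ₀ i₀ N₀ t a).ncard w) ?_).2 (h1 _)
        rintro (_ | i)
        · exact ⟨(hfin _).1 ha, rfl⟩
        · exact hv i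

end

end Pool.Agent.H64R2.VF
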