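import Pool.Agent.H64R2.VF.Laur

/-!
# Uniform finiteness: definitions

If `T_p` is decidable then `𝔽_p((t))` has uniform finiteness: in every definable family of subsets
of `𝔽_p((t))` the finite members have bounded size.
-/

namespace Pool.Agent.H64R2.VF

/-- `K = G ⊕ 𝔽_p` -/
def Good2 {K : Type} [Field K] (p : ℕ) (t : K) : Prop :=
  Good p t ∧ ∀ x : K, ∃ e < p, GG p t (x - (e : K))

/-- `C / (c - s)` lies in `G` -/
def Cod {K : Type} [Field K] (p : ℕ) (t c C s : K) : Prop := ∃ y, y * (c - s) = C ∧ GG p t y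

/-- a first-order criterion for finiteness, in terms of the valuation ring `O` -/
def FinC {K : Type} [Field K] (O : Set K) (X : Set K) : Prop :=
  (∃ r, ∀ x ∈ X, ∃ o ∈ O, x = r * o) ∧
    ∀ x, ∃ e, e ≠ 0 ∧ ∀ y ∈ X, (∃ o ∈ O, y = x + e * o) → y = x

end Pool.Agent.H64R2.VF
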