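import Pool.Agent.H64R2.VF.Form
import Pool.Agent.H64R2.VF.UDefs
import Pool.Agent.Helper180.ArithDef

/-!
# Definable predicates
-/

namespace Pool.Agent.H64R2.VF

open Pool.Agent.Helper180.ArithDef (cns cns_zero cns_succ)
open Function (update)

section
variable {K : Type} [Field K] (O : Set K)

theorem eval_congr (s : Tm) {v v' : ℕ → K} (h : ∀ n ∈ s.vars, v n = v' n) :
    s.eval v = s.eval v' := by
  induction s with
  | var n => exact h n (by simp [Tm.vars])
  | zero => rfl
  | one => rfl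
  | add s t ihs iht =>
    simp only [Tm.eval]
    rw [ihs (fun n hn => h n (by simp [Tm.vars, hn])), iht (fun n hn => h n (by simp [Tm.vars, hn]))]
  | neg s ih =>
    simp only [Tm.eval]
    rw [ih (fun n hn => h n (by simpa [Tm.vars] using hn))]
  | mul s t ihs iht =>
    simp only [Tm.eval]
    rw [ihs (fun n hn => h n (by simp [Tm.vars, hn])), iht (fun n hn => h n (by simp [Tm.vars, hn]))]

theorem holds_congr (φ : Fm) : ∀ {v v' : ℕ → K}, (∀ n ∈ φ.free, v n = v' n) →
    (φ.Holds O v ↔ φ.Holds O v') := by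
  induction φ with
  | eq s t =>
    intro v v' h
    simp only [Fm.Holds]
    rw [eval_congr s (fun n hn => h n (by simp [Fm.free, hn])),
      eval_congr t (fun n hn => h n (by simp [Fm.free, hn]))]
  | val s =>
    intro v v' h
    simp only [Fm.Holds]
    rw [eval_congr s (fun n hn => h n (by simpa [Fm.free] using hn))]
  | not φ ih =>
    intro v v' h
    simp only [Fm.Holds]
    rw [ih (fun n hn => h n (by simpa [Fm.free] using hn))]
  | and φ ψ ih1 ih2 =>
    intro v v' h
    simp only [Fm.Holds]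
    rw [ih1 (fun n hn => h n (by simp [Fm.free, hn])), ih2 (fun n hn => h n (by simp [Fm.free, hn]))]
  | or φ ψ ih1 ih2 =>
    intro v v' h
    simp only [Fm.Holds]
    rw [ih1 (fun n hn => h n (by simp [Fm.free, hn])), ih2 (fun n hn => h n (by simp [Fm.free, hn]))]
  | all m φ ih =>
    intro v v' h
    simp only [Fm.Holds]
    refine forall_congr' fun g => ih fun n hn => ?_
    by_cases hnm : n = m
    · subst hnm; simp
    · rw [Function.update_of_ne hnm, Function.update_of_ne hnm]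
      exact h n (by simp [Fm.free, hn, hnm])
  | ex m φ ih =>
    intro v v' h
    simp only [Fm.Holds]
    refine exists_congr fun g => ih fun n hn => ?_
    by_cases hnm : n = m
    · subst hnm; simp
    · rw [Function.update_of_ne hnm, Function.update_of_ne hnm]
      exact h n (by simp [Fm.free, hn, hnm])

/-- renaming the variables of a term -/
def tren (ρ : ℕ → ℕ) : Tm → Tm
  | .var n => .var (ρ n)
  | .zero => .zero
  | .one => .one
  | .add s t => .add (tren ρ s) (tren ρ t)
  | .neg s => .neg (tren ρ s)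
  | .mul s t => .mul (tren ρ s) (tren ρ t)

theorem eval_tren (ρ : ℕ → ℕ) (s : Tm) (v : ℕ → K) :
    (tren ρ s).eval v = s.eval (fun n => v (ρ n)) := by
  induction s with
  | var n => rfl
  | zero => rfl
  | one => rfl
  | add s t ihs iht => simp only [tren, Tm.eval, ihs, iht]
  | neg s ih => simp only [tren, Tm.eval, ih]
  | mul s t ihs iht => simp only [tren, Tm.eval, ihs, iht]

theorem vars_tren (ρ : ℕ → ℕ) (s : Tm) : (tren ρ s).vars ⊆ s.vars.image ρ := by
  induction s with
  | var n => simp [tren, Tm.vars]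
  | zero => simp [tren, Tm.vars]
  | one => simp [tren, Tm.vars]
  | add s t ihs iht =>
    simp only [tren, Tm.vars, Finset.image_union]
    exact Finset.union_subset_union ihs iht
  | neg s ih => simpa only [tren, Tm.vars] using ih
  | mul s t ihs iht =>
    simp only [tren, Tm.vars, Finset.image_union]
    exact Finset.union_subset_union ihs iht

theorem exists_fresh (s : Finset ℕ) : ∃ m, m ∉ s := Infinite.exists_notMem_finset s

theorem exists_ren (φ : Fm) : ∀ ρ : ℕ → ℕ, ∃ φ' : Fm,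
    (∀ {K : Type} [Field K] (O : Set K) (v : ℕ → K),
      φ'.Holds O v ↔ φ.Holds O (fun n => v (ρ n))) ∧ φ'.free ⊆ φ.free.image ρ := by
  have hq : ∀ (n : ℕ) (ρ : ℕ → ℕ) (φ : Fm) (m : ℕ), m ∉ (φ.free.erase n).image ρ →
      ∀ {K : Type} [Field K] (O : Set K) (v : ℕ → K) (a : K),
      (φ.Holds O (fun i => update v m a (update ρ n m i)) ↔
        φ.Holds O (update (fun i => v (ρ i)) n a)) := by
    intro n ρ φ m hm K _ O v a
    apply holds_congr
    intro i hi
    by_cases h : i = n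
    · subst h
      rw [Function.update_self, Function.update_self, Function.update_self]
    · rw [Function.update_of_ne h, Function.update_of_ne h, Function.update_of_ne]
      intro h2
      exact hm (Finset.mem_image.2 ⟨i, Finset.mem_erase.2 ⟨h, hi⟩, h2⟩)
  have hf : ∀ (n : ℕ) (ρ : ℕ → ℕ) (φ φ' : Fm) (m : ℕ), φ'.free ⊆ φ.free.image (update ρ n m) →
      φ'.free.erase m ⊆ (φ.free.erase n).image ρ := by
    intro n ρ φ φ' m h i hi
    rw [Finset.mem_erase] at hi
    obtain ⟨j, hj, hji⟩ := Finset.mem_image.1 (h hi.2)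
    by_cases hjn : j = n
    · subst hjn
      rw [Function.update_self] at hji
      exact absurd hji.symm hi.1
    · rw [Function.update_of_ne hjn] at hji
      exact Finset.mem_image.2 ⟨j, Finset.mem_erase.2 ⟨hjn, hj⟩, hji⟩
  induction φ with
  | eq s t =>
    intro ρ
    refine ⟨.eq (tren ρ s) (tren ρ t), fun O v => by simp only [Fm.Holds, eval_tren], ?_⟩
    simp only [Fm.free, Finset.image_union]
    exact Finset.union_subset_union (vars_tren ρ s) (vars_tren ρ t)
  | val s =>
    intro ρ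
    exact ⟨.val (tren ρ s), fun O v => by simp only [Fm.Holds, eval_tren], vars_tren ρ s⟩
  | not φ ih =>
    intro ρ
    obtain ⟨φ', h1, h2⟩ := ih ρ
    exact ⟨.not φ', fun O v => by simp only [Fm.Holds, h1], h2⟩
  | and φ ψ ih1 ih2 =>
    intro ρ
    obtain ⟨φ', h1, h2⟩ := ih1 ρ
    obtain ⟨ψ', h3, h4⟩ := ih2 ρ
    refine ⟨.and φ' ψ', fun O v => by simp only [Fm.Holds, h1, h3], ?_⟩
    simp only [Fm.free, Finset.image_union]
    exact Finset.union_subset_union h2 h4
  | or φ ψ ih1 ih2 =>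
    intro ρ
    obtain ⟨φ', h1, h2⟩ := ih1 ρ
    obtain ⟨ψ', h3, h4⟩ := ih2 ρ
    refine ⟨.or φ' ψ', fun O v => by simp only [Fm.Holds, h1, h3], ?_⟩
    simp only [Fm.free, Finset.image_union]
    exact Finset.union_subset_union h2 h4
  | all n φ ih =>
    intro ρ
    obtain ⟨m, hm⟩ := exists_fresh ((φ.free.erase n).image ρ)
    obtain ⟨φ', h1, h2⟩ := ih (update ρ n m)
    refine ⟨.all m φ', fun O v => ?_, hf n ρ φ φ' m h2⟩
    simp only [Fm.Holds, h1]
    exact forall_congr' fun a => hq n ρ φ m hm O v a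
  | ex n φ ih =>
    intro ρ
    obtain ⟨m, hm⟩ := exists_fresh ((φ.free.erase n).image ρ)
    obtain ⟨φ', h1, h2⟩ := ih (update ρ n m)
    refine ⟨.ex m φ', fun O v => ?_, hf n ρ φ φ' m h2⟩
    simp only [Fm.Holds, h1]
    exact exists_congr fun a => hq n ρ φ m hm O v a

/-! ### definable predicates of `t` and a sequence -/

/-- definable predicates -/
def Df (S : K → (ℕ → K) → Prop) : Prop := ∃ φ : Fm, ∀ t v, φ.Holds O (cns t v) ↔ S t v

/-- definable functions given by terms -/
def DfT (F : K → (ℕ → K) → K) : Prop := ∃ s : Tm, ∀ t v, s.eval (cns t v) = F t v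

theorem DfT.tt : DfT (fun (t : K) _ => t) := ⟨.var 0, fun _ _ => rfl⟩
theorem DfT.v (i : ℕ) : DfT (fun (_ : K) v => v i) := ⟨.var (i + 1), fun _ _ => rfl⟩
theorem DfT.zero : DfT (fun (_ : K) _ => (0 : K)) := ⟨.zero, fun _ _ => rfl⟩
theorem DfT.one : DfT (fun (_ : K) _ => (1 : K)) := ⟨.one, fun _ _ => rfl⟩

variable {F G : K → (ℕ → K) → K}

theorem DfT.add (hF : DfT F) (hG : DfT G) : DfT (fun t v => F t v + G t v) := by
  obtain ⟨s, hs⟩ := hF
  obtain ⟨u, hu⟩ := hG
  exact ⟨.add s u, fun t v => by simp [hs, hu]⟩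

theorem DfT.mul (hF : DfT F) (hG : DfT G) : DfT (fun t v => F t v * G t v) := by
  obtain ⟨s, hs⟩ := hF
  obtain ⟨u, hu⟩ := hG
  exact ⟨.mul s u, fun t v => by simp [hs, hu]⟩

theorem DfT.sub (hF : DfT F) (hG : DfT G) : DfT (fun t v => F t v - G t v) := by
  obtain ⟨s, hs⟩ := hF
  obtain ⟨u, hu⟩ := hG
  exact ⟨s.sub u, fun t v => by simp [hs, hu]⟩

theorem DfT.pow (hF : DfT F) (n : ℕ) : DfT (fun t v => F t v ^ n) := by
  obtain ⟨s, hs⟩ := hF
  exact ⟨s.pow n, fun t v => by simp [hs]⟩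

theorem DfT.natCast (n : ℕ) : DfT (fun (_ : K) _ => (n : K)) := by
  induction n with
  | zero => simpa using DfT.zero (K := K)
  | succ n ih => simpa using ih.add DfT.one

variable {S R : K → (ℕ → K) → Prop}
variable {O}

theorem Df.iff (h : ∀ t v, R t v ↔ S t v) (hR : Df O R) : Df O S := by
  obtain ⟨φ, hφ⟩ := hR
  exact ⟨φ, fun t v => (hφ t v).trans (h t v)⟩

theorem Df.eq (hF : DfT F) (hG : DfT G) : Df O (fun t v => F t v = G t v) := by
  obtain ⟨s, hs⟩ := hF
  obtain ⟨u, hu⟩ := hG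
  exact ⟨.eq s u, fun t v => by simp [hs, hu]⟩

theorem Df.mem (hF : DfT F) : Df O (fun t v => F t v ∈ O) := by
  obtain ⟨s, hs⟩ := hF
  exact ⟨.val s, fun t v => by simp [Fm.Holds, hs]⟩

theorem Df.not (h : Df O S) : Df O (fun t v => ¬ S t v) := by
  obtain ⟨φ, hφ⟩ := h
  exact ⟨.not φ, fun t v => by simp [hφ]⟩

theorem Df.and (hR : Df O R) (hS : Df O S) : Df O (fun t v => R t v ∧ S t v) := by
  obtain ⟨φ, hφ⟩ := hR
  obtain ⟨ψ, hψ⟩ := hS
  exact ⟨.and φ ψ, fun t v => by simp [hφ, hψ]⟩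

theorem Df.or (hR : Df O R) (hS : Df O S) : Df O (fun t v => R t v ∨ S t v) := by
  obtain ⟨φ, hφ⟩ := hR
  obtain ⟨ψ, hψ⟩ := hS
  exact ⟨.or φ ψ, fun t v => by simp [hφ, hψ]⟩

theorem Df.imp (hR : Df O R) (hS : Df O S) : Df O (fun t v => R t v → S t v) := by
  obtain ⟨φ, hφ⟩ := hR
  obtain ⟨ψ, hψ⟩ := hS
  exact ⟨.imp φ ψ, fun t v => by simp [hφ, hψ]⟩

theorem Df.ren (ρ : ℕ → ℕ) (h : Df O S) : Df O (fun t v => S t (fun i => v (ρ i))) := by
  obtain ⟨φ, hφ⟩ := h
  obtain ⟨φ', h1, _⟩ := exists_ren φ (fun n => Nat.casesOn n 0 (fun i => ρ i + 1))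
  refine ⟨φ', fun t v => ?_⟩
  change φ'.Holds O (cns t v) ↔ S t (fun i => v (ρ i))
  rw [h1, ← hφ]
  apply iff_of_eq
  congr 1
  funext n
  cases n <;> rfl

theorem Df.ex {S : K → K → (ℕ → K) → Prop}
    (h : Df O (fun t v => S t (v 0) (fun n => v (n + 1)))) : Df O (fun t v => ∃ a, S t a v) := by
  obtain ⟨φ, hφ⟩ := h
  obtain ⟨m, hm⟩ := exists_fresh (insert 0 (φ.free.image (fun n => n - 1)))
  rw [Finset.mem_insert, not_or] at hm
  set ρ : ℕ → ℕ := fun n => Nat.casesOn n 0 (fun i => Nat.casesOn i m (fun j => j + 1)) with hρ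
  obtain ⟨φ', h1, _⟩ := exists_ren φ ρ
  refine ⟨.ex m φ', fun t v => ?_⟩
  rw [holds_ex]
  refine exists_congr fun a => ?_
  have h2 := hφ t (cns a v)
  simp only [cns_zero, cns_succ] at h2
  rw [h1, ← h2]
  apply holds_congr
  intro n hn
  rcases n with _ | _ | j
  · change update (cns t v) m a 0 = t
    rw [Function.update_of_ne (Ne.symm hm.1)]
    rfl
  · change update (cns t v) m a m = a
    rw [Function.update_self]
  · have h3 : m ≠ j + 1 := by
      intro h
      apply hm.2
      exact Finset.mem_image.2 ⟨j + 2, hn, by omega⟩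
    change update (cns t v) m a (j + 1) = v j
    rw [Function.update_of_ne (Ne.symm h3)]
    rfl

theorem Df.all {S : K → K → (ℕ → K) → Prop}
    (h : Df O (fun t v => S t (v 0) (fun n => v (n + 1)))) : Df O (fun t v => ∀ a, S t a v) :=
  Df.iff (fun t v => by simp) (Df.ex (S := fun t a v => ¬ S t a v) h.not).not

theorem Df.gg {p : ℕ} (hF : DfT F) : Df O (fun t v => GG p t (F t v)) := by
  obtain ⟨s, hs⟩ := hF
  refine ⟨ggF p s (max s.bd 1), fun t v => ?_⟩
  rw [holds_ggF _ _ _ _ (le_max_left _ _) (lt_of_lt_of_le one_pos (le_max_right _ _)), hs]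
  rfl

theorem Df.false : Df O (fun _ _ => False) :=
  Df.iff (fun t v => by simp) (Df.eq (DfT.zero) (DfT.one))

/-- application to variables -/
theorem Df.app2 {S : K → K → K → Prop} (h : Df O (fun t v => S t (v 0) (v 1))) (i j : ℕ) :
    Df O (fun t v => S t (v i) (v j)) :=
  (h.ren (fun n => Nat.casesOn n i (fun _ => j)))

end

end Pool.Agent.H64R2.VF
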