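import Pool.Agent.H64R2.VF.UFinal

/-!
# Definable families of discrete sets
-/

namespace Pool.Agent.H64R2.VF

open Pool.Agent.Helper180.ArithDef
open Pool.Agent.NPC (T toT bits lang TEnc)
open Function (update)

/-- the elements of `X` which lie in `r O` and are separated from the rest of `X` by `e O` -/
theorem exists_part (φ : Fm) (i N : ℕ) (hN : ∀ n ∈ φ.free, n < N) (hi : i < N) : ∃ ψ : Fm,
    ∀ {K : Type} [Field K] (O : Set K) (z : ℕ → K) (r e a : K),
      ψ.Holds O (update (update (update z N r) (N + 1) e) i a) ↔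
        (φ.Holds O (update z i a) ∧ (∃ o ∈ O, a = r * o) ∧
          ∀ b, φ.Holds O (update z i b) → (∃ o ∈ O, b = a + e * o) → b = a) := by
  obtain ⟨φ', h1, _⟩ := exists_ren φ (fun j => if j = i then N + 2 else j)
  refine ⟨.and φ (.and (.ex (N + 2) (.and (.val (.var (N + 2)))
    (.eq (.var i) (.mul (.var N) (.var (N + 2)))))) (.all (N + 2) (.imp φ' (.imp
      (.ex (N + 3) (.and (.val (.var (N + 3))) (.eq (.var (N + 2)) (.add (.var i)
        (.mul (.var (N + 1)) (.var (N + 3)))))))
      (.eq (.var (N + 2)) (.var i)))))), ?_⟩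
  intro K _ O z r e a
  have e1 : φ.Holds O (update (update (update z N r) (N + 1) e) i a) ↔
      φ.Holds O (update z i a) := by
    apply holds_congr
    intro n hn
    have := hN n hn
    by_cases h : n = i
    · subst h; simp
    · rw [Function.update_of_ne h, Function.update_of_ne h, Function.update_of_ne (by omega),
        Function.update_of_ne (by omega)]
  have e2 : ∀ b : K, φ'.Holds O (update (update (update (update z N r) (N + 1) e) i a) (N + 2) b) ↔
      φ.Holds O (update z i b) := by
    intro b
    rw [h1]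
    apply holds_congr
    intro n hn
    have := hN n hn
    by_cases h : n = i
    · subst h; simp
    · simp only [if_neg h]
      rw [Function.update_of_ne (by omega), Function.update_of_ne h,
        Function.update_of_ne (by omega), Function.update_of_ne (by omega),
        Function.update_of_ne h]
  have n1 : i ≠ N + 2 := by omega
  have n2 : i ≠ N + 3 := by omega
  have n3 : N ≠ N + 2 := by omega
  have n4 : N ≠ i := by omega
  have n5 : N ≠ N + 1 := by omega
  have n6 : N + 1 ≠ i := by omega
  have n7 : N + 1 ≠ N + 2 := by omega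
  have n8 : N + 1 ≠ N + 3 := by omega
  have n9 : N + 2 ≠ N + 3 := by omega
  have n10 : N + 2 ≠ i := by omega
  simp only [holds_imp, Fm.Holds, eval_var, eval_mul, eval_add, e1, e2]
  refine and_congr Iff.rfl (and_congr (exists_congr fun o => and_congr ?_ ?_)
    (forall_congr' fun b => imp_congr Iff.rfl (imp_congr (exists_congr fun o => and_congr ?_ ?_)
      ?_)))
  · rw [Function.update_self]
  · rw [Function.update_self, Function.update_of_ne n1, Function.update_self,
      Function.update_of_ne n3, Function.update_of_ne n4, Function.update_of_ne n5,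
      Function.update_self]
  · rw [Function.update_self]
  · rw [Function.update_of_ne n9, Function.update_self, Function.update_of_ne n2,
      Function.update_of_ne n1, Function.update_self, Function.update_of_ne n8,
      Function.update_of_ne n7, Function.update_of_ne n6, Function.update_self,
      Function.update_self]
  · rw [Function.update_self, Function.update_of_ne n1, Function.update_self]

/-- A set `X` of Laurent series is discrete: every point of `X` has a neighbourhood (a ball of
the `t`-adic valuation) which contains no other point of `X`. -/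
def Discr {p : ℕ} [Fact p.Prime] (X : Set (LaurentSeries (ZMod p))) : Prop :=
  ∀ a ∈ X, ∃ n : ℤ, ∀ b ∈ X, (∀ m < n, (b - a).coeff m = 0) → b = a

theorem single_iff {p : ℕ} [Fact p.Prime] (n : ℤ) (x : LaurentSeries (ZMod p)) :
    (∃ o ∈ valRing p, x = HahnSeries.single n (1 : ZMod p) * o) ↔ ∀ m < n, x.coeff m = 0 := by
  have hne : (HahnSeries.single n (1 : ZMod p) : LaurentSeries (ZMod p)) ≠ 0 :=
    HahnSeries.single_ne_zero one_ne_zero
  have ho : (HahnSeries.single n (1 : ZMod p) : LaurentSeries (ZMod p)).order = n :=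
    HahnSeries.order_single one_ne_zero
  constructor
  · rintro ⟨o, ho', rfl⟩ m hm
    exact coeff_of_mul hne ho' (by rw [ho]; exact hm)
  · intro h
    exact exists_mul_of_coeff hne (by rw [ho]; exact h)

theorem single_iff' {p : ℕ} [Fact p.Prime] (n : ℤ) (a b : LaurentSeries (ZMod p)) :
    (∃ o ∈ valRing p, b = a + HahnSeries.single n (1 : ZMod p) * o) ↔
      ∀ m < n, (b - a).coeff m = 0 := by
  rw [← single_iff]
  refine exists_congr fun o => and_congr Iff.rfl ?_
  rw [sub_eq_iff_eq_add']

/-- Discrete sets are bounded in size. -/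
theorem uniform_discrete (p : ℕ) [hp : Fact p.Prime]
    (h : ComputablePred (fun x : List Bool => x ∈ lang (Tp p))) (φ : Fm) (i : ℕ) :
    ∃ N : ℕ, ∀ z : ℕ → LaurentSeries (ZMod p),
      Discr {a | φ.Holds (valRing p) (update z i a)} →
        {a | φ.Holds (valRing p) (update z i a)}.Finite ∧
        {a | φ.Holds (valRing p) (update z i a)}.ncard ≤ N := by
  classical
  set N₀ := max (φ.free.sup id) i + 1 with hN₀
  have hN : ∀ n ∈ φ.free, n < N₀ := by
    intro n hn
    have : id n ≤ φ.free.sup id := Finset.le_sup hn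
    simp only [id] at this
    omega
  obtain ⟨ψ, hψ⟩ := exists_part φ i N₀ hN (by omega)
  obtain ⟨N, hNψ⟩ := uniform_finiteness p h ψ i
  refine ⟨N, fun z hz => ?_⟩
  set X := {a | φ.Holds (valRing p) (update z i a)} with hX
  have key : ∀ s : Finset (LaurentSeries (ZMod p)), (s : Set (LaurentSeries (ZMod p))) ⊆ X →
      s.card ≤ N := by
    intro s hs
    obtain ⟨k, hk⟩ : ∃ k : ℤ, ∀ a ∈ s, ∀ m < k, a.coeff m = 0 := by
      obtain ⟨L, hL⟩ := (s.finite_toSet.image
        (fun x : LaurentSeries (ZMod p) => x.order)).bddBelow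
      refine ⟨L, fun a ha m hm => ?_⟩
      apply HahnSeries.coeff_eq_zero_of_lt_order
      exact lt_of_lt_of_le hm (hL ⟨a, ha, rfl⟩)
    have hz' : ∀ a : LaurentSeries (ZMod p), ∃ n : ℤ, a ∈ X → ∀ b ∈ X,
        (∀ m < n, (b - a).coeff m = 0) → b = a := by
      intro a
      by_cases ha : a ∈ X
      · obtain ⟨n, hn⟩ := hz a ha
        exact ⟨n, fun _ => hn⟩
      · exact ⟨0, fun h => absurd h ha⟩
    choose f hf using hz'
    obtain ⟨n, hn⟩ : ∃ n : ℤ, ∀ a ∈ s, ∀ b ∈ X, (∀ m < n, (b - a).coeff m = 0) → b = a := by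
      obtain ⟨U, hU⟩ := (s.finite_toSet.image f).bddAbove
      refine ⟨U, fun a ha b hb hm => hf a (hs ha) b hb fun m hm' => hm m ?_⟩
      exact lt_of_lt_of_le hm' (hU ⟨a, ha, rfl⟩)
    set z' := update (update z N₀ (HahnSeries.single k (1 : ZMod p) : LaurentSeries (ZMod p)))
      (N₀ + 1) (HahnSeries.single n (1 : ZMod p) : LaurentSeries (ZMod p)) with hz'
    have hY : ∀ a, a ∈ {a | ψ.Holds (valRing p) (update z' i a)} ↔ (a ∈ X ∧
        (∀ m < k, a.coeff m = 0) ∧ ∀ b ∈ X, (∀ m < n, (b - a).coeff m = 0) → b = a) := by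
      intro a
      change ψ.Holds (valRing p) (update z' i a) ↔ _
      rw [hz', hψ, single_iff]
      refine and_congr Iff.rfl (and_congr Iff.rfl (forall_congr' fun b => imp_congr Iff.rfl ?_))
      rw [single_iff']
    have hfin : {a | ψ.Holds (valRing p) (update z' i a)}.Finite := by
      refine Set.Finite.of_injOn (f := fun (a : LaurentSeries (ZMod p)) (m : Finset.Ico k n) =>
        a.coeff m) (t := Set.univ) (fun _ _ => Set.mem_univ _) ?_ Set.finite_univ
      intro a ha b hb hab
      rw [hY] at ha hb
      refine (ha.2.2 b hb.1 fun m hm => ?_).symm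
      rw [HahnSeries.coeff_sub, sub_eq_zero]
      by_cases hmk : m < k
      · rw [ha.2.1 m hmk, hb.2.1 m hmk]
      · exact (congrFun hab ⟨m, Finset.mem_Ico.2 ⟨not_lt.1 hmk, hm⟩⟩).symm
    have h1 := hNψ z' hfin
    rw [← Set.ncard_coe_finset]
    refine le_trans (Set.ncard_le_ncard ?_ hfin) h1
    intro a ha
    rw [hY]
    exact ⟨hs ha, hk a ha, hn a ha⟩
  have hXfin : X.Finite := by
    by_contra hinf
    obtain ⟨s, hs, hc⟩ := Set.Infinite.exists_subset_card_eq hinf (N + 1)
    have := key s hs
    omega
  refine ⟨hXfin, ?_⟩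
  have := key hXfin.toFinset (by rw [Set.Finite.coe_toFinset])
  rwa [← Set.ncard_eq_toFinset_card X hXfin] at this

end Pool.Agent.H64R2.VF
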