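import Pool.Agent.H64R2.VF.UDD
import Pool.Agent.H64R2.VF.U1
import Pool.Agent.H64R2.VF.U3
import Pool.Agent.NPC.Dec

/-!
# A definable family of finite sets of unbounded size makes the theory undecidable
-/

namespace Pool.Agent.H64R2.VF

open Pool.Agent.Helper180.ArithDef
open Pool.Agent.NPC (T toT bits lang TEnc)
open Function (update)

/-- the formula saying that `x₁` represents `n` -/
def repF (V0 V1 Z S : Fm) : ℕ → Fm
  | 0 => .and V0 Z
  | n + 1 => .and V0 (.ex 2 (.and V1 (.and S (.ex 1 (.and (.eq (.var 1) (.var 2))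
      (repF V0 V1 Z S n))))))

/-- the sentence -/
def sent (G V0 V1 Z S H : Fm) (n : ℕ) : Fm :=
  .ex 0 (.and G (.all 1 (.or (.not (repF V0 V1 Z S n)) H)))

section
variable {G V0 V1 Z S H : Fm}

theorem enc_and (φ ψ : Fm) : (toT (Fm.and φ ψ)).enc =
    (true :: ((toT (3 : ℕ)).enc ++ (true :: (toT φ).enc))) ++ (toT ψ).enc := by
  change (T.node (toT (3 : ℕ)) (T.node (toT φ) (toT ψ))).enc = _
  simp only [T.enc, List.append_assoc, List.cons_append]

theorem enc_ex (i : ℕ) (φ : Fm) : (toT (Fm.ex i φ)).enc =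
    (true :: ((toT (6 : ℕ)).enc ++ (true :: (toT i).enc))) ++ (toT φ).enc := by
  change (T.node (toT (6 : ℕ)) (T.node (toT i) (toT φ))).enc = _
  simp only [T.enc, List.append_assoc, List.cons_append]

theorem enc_all (i : ℕ) (φ : Fm) : (toT (Fm.all i φ)).enc =
    (true :: ((toT (5 : ℕ)).enc ++ (true :: (toT i).enc))) ++ (toT φ).enc := by
  change (T.node (toT (5 : ℕ)) (T.node (toT i) (toT φ))).enc = _
  simp only [T.enc, List.append_assoc, List.cons_append]

theorem enc_not_or (φ ψ : Fm) : (toT (Fm.or (.not φ) ψ)).enc =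
    (true :: ((toT (4 : ℕ)).enc ++ (true :: true :: (toT (2 : ℕ)).enc))) ++ ((toT φ).enc ++
      (toT ψ).enc) := by
  change (T.node (toT (4 : ℕ)) (T.node (T.node (toT (2 : ℕ)) (toT φ)) (toT ψ))).enc = _
  simp only [T.enc, List.append_assoc, List.cons_append]

theorem exists_prefix_repF (V0 V1 Z S : Fm) : ∃ P : List Bool, ∀ n,
    (toT (repF V0 V1 Z S (n + 1))).enc = P ++ (toT (repF V0 V1 Z S n)).enc := by
  refine ⟨(true :: ((toT (3 : ℕ)).enc ++ (true :: (toT V0).enc))) ++
    ((true :: ((toT (6 : ℕ)).enc ++ (true :: (toT (2 : ℕ)).enc))) ++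
    ((true :: ((toT (3 : ℕ)).enc ++ (true :: (toT V1).enc))) ++
    ((true :: ((toT (3 : ℕ)).enc ++ (true :: (toT S).enc))) ++
    ((true :: ((toT (6 : ℕ)).enc ++ (true :: (toT (1 : ℕ)).enc))) ++
    (true :: ((toT (3 : ℕ)).enc ++ (true :: (toT (Fm.eq (.var 1) (.var 2))).enc))))))),
    fun n => ?_⟩
  rw [repF, enc_and, enc_ex, enc_and, enc_and, enc_ex, enc_and]
  simp only [List.append_assoc]

theorem exists_prefix_sent (G V0 V1 Z S H : Fm) : ∃ P Q : List Bool, ∀ n,
    (toT (sent G V0 V1 Z S H n)).enc = P ++ (toT (repF V0 V1 Z S n)).enc ++ Q := by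
  refine ⟨(true :: ((toT (6 : ℕ)).enc ++ (true :: (toT (0 : ℕ)).enc))) ++
    ((true :: ((toT (3 : ℕ)).enc ++ (true :: (toT G).enc))) ++
    ((true :: ((toT (5 : ℕ)).enc ++ (true :: (toT (1 : ℕ)).enc))) ++
    (true :: ((toT (4 : ℕ)).enc ++ (true :: true :: (toT (2 : ℕ)).enc))))), (toT H).enc,
    fun n => ?_⟩
  rw [sent, enc_ex, enc_and, enc_all, enc_not_or]
  simp only [List.append_assoc]

theorem computable_sent (G V0 V1 Z S H : Fm) : Computable (fun n => bits (sent G V0 V1 Z S H n)) := by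
  obtain ⟨P, hP⟩ := exists_prefix_repF V0 V1 Z S
  obtain ⟨P', Q', h'⟩ := exists_prefix_sent G V0 V1 Z S H
  have h1 : Primrec (Nat.rec (toT (repF V0 V1 Z S 0)).enc (fun (_ : ℕ) (l : List Bool) => P ++ l) :
      ℕ → List Bool) :=
    Primrec.nat_rec₁ _ ((Primrec.list_append.comp (Primrec.const P) Primrec.snd).to₂)
  have h2 : Primrec (fun n => (toT (repF V0 V1 Z S n)).enc) := by
    refine h1.of_eq fun n => ?_
    induction n with
    | zero => rfl
    | succ n ih =>
      rw [hP, ← ih]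
  have h3 : Primrec (fun n => P' ++ (toT (repF V0 V1 Z S n)).enc ++ Q') :=
    Primrec.list_append.comp (Primrec.list_append.comp (Primrec.const P') h2) (Primrec.const Q')
  exact (h3.of_eq fun n => (h' n).symm).to_comp

end

section
variable {K : Type} [Field K] [Infinite K] {O : Set K} {p : ℕ} [hp : Fact p.Prime] [CharP K p]
  {φ₀ : Fm} {i₀ N₀ : ℕ}

omit [Infinite K] hp [CharP K p] in
theorem df_orP {S : ℕ → K → (ℕ → K) → Prop} (h : ∀ e, Df O (S e)) (n : ℕ) :
    Df O (fun t v => ∃ e < n, S e t v) := by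
  induction n with
  | zero => exact Df.iff (fun t v => by simp) Df.false
  | succ n ih =>
    refine Df.iff (fun t v => ?_) (ih.or (h n))
    constructor
    · rintro (⟨e, he, h⟩ | h)
      · exact ⟨e, by omega, h⟩
      · exact ⟨n, by omega, h⟩
    · rintro ⟨e, he, h⟩
      rcases Nat.lt_succ_iff_lt_or_eq.1 he with h1 | rfl
      · exact Or.inl ⟨e, h1, h⟩
      · exact Or.inr h

omit [Infinite K] hp [CharP K p] in
theorem df_good2 : Df O (fun t _ => Good2 p t) := by
  unfold Good2 Good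
  refine Df.and (Df.and (Df.eq DfT.tt DfT.zero).not (Df.gg DfT.one).not) ?_
  refine Df.all ?_
  exact df_orP (fun e => Df.gg ((DfT.v 0).sub (DfT.natCast e))) p

omit [Infinite K] hp [CharP K p] in
theorem mkG : ∃ φ : Fm, φ.free ⊆ {0} ∧ ∀ x : ℕ → K, φ.Holds O x ↔ Good2 p (x 0) := by
  obtain ⟨φ, hφ⟩ := df_good2 (K := K) (O := O) (p := p)
  obtain ⟨φ', h1, h2⟩ := exists_ren φ (fun _ => 0)
  refine ⟨φ', h2.trans ?_, fun x => ?_⟩
  · intro y hy
    obtain ⟨_, _, rfl⟩ := Finset.mem_image.1 hy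
    simp
  · have h3 := hφ (x 0) (fun _ => x 0)
    simp only at h3
    rw [h1, ← h3]
    apply iff_of_eq
    congr 1
    funext n
    cases n <;> rfl

omit [Infinite K] hp [CharP K p] in
theorem mkV (hN : ∀ n ∈ φ₀.free, n < N₀) (hfin : ∀ X : Set K, FinC O X ↔ X.Finite) (i : ℕ) :
    ∃ φ : Fm, φ.free ⊆ {0, i} ∧ ∀ x : ℕ → K, φ.Holds O x ↔
      (Fx O p φ₀ i₀ N₀ (x 0) (x i)).Finite := by
  obtain ⟨φ, hφ⟩ := df_finC (F := Fx O p φ₀ i₀ N₀) (df_fx hN) 0
  obtain ⟨φ', h1, h2⟩ := exists_ren φ (fun n => Nat.casesOn n 0 (fun _ => i))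
  refine ⟨φ', h2.trans ?_, fun x => ?_⟩
  · intro y hy
    obtain ⟨n, _, rfl⟩ := Finset.mem_image.1 hy
    cases n <;> simp
  · have h3 := hφ (x 0) (fun _ => x i)
    simp only at h3
    rw [h1, ← hfin, ← h3]
    apply iff_of_eq
    congr 1
    funext n
    cases n <;> rfl

omit [Infinite K] hp [CharP K p] in
theorem mk1 {P : (ℕ → ℕ) → Prop} (hP : DD O p φ₀ i₀ N₀ P) : ∃ φ : Fm, φ.free ⊆ {0, 1} ∧
    ∀ (x : ℕ → K) (n : ℕ), Good2 p (x 0) → Rep O p φ₀ i₀ N₀ (x 0) (x 1) n →
      (φ.Holds O x ↔ P (fun _ => n)) := by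
  obtain ⟨S, ⟨φ, hφ⟩, h⟩ := hP
  obtain ⟨φ', h1, h2⟩ := exists_ren φ (fun n => Nat.casesOn n 0 (fun _ => 1))
  refine ⟨φ', h2.trans ?_, fun x n ht hn => ?_⟩
  · intro y hy
    obtain ⟨n, _, rfl⟩ := Finset.mem_image.1 hy
    cases n <;> simp
  · rw [h1, ← h (x 0) ht (fun _ => x 1) (fun _ => n) (fun _ => hn), ← hφ]
    apply iff_of_eq
    congr 1
    funext n
    cases n <;> rfl

omit [Infinite K] hp [CharP K p] in
theorem mk2 {P : (ℕ → ℕ) → Prop} (hP : DD O p φ₀ i₀ N₀ P) : ∃ φ : Fm, φ.free ⊆ {0, 1, 2} ∧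
    ∀ (x : ℕ → K) (m n : ℕ), Good2 p (x 0) → Rep O p φ₀ i₀ N₀ (x 0) (x 1) m →
      Rep O p φ₀ i₀ N₀ (x 0) (x 2) n → (φ.Holds O x ↔ P (cns m (fun _ => n))) := by
  obtain ⟨S, ⟨φ, hφ⟩, h⟩ := hP
  obtain ⟨φ', h1, h2⟩ := exists_ren φ (fun n => Nat.casesOn n 0 (fun n => Nat.casesOn n 1
    (fun _ => 2)))
  refine ⟨φ', h2.trans ?_, fun x m n ht hm hn => ?_⟩
  · intro y hy
    obtain ⟨n, _, rfl⟩ := Finset.mem_image.1 hy
    rcases n with _ | _ | n <;> simp
  · rw [h1, ← h (x 0) ht (cns (x 1) (fun _ => x 2)) (cns m (fun _ => n)) ?_, ← hφ]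
    · apply iff_of_eq
      congr 1
      funext n
      rcases n with _ | _ | n <;> rfl
    · rintro (_ | i)
      · exact hm
      · exact hn

theorem holds_repF (hN : ∀ n ∈ φ₀.free, n < N₀) (hun : Unb O φ₀ i₀) {V0 V1 Z S : Fm}
    (hV0 : ∀ x : ℕ → K, V0.Holds O x ↔ (Fx O p φ₀ i₀ N₀ (x 0) (x 1)).Finite)
    (hV1 : ∀ x : ℕ → K, V1.Holds O x ↔ (Fx O p φ₀ i₀ N₀ (x 0) (x 2)).Finite)
    (hZ : ∀ (x : ℕ → K) (n : ℕ), Good2 p (x 0) → Rep O p φ₀ i₀ N₀ (x 0) (x 1) n →
      (Z.Holds O x ↔ n = 0))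
    (hS : ∀ (x : ℕ → K) (m n : ℕ), Good2 p (x 0) → Rep O p φ₀ i₀ N₀ (x 0) (x 1) m →
      Rep O p φ₀ i₀ N₀ (x 0) (x 2) n → (S.Holds O x ↔ m = n + 1)) :
    ∀ (n : ℕ) (x : ℕ → K), Good2 p (x 0) →
      ((repF V0 V1 Z S n).Holds O x ↔ Rep O p φ₀ i₀ N₀ (x 0) (x 1) n) := by
  intro n
  induction n with
  | zero =>
    intro x ht
    simp only [repF, holds_and, hV0]
    constructor
    · rintro ⟨h1, h2⟩
      have h3 : Rep O p φ₀ i₀ N₀ (x 0) (x 1) _ := ⟨h1, rfl⟩
      have h4 := (hZ x _ ht h3).1 h2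
      exact ⟨h1, h4⟩
    · intro h
      exact ⟨h.1, (hZ x 0 ht h).2 rfl⟩
  | succ n ih =>
    intro x ht
    simp only [repF, holds_and, holds_ex, hV0, hV1, holds_eq, eval_var, Function.update_self]
    have u0 : ∀ a : K, update x 2 a 0 = x 0 := fun a => Function.update_of_ne (by decide) _ _
    have u1 : ∀ a : K, update x 2 a 1 = x 1 := fun a => Function.update_of_ne (by decide) _ _
    have w0 : ∀ a b : K, update (update x 2 a) 1 b 0 = x 0 := fun a b => by
      rw [Function.update_of_ne (by decide), u0]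
    have w2 : ∀ a b : K, update (update x 2 a) 1 b 2 = a := fun a b => by
      rw [Function.update_of_ne (by decide), Function.update_self]
    have ih' : ∀ a b : K, (repF V0 V1 Z S n).Holds O (update (update x 2 a) 1 b) ↔
        Rep O p φ₀ i₀ N₀ (x 0) b n := fun a b => by
      rw [ih _ (by rw [w0]; exact ht), w0, Function.update_self]
    constructor
    · rintro ⟨h1, g, h2, h3, g', h4, h5⟩
      rw [w2] at h4
      subst h4
      rw [ih'] at h5
      have h6 : Rep O p φ₀ i₀ N₀ (x 0) (x 1) _ := ⟨h1, rfl⟩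
      have h7 := (hS (update x 2 g') _ n (by rw [u0]; exact ht) (by rw [u0, u1]; exact h6)
        (by rw [u0, Function.update_self]; exact h5)).1 h3
      exact ⟨h1, h7⟩
    · intro h
      obtain ⟨y, hy⟩ := exists_rep (p := p) hN hun ht n
      refine ⟨h.1, y, ?_, ?_, y, ?_, (ih' _ _).2 hy⟩
      · rw [u0]; exact hy.1
      · exact (hS (update x 2 y) (n + 1) n (by rw [u0]; exact ht) (by rw [u0, u1]; exact h)
          (by rw [u0, Function.update_self]; exact hy)).2 rfl
      · rw [w2]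

end

theorem free_repF {V0 V1 Z S : Fm} (hV0 : V0.free ⊆ {0, 1}) (hV1 : V1.free ⊆ {0, 2})
    (hZ : Z.free ⊆ {0, 1}) (hS : S.free ⊆ {0, 1, 2}) : ∀ n, (repF V0 V1 Z S n).free ⊆ {0, 1} := by
  intro n
  induction n with
  | zero =>
    simp only [repF, Fm.free]
    exact Finset.union_subset hV0 hZ
  | succ n ih =>
    intro y hy
    simp only [repF, Fm.free, Tm.vars, Finset.mem_union, Finset.mem_erase,
      Finset.mem_singleton] at hy
    simp only [Finset.mem_insert, Finset.mem_singleton]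
    rcases hy with hy | ⟨hy1, hy | hy | ⟨hy2, (hy | hy) | hy⟩⟩
    · simpa using hV0 hy
    · have := hV1 hy
      simp only [Finset.mem_insert, Finset.mem_singleton] at this
      rcases this with h | h
      · exact Or.inl h
      · exact absurd h hy1
    · have := hS hy
      simp only [Finset.mem_insert, Finset.mem_singleton] at this
      rcases this with h | h | h
      · exact Or.inl h
      · exact Or.inr h
      · exact absurd h hy1
    · exact Or.inr hy
    · exact absurd hy hy1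
    · simpa using ih hy

/-- A definable family of finite sets of unbounded size makes the theory undecidable. -/
theorem undecidable_of_unb (p : ℕ) [hp : Fact p.Prime] (φ₀ : Fm) (i₀ : ℕ)
    (hun : Unb (valRing p) φ₀ i₀) : ¬ ComputablePred (fun x : List Bool => x ∈ lang (Tp p)) := by
  intro hdec
  have := infinite_laurent p
  set N₀ := φ₀.free.sup id + 1 with hN₀
  have hN : ∀ n ∈ φ₀.free, n < N₀ := by
    intro n hn
    have : id n ≤ φ₀.free.sup id := Finset.le_sup hn
    simp only [id] at this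
    omega
  have hfin := finC_iff p
  have hdc := dc (p := p) (O := valRing p) hN hfin hun
  obtain ⟨G, fG, hG⟩ := mkG (K := LaurentSeries (ZMod p)) (O := valRing p) (p := p)
  obtain ⟨V0, fV0, hV0⟩ := mkV (p := p) (i₀ := i₀) hN hfin 1
  obtain ⟨V1, fV1, hV1⟩ := mkV (p := p) (i₀ := i₀) hN hfin 2
  obtain ⟨Z, fZ, hZ⟩ := mk1 (hdc.eq (hdc.tvar 0) hdc.tzero)
  obtain ⟨S, fS, hS⟩ := mk2 (hdc.eq (hdc.tvar 0) (hdc.tadd (hdc.tvar 1) hdc.tone))
  obtain ⟨H, fH, hH⟩ := mk1 hdc.halt
  have hrep := holds_repF (p := p) hN hun hV0 hV1 hZ hS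
  have hfree := free_repF fV0 fV1 fZ fS
  have hmem : ∀ n, Tp p (sent G V0 V1 Z S H n) ↔ Halt n := by
    intro n
    have key : (sent G V0 V1 Z S H n).Holds (valRing p) (fun _ => 0) ↔ Halt n := by
      simp only [sent, holds_ex, holds_and, holds_all, holds_or, holds_not, hG,
        Function.update_self]
      have w0 : ∀ a b : LaurentSeries (ZMod p), update (update (fun _ => (0 :
          LaurentSeries (ZMod p))) 0 a) 1 b 0 = a := fun a b => by
        rw [Function.update_of_ne (by decide), Function.update_self]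
      have w1 : ∀ a b : LaurentSeries (ZMod p), update (update (fun _ => (0 :
          LaurentSeries (ZMod p))) 0 a) 1 b 1 = b := fun a b => by
        rw [Function.update_self]
      constructor
      · rintro ⟨t, ht, h⟩
        obtain ⟨x, hx⟩ := exists_rep (p := p) hN hun ht n
        rcases h x with h1 | h1
        · exact absurd ((hrep n _ (by rw [w0]; exact ht)).2 (by rw [w0, w1]; exact hx)) h1
        · exact (hH _ n (by rw [w0]; exact ht) (by rw [w0, w1]; exact hx)).1 h1
      · intro h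
        refine ⟨_, good2_laurent p, fun x => ?_⟩
        by_cases h1 : Rep (valRing p) p φ₀ i₀ N₀ (HahnSeries.single (1 : ℤ) (1 : ZMod p)) x n
        · right
          exact (hH _ n (by rw [w0]; exact good2_laurent p) (by rw [w0, w1]; exact h1)).2 h
        · left
          rw [hrep n _ (by rw [w0]; exact good2_laurent p), w0, w1]
          exact h1
    rw [Tp, key]
    refine and_iff_right ?_
    rw [← Finset.subset_empty]
    intro y hy
    simp only [sent, Fm.free, Finset.mem_erase, Finset.mem_union] at hy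
    obtain ⟨hy0, hy | ⟨hy1, hy | hy⟩⟩ := hy
    · have := fG hy
      simp only [Finset.mem_singleton] at this
      exact absurd this hy0
    · have := hfree n hy
      simp only [Finset.mem_insert, Finset.mem_singleton] at this
      rcases this with h | h
      · exact absurd h hy0
      · exact absurd h hy1
    · have := fH hy
      simp only [Finset.mem_insert, Finset.mem_singleton] at this
      rcases this with h | h
      · exact absurd h hy0
      · exact absurd h hy1
  apply halt_not_computable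
  obtain ⟨f, hf, hf'⟩ := ComputablePred.computable_iff.1 hdec
  refine ComputablePred.computable_iff.2 ⟨fun n => f (bits (sent G V0 V1 Z S H n)),
    hf.comp (computable_sent G V0 V1 Z S H), ?_⟩
  funext n
  have h1 := congrFun hf' (bits (sent G V0 V1 Z S H n))
  refine Eq.trans ?_ h1
  apply propext
  rw [← hmem, Pool.Agent.NPC.bits_mem_lang]

/-- If the theory is decidable then there is uniform finiteness. -/
theorem uniform_finiteness (p : ℕ) [hp : Fact p.Prime]
    (h : ComputablePred (fun x : List Bool => x ∈ lang (Tp p))) (φ : Fm) (i : ℕ) :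
    ∃ N : ℕ, ∀ z : ℕ → LaurentSeries (ZMod p),
      {a | φ.Holds (valRing p) (update z i a)}.Finite →
        {a | φ.Holds (valRing p) (update z i a)}.ncard ≤ N := by
  by_contra hcon
  push Not at hcon
  refine undecidable_of_unb p φ i (fun n => ?_) h
  obtain ⟨z, hz, hn⟩ := hcon n
  exact ⟨z, hz, hn.le⟩

end Pool.Agent.H64R2.VF
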