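import Pool.Agent.H64R2.VF.UDef

/-!
# Interpretation of arithmetic from a definable family of finite sets of unbounded size
-/

namespace Pool.Agent.H64R2.VF

open Pool.Agent.Helper180.ArithDef
open Function (update)

/-! ### coded sets -/

section
variable {K : Type} [Field K] (O : Set K) (p : ℕ) (φ₀ : Fm) (i₀ N₀ : ℕ)

/-- tuples as single elements -/
def tup (t : K) : ℕ → (ℕ → K) → K
  | 0, _ => 0
  | n + 1, g => (g n) ^ p + t * (tup t n g) ^ p

/-- membership in the set coded by `x` -/
def Mem (t x s : K) : Prop :=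
  ∃ g : ℕ → K, x = tup p t (N₀ + 2) g ∧ φ₀.Holds O (update g i₀ s) ∧
    Cod p t (g N₀) (g (N₀ + 1)) s

/-- the set coded by `x` -/
def Fx (t x : K) : Set K := {s | Mem O p φ₀ i₀ N₀ t x s}

/-- `x` represents the number `n` -/
def Rep (t x : K) (n : ℕ) : Prop := (Fx O p φ₀ i₀ N₀ t x).Finite ∧ (Fx O p φ₀ i₀ N₀ t x).ncard = n

/-- term for `tup`, of the variables `x_b, x_{b+1}, …` -/
def tupT (b : ℕ) : ℕ → Tm
  | 0 => .zero
  | n + 1 => .add ((Tm.var (b + n)).pow p) (.mul (.var 0) ((tupT b n).pow p))

theorem eval_tupT (b : ℕ) (x : ℕ → K) (n : ℕ) :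
    (tupT p b n).eval x = tup p (x 0) n (fun j => x (b + j)) := by
  induction n with
  | zero => rfl
  | succ n ih => simp only [tupT, tup, eval_add, eval_pow, eval_var, eval_mul, ih]

theorem bd_tupT (b n : ℕ) : (tupT p b n).bd ≤ max 1 (b + n) := by
  induction n with
  | zero => simp [tupT]
  | succ n ih =>
    have h1 := bd_pow (.var (b + n)) p
    have h2 := bd_pow (tupT p b n) p
    simp only [tupT, bd_add, bd_mul, bd_var] at *
    omega

variable {N₀} in
theorem df_mem (hN : ∀ n ∈ φ₀.free, n < N₀) : Df O (fun t v => Mem O p φ₀ i₀ N₀ t (v 0) (v 1)) := by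
  obtain ⟨φ', h1, _⟩ := exists_ren φ₀ (fun j => if j = i₀ then 2 else 3 + j)
  refine ⟨exs 3 (N₀ + 2) (.and (.eq (.var 1) (tupT p 3 (N₀ + 2))) (.and φ'
    (.ex (N₀ + 5) (.and (.eq (.mul (.var (N₀ + 5)) ((Tm.var (3 + N₀)).sub (.var 2)))
      (.var (3 + (N₀ + 1)))) (ggF p (.var (N₀ + 5)) (N₀ + 6)))))), fun t v => ?_⟩
  rw [holds_exs]
  have key : ∀ g : ℕ → K, (Fm.and (.eq (.var 1) (tupT p 3 (N₀ + 2))) (.and φ'
    (.ex (N₀ + 5) (.and (.eq (.mul (.var (N₀ + 5)) ((Tm.var (3 + N₀)).sub (.var 2)))
      (.var (3 + (N₀ + 1)))) (ggF p (.var (N₀ + 5)) (N₀ + 6)))))).Holds O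
        (fun w => if 3 ≤ w ∧ w < 3 + (N₀ + 2) then g w else cns t v w) ↔
      v 0 = tup p t (N₀ + 2) (fun j => if j < N₀ + 2 then g (3 + j) else v j) ∧
      φ₀.Holds O (update (fun j => if j < N₀ + 2 then g (3 + j) else v j) i₀ (v 1)) ∧
      Cod p t (g (3 + N₀)) (g (3 + (N₀ + 1))) (v 1) := by
    intro g
    set x : ℕ → K := fun w => if 3 ≤ w ∧ w < 3 + (N₀ + 2) then g w else cns t v w with hx
    have e0 : x 0 = t := by rw [hx]; simp [cns]
    have e1 : x 1 = v 0 := by rw [hx]; simp [cns]
    have e2 : x 2 = v 1 := by rw [hx]; simp only; rw [if_neg (by omega)]; rfl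
    have e3 : ∀ j < N₀ + 2, x (3 + j) = g (3 + j) := by
      intro j hj
      rw [hx]
      simp only
      rw [if_pos ⟨by omega, by omega⟩]
    rw [holds_and, holds_and, holds_eq, eval_tupT, eval_var, e0, e1]
    have t1 : ∀ n ≤ N₀ + 2, tup p t n (fun j => x (3 + j)) =
        tup p t n (fun j => if j < N₀ + 2 then g (3 + j) else v j) := by
      intro n
      induction n with
      | zero => intro _; rfl
      | succ n ih =>
        intro hn
        simp only [tup]
        rw [ih (by omega), e3 n (by omega), if_pos (by omega)]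
    rw [t1 _ le_rfl]
    refine and_congr_right fun _ => and_congr ?_ ?_
    · rw [h1]
      apply holds_congr
      intro n hn
      have := hN n hn
      by_cases h : n = i₀
      · subst h
        simp only [if_true]
        rw [e2, Function.update_self]
      · simp only [h, if_false]
        rw [Function.update_of_ne h, e3 n (by omega), if_pos (by omega)]
    · rw [holds_ex]
      unfold Cod
      refine exists_congr fun y => ?_
      have f0 : update x (N₀ + 5) y 0 = t := by rw [Function.update_of_ne (by omega), e0]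
      have f1 : update x (N₀ + 5) y (N₀ + 5) = y := by rw [Function.update_self]
      have f2 : update x (N₀ + 5) y 2 = v 1 := by rw [Function.update_of_ne (by omega), e2]
      have f3 : ∀ j < N₀ + 2, update x (N₀ + 5) y (3 + j) = g (3 + j) := by
        intro j hj
        rw [Function.update_of_ne (by omega), e3 j hj]
      rw [holds_and, holds_eq, holds_ggF _ _ _ _ (by simp) (by omega)]
      simp only [eval_mul, eval_sub, eval_var]
      rw [f0, f1, f2, f3 _ (by omega), f3 _ (by omega)]
  constructor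
  · rintro ⟨g, hg⟩
    rw [key] at hg
    refine ⟨_, hg.1, hg.2.1, ?_⟩
    rw [if_pos (by omega), if_pos (by omega)]
    exact hg.2.2
  · rintro ⟨g, h1, h2, h3⟩
    refine ⟨fun w => g (w - 3), ?_⟩
    rw [key]
    have e : ∀ j, 3 + j - 3 = j := by intro j; omega
    simp only [e]
    refine ⟨?_, ?_, h3⟩
    · rw [h1]
      have t1 : ∀ n ≤ N₀ + 2, tup p t n g = tup p t n (fun j => if j < N₀ + 2 then g j else v j) := by
        intro n
        induction n with
        | zero => intro _; rfl
        | succ n ih =>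
          intro hn
          simp only [tup]
          rw [ih (by omega), if_pos (by omega)]
      exact t1 _ le_rfl
    · rw [← holds_congr O φ₀ (v := update g i₀ (v 1))]
      · exact h2
      · intro n hn
        have := hN n hn
        by_cases h : n = i₀
        · subst h
          rw [Function.update_self, Function.update_self]
        · rw [Function.update_of_ne h, Function.update_of_ne h, if_pos (by omega)]

variable [hp : Fact p.Prime] [CharP K p] {p}

theorem pr_inj {t : K} (ht : Good p t) {a b a' b' : K} (h : a ^ p + t * b ^ p = a' ^ p + t * b' ^ p) :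
    a = a' ∧ b = b' := by
  have hb : b = b' := by
    by_contra hne
    have h0 : b' - b ≠ 0 := sub_ne_zero.2 (Ne.symm hne)
    have h1 : t = ((a - a') / (b' - b)) ^ p := by
      rw [div_pow, sub_pow_char, sub_pow_char, eq_div_iff]
      · linear_combination -h
      · rw [← sub_pow_char]
        exact pow_ne_zero _ h0
    apply ht.2
    set s := (a - a') / (b' - b) with hs
    have hs0 : s ≠ 0 := by
      intro h2
      apply ht.1
      rw [h1, h2, zero_pow hp.out.ne_zero]
    have h2 : (1 : K) = t ^ 1 * (s⁻¹) ^ p := by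
      rw [pow_one, h1, ← mul_pow, mul_inv_cancel₀ hs0, one_pow]
    have h3 := hp.out.one_lt
    rw [h2]
    exact GG_mono one_pos h3 _
  subst hb
  refine ⟨?_, rfl⟩
  have h1 : a ^ p = a' ^ p := by simpa using h
  exact frobenius_inj K p h1

theorem tup_inj {t : K} (ht : Good p t) (n : ℕ) : ∀ {g g' : ℕ → K}, tup p t n g = tup p t n g' →
    ∀ j < n, g j = g' j := by
  induction n with
  | zero => intro g g' _ j hj; omega
  | succ n ih =>
    intro g g' h j hj
    simp only [tup] at h
    obtain ⟨h1, h2⟩ := pr_inj ht h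
    rcases Nat.lt_succ_iff_lt_or_eq.1 hj with h3 | rfl
    · exact ih h2 j h3
    · exact h1

variable {O φ₀ i₀ N₀}

theorem mem_tup {t : K} (ht : Good p t) (hN : ∀ n ∈ φ₀.free, n < N₀) (g : ℕ → K) (s : K) :
    Mem O p φ₀ i₀ N₀ t (tup p t (N₀ + 2) g) s ↔
      φ₀.Holds O (update g i₀ s) ∧ Cod p t (g N₀) (g (N₀ + 1)) s := by
  constructor
  · rintro ⟨g', h1, h2, h3⟩
    have h4 := tup_inj ht _ h1
    rw [h4 _ (by omega), h4 _ (by omega)]
    refine ⟨?_, h3⟩
    rw [holds_congr O φ₀ (v' := update g' i₀ s)]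
    · exact h2
    · intro n hn
      by_cases h : n = i₀
      · subst h; simp
      · rw [Function.update_of_ne h, Function.update_of_ne h, h4 n (by have := hN n hn; omega)]
  · rintro ⟨h1, h2⟩
    exact ⟨g, rfl, h1, h2⟩

end

end Pool.Agent.H64R2.VF
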