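import Pool.Agent.H64R2.VF.UDefs

namespace Pool.Agent.H64R2.VF.UStubs

open Pool.Agent.H64R2.VF

/-- Task U1 -/
theorem good2_laurent (p : ℕ) [hp : Fact p.Prime] :
    Good2 p (HahnSeries.single (1 : ℤ) (1 : ZMod p) : LaurentSeries (ZMod p)) := sorry

/-- Task U2 -/
theorem exists_cod {K : Type} [Field K] [Infinite K] (p : ℕ) [hp : Fact p.Prime] [CharP K p]
    {t : K} (ht : Good2 p t) (S : Finset K) :
    ∃ c, c ∉ S ∧ ∀ J : Set K, ∃ C, ∀ s ∈ S, (Cod p t c C s ↔ s ∈ J) := sorry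

/-- Task U2 -/
theorem exists_inj2 {K : Type} [Field K] [Infinite K] (S : Finset (K × K)) :
    ∃ a : K, Set.InjOn (fun q : K × K => q.1 + a * q.2) (S : Set (K × K)) := sorry

/-- Task U2 -/
theorem exists_inj3 {K : Type} [Field K] [Infinite K] (S : Finset (K × K × K)) :
    ∃ a b : K, Set.InjOn (fun q : K × K × K => q.1 + a * q.2.1 + b * q.2.2)
      (S : Set (K × K × K)) := sorry

/-- Task U3 -/
theorem finC_iff (p : ℕ) [hp : Fact p.Prime] (X : Set (LaurentSeries (ZMod p))) :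
    FinC (valRing p) X ↔ X.Finite := sorry

/-- Task U3 -/
theorem infinite_laurent (p : ℕ) [hp : Fact p.Prime] : Infinite (LaurentSeries (ZMod p)) := sorry

end Pool.Agent.H64R2.VF.UStubs
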